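import Mathlib

/-!
# Laplacian spread of balanced digraphs
-/

set_option autoImplicit false

open Finset Matrix

namespace Pool.Agent.X18.Spread

section core

variable {n : ℕ}

/-- Data of a weighted graph with weights `0, 1, 2` and even weighted degrees `2 d i`. -/
structure Data (n : ℕ) where
  w : Fin n → Fin n → ℤ
  d : Fin n → ℤ
  symm : ∀ i j, w i j = w j i
  diag : ∀ i, w i i = 0
  nonneg : ∀ i j, 0 ≤ w i j
  le_two : ∀ i j, w i j ≤ 2
  sum : ∀ i, ∑ j, w i j = 2 * d i

namespace Data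

variable (D : Data n)

/-- The symmetrised Laplacian. -/
noncomputable def S : Matrix (Fin n) (Fin n) ℝ :=
  Matrix.of fun i j => (if i = j then (D.d i : ℝ) else 0) - (D.w i j : ℝ) / 2

lemma S_symm (i j : Fin n) : D.S i j = D.S j i := by
  unfold S
  simp only [Matrix.of_apply]
  rw [D.symm i j]
  by_cases h : i = j
  · subst h; rfl
  · rw [if_neg h, if_neg (Ne.symm h)]

lemma S_diag (i : Fin n) : D.S i i = D.d i := by
  unfold S; simp [D.diag]

lemma S_off (i j : Fin n) (h : i ≠ j) : D.S i j = -(D.w i j : ℝ) / 2 := by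
  unfold S
  simp only [Matrix.of_apply]
  rw [if_neg h]; ring

lemma S_row (i : Fin n) : ∑ j, D.S i j = 0 := by
  unfold S
  simp only [Matrix.of_apply, sum_sub_distrib, sum_ite_eq, mem_univ, if_true]
  rw [← sum_div]
  have := D.sum i
  have h : ((∑ j, D.w i j : ℤ) : ℝ) = 2 * (D.d i : ℝ) := by rw [this]; push_cast; ring
  push_cast at h
  rw [h]; ring

/-- The quadratic form. -/
noncomputable def q (x : Fin n → ℝ) : ℝ := x ⬝ᵥ (D.S *ᵥ x)

lemma bil_symm (x y : Fin n → ℝ) : x ⬝ᵥ (D.S *ᵥ y) = y ⬝ᵥ (D.S *ᵥ x) := by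
  simp only [dotProduct, mulVec, mul_sum]
  rw [sum_comm]
  refine sum_congr rfl fun i _ => sum_congr rfl fun j _ => ?_
  rw [D.S_symm j i]; ring

lemma q_add (x y : Fin n → ℝ) : D.q (x + y) = D.q x + 2 * (x ⬝ᵥ (D.S *ᵥ y)) + D.q y := by
  unfold q
  rw [mulVec_add, add_dotProduct, dotProduct_add, dotProduct_add, D.bil_symm y x]
  ring

/-- The interval containing the form on the orthogonal complement of the all-one vector. -/
def Between (a b : ℝ) : Prop :=
  ∀ x : Fin n → ℝ, ∑ i, x i = 0 → a * (x ⬝ᵥ x) ≤ D.q x ∧ D.q x ≤ b * (x ⬝ᵥ x)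

lemma q_pair (i j : Fin n) (h : i ≠ j) :
    D.q (Pi.single i 1 - Pi.single j 1) = D.d i + D.d j + D.w i j := by
  unfold q
  rw [mulVec_sub, sub_dotProduct, dotProduct_sub, dotProduct_sub]
  simp only [single_dotProduct, one_mul, mulVec_single_one, Matrix.col_apply]
  rw [D.S_diag, D.S_diag, D.S_off i j h, D.S_off j i (Ne.symm h), D.symm j i]
  ring

lemma norm_pair (i j : Fin n) (h : i ≠ j) :
    (Pi.single i 1 - Pi.single j 1 : Fin n → ℝ) ⬝ᵥ (Pi.single i 1 - Pi.single j 1) = 2 := by
  rw [sub_dotProduct, dotProduct_sub, dotProduct_sub]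
  simp only [single_dotProduct, one_mul, Pi.single_eq_same]
  rw [Pi.single_eq_of_ne h, Pi.single_eq_of_ne (Ne.symm h)]
  norm_num

lemma sum_pair (i j : Fin n) :
    ∑ k, (Pi.single i 1 - Pi.single j 1 : Fin n → ℝ) k = 0 := by
  simp [Pi.sub_apply, sum_sub_distrib]

/-- The values of the form at differences of basis vectors, doubled. -/
def v (i j : Fin n) : ℤ := D.d i + D.d j + D.w i j

lemma v_between {a b : ℝ} (h : D.Between a b) (i j : Fin n) (hij : i ≠ j) :
    2 * a ≤ D.v i j ∧ (D.v i j : ℝ) ≤ 2 * b := by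
  have h1 := h _ (sum_pair i j)
  rw [D.q_pair i j hij, norm_pair i j hij] at h1
  unfold v
  push_cast
  constructor <;> linarith [h1.1, h1.2]

lemma v_symm (i j : Fin n) : D.v i j = D.v j i := by
  unfold v; rw [D.symm i j]; ring

/-- The difference of degrees is a sum over third vertices. -/
lemma diff_deg (i k : Fin n) (hik : i ≠ k) :
    ∑ j ∈ (univ.erase i).erase k, (D.v i j - D.v k j) = n * (D.d i - D.d k) := by
  have hn : 2 ≤ n := by
    have : ({i, k} : Finset (Fin n)).card ≤ n := by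
      simpa using card_le_univ ({i, k} : Finset (Fin n))
    rw [card_pair hik] at this
    exact this
  have hk : k ∈ univ.erase i := by simp [hik.symm]
  have e1 : ∑ j, (D.w i j - D.w k j) = 2 * (D.d i - D.d k) := by
    rw [sum_sub_distrib, D.sum, D.sum]; ring
  rw [← add_sum_erase univ _ (mem_univ i), ← add_sum_erase _ _ hk, D.diag, D.diag,
    D.symm k i] at e1
  have e2 : ∑ j ∈ (univ.erase i).erase k, (D.v i j - D.v k j) =
      ∑ j ∈ (univ.erase i).erase k, ((D.d i - D.d k) + (D.w i j - D.w k j)) :=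
    sum_congr rfl fun j _ => by unfold v; ring
  rw [e2, sum_add_distrib, sum_const, card_erase_of_mem hk, card_erase_of_mem (mem_univ _),
    card_univ, Fintype.card_fin]
  have e3 : ((n - 1 - 1 : ℕ) : ℤ) = n - 2 := by omega
  rw [nsmul_eq_mul, e3]
  linarith

/-- If an extreme value is attained at a pair, the pair consists of twins. -/
lemma twins {b : ℝ} (s : ℝ) (h : ∀ x : Fin n → ℝ, ∑ i, x i = 0 → 0 ≤ s * (b * (x ⬝ᵥ x) - D.q x))
    (hs : s ≠ 0) (i j : Fin n) (hij : i ≠ j) (hv : (D.v i j : ℝ) = 2 * b) :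
    D.d i = D.d j ∧ ∀ k, k ≠ i → k ≠ j → D.w i k = D.w j k := by
  set z : Fin n → ℝ := Pi.single i 1 - Pi.single j 1 with hz
  have hz0 : b * (z ⬝ᵥ z) - D.q z = 0 := by
    rw [D.q_pair i j hij, norm_pair i j hij]
    unfold v at hv
    push_cast at hv
    linarith
  have hbil : ∀ y : Fin n → ℝ, ∑ i, y i = 0 → b * (z ⬝ᵥ y) - z ⬝ᵥ (D.S *ᵥ y) = 0 := by
    intro y hy
    by_contra hne
    set c := b * (z ⬝ᵥ y) - z ⬝ᵥ (D.S *ᵥ y) with hc
    set e := b * (y ⬝ᵥ y) - D.q y with he
    have hform : ∀ t : ℝ, 0 ≤ s * (2 * t * c + t ^ 2 * e) := by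
      intro t
      have h1 := h (z + t • y) (by
        simp only [Pi.add_apply, Pi.smul_apply, smul_eq_mul, sum_add_distrib, ← mul_sum, hy,
          mul_zero, add_zero]
        exact sum_pair i j)
      have h2 : b * ((z + t • y) ⬝ᵥ (z + t • y)) - D.q (z + t • y) =
          2 * t * c + t ^ 2 * e := by
        rw [D.q_add]
        have e1 : D.q (t • y) = t ^ 2 * D.q y := by
          unfold q
          rw [mulVec_smul, smul_dotProduct, dotProduct_smul]
          simp only [smul_eq_mul]; ring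
        have e2 : z ⬝ᵥ (D.S *ᵥ (t • y)) = t * (z ⬝ᵥ (D.S *ᵥ y)) := by
          rw [mulVec_smul, dotProduct_smul, smul_eq_mul]
        have e3 : (z + t • y) ⬝ᵥ (z + t • y) =
            z ⬝ᵥ z + 2 * t * (z ⬝ᵥ y) + t ^ 2 * (y ⬝ᵥ y) := by
          rw [add_dotProduct, dotProduct_add, dotProduct_add, smul_dotProduct, dotProduct_smul,
            smul_dotProduct, dotProduct_smul, dotProduct_comm y z]
          simp only [smul_eq_mul]; ring
        rw [e1, e2, e3, hc, he]
        linear_combination hz0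
      rw [h2] at h1
      exact h1
    -- choose a small `t`
    set M := |s * e| + 1 with hM
    have hMpos : 0 < M := by positivity
    have hsc : s * c ≠ 0 := mul_ne_zero hs hne
    have h3 := hform (-(s * c) / M)
    have h4 : s * (2 * (-(s * c) / M) * c + (-(s * c) / M) ^ 2 * e) =
        (s * c) ^ 2 / M ^ 2 * (s * e - 2 * M) := by
      field_simp
      ring
    rw [h4] at h3
    have h5 : s * e - 2 * M < 0 := by
      have := le_abs_self (s * e)
      linarith [abs_nonneg (s * e)]
    have h6 : 0 < (s * c) ^ 2 / M ^ 2 := by positivity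
    nlinarith [mul_neg_of_pos_of_neg h6 h5]
  have hcoord : ∀ y : Fin n → ℝ, z ⬝ᵥ (D.S *ᵥ y) = (D.S *ᵥ z) ⬝ᵥ y := by
    intro y
    rw [D.bil_symm, dotProduct_comm]
  have hSz : ∀ k, (D.S *ᵥ z) k = D.S k i - D.S k j := by
    intro k
    rw [hz, mulVec_sub]
    simp only [mulVec_single_one, Pi.sub_apply, Matrix.col_apply]
  have hpq : ∀ k l, k ≠ l → b * (z k - z l) = (D.S *ᵥ z) k - (D.S *ᵥ z) l := by
    intro k l hkl
    have h1 := hbil _ (sum_pair k l)
    rw [hcoord, dotProduct_sub, dotProduct_sub] at h1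
    simp only [dotProduct_single, mul_one] at h1
    linarith
  have zi : z i = 1 := by
    rw [hz, Pi.sub_apply, Pi.single_eq_same, Pi.single_eq_of_ne hij]; ring
  have zj : z j = -1 := by
    rw [hz, Pi.sub_apply, Pi.single_eq_same, Pi.single_eq_of_ne (Ne.symm hij)]; ring
  -- the vector `S z - b z` is constant and has sum zero
  have hconst : ∀ k, (D.S *ᵥ z) k - b * z k = (D.S *ᵥ z) i - b * z i := by
    intro k
    by_cases hk : k = i
    · rw [hk]
    · have := hpq k i hk
      linarith
  have hsum : ∑ k, ((D.S *ᵥ z) k - b * z k) = 0 := by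
    rw [sum_sub_distrib, ← mul_sum, sum_pair i j, mul_zero, sub_zero]
    simp only [hSz]
    rw [sum_sub_distrib]
    have e1 : ∀ l, ∑ k, D.S k l = 0 := by
      intro l
      rw [← D.S_row l]
      exact sum_congr rfl fun k _ => D.S_symm k l
    rw [e1, e1, sub_zero]
  have hzero : ∀ k, (D.S *ᵥ z) k - b * z k = 0 := by
    intro k
    simp only [hconst] at hsum
    rw [sum_const, card_univ, Fintype.card_fin, nsmul_eq_mul] at hsum
    have hn : (n : ℝ) ≠ 0 := by
      have : 0 < n := i.pos
      positivity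
    rw [hconst k]
    exact (mul_eq_zero.1 hsum).resolve_left hn
  constructor
  · have h1 := hzero i
    have h2 := hzero j
    rw [hSz, zi, D.S_diag, D.S_off i j hij] at h1
    rw [hSz, zj, D.S_diag, D.S_off j i (Ne.symm hij), D.symm j i] at h2
    have : (D.d i : ℝ) = D.d j := by linarith
    exact_mod_cast this
  · intro k hki hkj
    have h1 := hzero k
    have zk : z k = 0 := by
      rw [hz, Pi.sub_apply, Pi.single_eq_of_ne hki, Pi.single_eq_of_ne hkj]; ring
    rw [hSz, zk, D.S_off k i hki, D.S_off k j hkj, D.symm k i, D.symm k j] at h1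
    have : (D.w i k : ℝ) = D.w j k := by linarith
    exact_mod_cast this

/-- If the interval has length at most one, the values `v` at pairs take at most two consecutive
values. -/
lemma two_values {a b : ℝ} (h : D.Between a b) (hab : b - a ≤ 1) (hn : 2 ≤ n) :
    ∃ c : ℤ, ∀ i j, i ≠ j → D.v i j = c ∨ D.v i j = c + 1 := by
  set c := ⌈2 * a⌉ with hc
  have hle : ∀ i j, i ≠ j → c ≤ D.v i j ∧ D.v i j ≤ c + 2 := by
    intro i j hij
    obtain ⟨h1, h2⟩ := D.v_between h i j hij
    constructor
    · exact Int.ceil_le.2 h1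
    · have h3 : (2 * a : ℝ) ≤ c := Int.le_ceil _
      have h4 : (D.v i j : ℝ) ≤ ((c + 2 : ℤ) : ℝ) := by push_cast; linarith
      exact_mod_cast h4
  by_cases hmax : ∃ i j, i ≠ j ∧ D.v i j = c + 2
  · by_cases hmin : ∃ k l, k ≠ l ∧ D.v k l = c
    · exfalso
      obtain ⟨i, j, hij, hvij⟩ := hmax
      obtain ⟨k, l, hkl, hvkl⟩ := hmin
      have hb := (D.v_between h i j hij).2
      have ha := (D.v_between h k l hkl).1
      rw [hvij] at hb
      rw [hvkl] at ha
      push_cast at hb
      have hca : (c : ℝ) = 2 * a := by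
        have h3 : (2 * a : ℝ) ≤ c := Int.le_ceil _
        linarith
      have hcb : (c : ℝ) + 2 = 2 * b := by linarith
      have tmax : ∀ i j, i ≠ j → D.v i j = c + 2 →
          D.d i = D.d j ∧ ∀ k, k ≠ i → k ≠ j → D.w i k = D.w j k := by
        intro i j hij hv
        refine D.twins (b := b) 1 (fun x hx => ?_) one_ne_zero i j hij ?_
        · have := (h x hx).2
          linarith
        · rw [hv]; push_cast; exact hcb
      have tmin : ∀ i j, i ≠ j → D.v i j = c →
          D.d i = D.d j ∧ ∀ k, k ≠ i → k ≠ j → D.w i k = D.w j k := by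
        intro i j hij hv
        refine D.twins (b := a) (-1) (fun x hx => ?_) (by norm_num) i j hij ?_
        · have := (h x hx).1
          linarith
        · rw [hv]; exact hca
      have hno : ∀ i j k, i ≠ j → i ≠ k → D.v i j = c + 2 → D.v i k = c → False := by
        intro i j k hij hik h1 h2
        have hjk : j ≠ k := by
          rintro rfl
          omega
        obtain ⟨a1, a2⟩ := tmax i j hij h1
        obtain ⟨b1, b2⟩ := tmin i k hik h2
        have e1 := a2 k (Ne.symm hik) (Ne.symm hjk)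
        have e2 := b2 j (Ne.symm hij) hjk
        unfold v at h1 h2
        rw [D.symm k j] at e2
        omega
      have hno' : ∀ i j k, i ≠ j → i ≠ k → D.v i j = c + 2 → D.v i k ≠ c := fun i j k a b e f =>
        hno i j k a b e f
      -- partners
      have hik : i ≠ k := by
        rintro rfl
        exact hno i j l hij hkl hvij hvkl
      have hdiff := D.diff_deg i k hik
      have hmem : ∀ m, m ∈ (univ.erase i).erase k ↔ m ≠ k ∧ m ≠ i := by
        intro m; simp
      have hvik1 : D.v i k ≠ c := hno' i j k hij hik hvij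
      have hvik2 : D.v i k ≠ c + 2 := by
        intro h'
        rw [D.v_symm] at h'
        exact hno k i l (Ne.symm hik) hkl h' hvkl
      have hjk : j ≠ k := by rintro rfl; exact hvik2 hvij
      have hli : l ≠ i := by
        rintro rfl
        rw [D.v_symm] at hvkl
        exact hvik1 hvkl
      -- each term is between `0` and `1`, and one is positive
      have hterm : ∀ m ∈ (univ.erase i).erase k, 0 ≤ D.v i m - D.v k m ∧
          D.v i m - D.v k m ≤ 1 := by
        intro m hm
        rw [hmem] at hm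
        obtain ⟨a1, a2⟩ := hle i m (Ne.symm hm.2)
        obtain ⟨b1, b2⟩ := hle k m (Ne.symm hm.1)
        have a3 : D.v i m ≠ c := hno' i j m hij (Ne.symm hm.2) hvij
        have b3 : D.v k m ≠ c + 2 := fun h' => hno k m l (Ne.symm hm.1) hkl h' hvkl
        have ab : ¬ (D.v i m = c + 2 ∧ D.v k m = c) := by
          rintro ⟨h1, h2⟩
          rw [D.v_symm] at h1 h2
          exact hno m i k hm.2 hm.1 h1 h2
        omega
      have hpos : 0 < ∑ m ∈ (univ.erase i).erase k, (D.v i m - D.v k m) := by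
        apply sum_pos'
        · exact fun m hm => (hterm m hm).1
        · refine ⟨j, (hmem j).2 ⟨hjk, Ne.symm hij⟩, ?_⟩
          obtain ⟨b1, b2⟩ := hle k j (Ne.symm hjk)
          have b3 : D.v k j ≠ c + 2 := fun h' => hno k j l (Ne.symm hjk) hkl h' hvkl
          omega
      have hup : ∑ m ∈ (univ.erase i).erase k, (D.v i m - D.v k m) ≤ (n : ℤ) - 2 := by
        have h1 := sum_le_sum fun m hm => (hterm m hm).2
        rw [sum_const, card_erase_of_mem (by simp [Ne.symm hik]), card_erase_of_mem (mem_univ _),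
          card_univ, Fintype.card_fin] at h1
        have e3 : ((n - 1 - 1 : ℕ) : ℤ) = n - 2 := by omega
        rw [nsmul_eq_mul, e3] at h1
        linarith
      rw [hdiff] at hpos hup
      have hn' : (0 : ℤ) < n := by omega
      have h1 : 0 < D.d i - D.d k := by
        by_contra hcon
        push Not at hcon
        nlinarith
      nlinarith
    · push Not at hmin
      refine ⟨c + 1, fun i j hij => ?_⟩
      have h1 := hle i j hij
      have h2 := hmin i j hij
      omega
  · push Not at hmax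
    refine ⟨c, fun i j hij => ?_⟩
    have h1 := hle i j hij
    have h2 := hmax i j hij
    omega

/-- The degrees are equal. -/
lemma deg_eq {c : ℤ} (hc : ∀ i j, i ≠ j → D.v i j = c ∨ D.v i j = c + 1) (i k : Fin n) :
    D.d i = D.d k := by
  by_cases hik : i = k
  · rw [hik]
  have hn : 2 ≤ n := by
    have : ({i, k} : Finset (Fin n)).card ≤ n := by
      simpa using card_le_univ ({i, k} : Finset (Fin n))
    rw [card_pair hik] at this
    exact this
  have key : ∀ i k : Fin n, i ≠ k → (n : ℤ) * (D.d i - D.d k) ≤ n - 2 := by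
    intro i k hik
    rw [← D.diff_deg i k hik]
    have h1 : ∀ m ∈ (univ.erase i).erase k, D.v i m - D.v k m ≤ 1 := by
      intro m hm
      simp only [mem_erase, mem_univ, and_true] at hm
      have a1 := hc i m (Ne.symm hm.2)
      have a2 := hc k m (Ne.symm hm.1)
      omega
    have h2 := sum_le_sum h1
    rw [sum_const, card_erase_of_mem (by simp [Ne.symm hik]), card_erase_of_mem (mem_univ _),
      card_univ, Fintype.card_fin] at h2
    have e3 : ((n - 1 - 1 : ℕ) : ℤ) = n - 2 := by omega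
    rw [nsmul_eq_mul, e3] at h2
    linarith
  have h1 := key i k hik
  have h2 := key k i (Ne.symm hik)
  have hn' : (0 : ℤ) < n := by omega
  have h3 : D.d i - D.d k < 1 := by
    by_contra hcon
    push Not at hcon
    nlinarith
  have h4 : D.d k - D.d i < 1 := by
    by_contra hcon
    push Not at hcon
    nlinarith
  omega

/-- The row inequality. -/
lemma row_ineq {a b : ℝ} (h : D.Between a b) (hab : b - a ≤ 1) (i : Fin n) (e : ℤ) (u : ℤ)
    (hw : ∀ j, j ≠ i → D.w i j = e ∨ D.w i j = e + 1)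
    (hu : ∑ j ∈ univ.erase i, (D.w i j - e) = u) :
    (n : ℝ) * (u * (n - 1 - u)) ≤ ((n : ℝ) - 1) ^ 2 := by
  have hnpos : 0 < n := i.pos
  have hn0 : (n : ℝ) ≠ 0 := by positivity
  set m := (a + b) / 2 with hm
  have hq : ∀ x : Fin n → ℝ, ∑ k, x k = 0 →
      D.q x - m * (x ⬝ᵥ x) ≤ 1 / 2 * (x ⬝ᵥ x) ∧ -(1 / 2 * (x ⬝ᵥ x)) ≤ D.q x - m * (x ⬝ᵥ x) := by
    intro x hx
    obtain ⟨h1, h2⟩ := h x hx
    have h3 : 0 ≤ x ⬝ᵥ x := by
      simp only [dotProduct]
      exact sum_nonneg fun k _ => mul_self_nonneg _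
    constructor <;> nlinarith
  have hpol : ∀ x y : Fin n → ℝ, ∑ k, x k = 0 → ∑ k, y k = 0 →
      4 * (x ⬝ᵥ (D.S *ᵥ y) - m * (x ⬝ᵥ y)) ≤ x ⬝ᵥ x + y ⬝ᵥ y := by
    intro x y hx hy
    have h1 := (hq (x + y) (by simp [sum_add_distrib, hx, hy])).1
    have h2 := (hq (x + -y) (by simp [sum_add_distrib, hx, hy])).2
    rw [D.q_add] at h1 h2
    have e1 : D.q (-y) = D.q y := by
      unfold q; rw [mulVec_neg, neg_dotProduct, dotProduct_neg, neg_neg]
    have e2 : x ⬝ᵥ (D.S *ᵥ (-y)) = -(x ⬝ᵥ (D.S *ᵥ y)) := by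
      rw [mulVec_neg, dotProduct_neg]
    have e3 : (x + y) ⬝ᵥ (x + y) = x ⬝ᵥ x + 2 * (x ⬝ᵥ y) + y ⬝ᵥ y := by
      rw [add_dotProduct, dotProduct_add, dotProduct_add, dotProduct_comm y x]; ring
    have e4 : (x + -y) ⬝ᵥ (x + -y) = x ⬝ᵥ x - 2 * (x ⬝ᵥ y) + y ⬝ᵥ y := by
      rw [add_dotProduct, dotProduct_add, dotProduct_add, neg_dotProduct, dotProduct_neg,
        neg_dotProduct, dotProduct_neg, dotProduct_comm y x]; ring
    rw [e3] at h1
    rw [e1, e2, e4] at h2
    nlinarith
  -- the vectors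
  set p : Fin n → ℝ := fun k => (if k = i then 1 else 0) - 1 / n with hp
  have hpsum : ∑ k, p k = 0 := by
    simp only [hp, sum_sub_distrib, sum_ite_eq', mem_univ, if_true, sum_const, card_univ,
      Fintype.card_fin, nsmul_eq_mul]
    field_simp
    ring
  have hSp : ∀ k, (D.S *ᵥ p) k = D.S k i := by
    intro k
    simp only [mulVec, dotProduct, hp, mul_sub, mul_ite, mul_one, mul_zero, sum_sub_distrib,
      sum_ite_eq', mem_univ, if_true, ← sum_mul, D.S_row, zero_mul, sub_zero]
  set g : Fin n → ℝ := fun k => D.S k i - m * p k with hg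
  have hgsum : ∑ k, g k = 0 := by
    simp only [hg, sum_sub_distrib, ← mul_sum, hpsum, mul_zero, sub_zero]
    rw [← D.S_row i]
    exact sum_congr rfl fun k _ => D.S_symm k i
  have hpg := hpol p ((2 : ℝ) • g) hpsum (by
    simp only [Pi.smul_apply, smul_eq_mul, ← mul_sum, hgsum, mul_zero])
  have hpp : p ⬝ᵥ p = 1 - 1 / n := by
    have : p ⬝ᵥ p = ∑ k, p k * (if k = i then 1 else 0) - (∑ k, p k) * (1 / n) := by
      simp only [dotProduct]
      rw [sum_mul, ← sum_sub_distrib]
      refine sum_congr rfl fun k _ => ?_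
      simp only [hp]; ring
    rw [this, hpsum]
    simp [hp]
  have hgg : p ⬝ᵥ (D.S *ᵥ g) - m * (p ⬝ᵥ g) = g ⬝ᵥ g := by
    rw [D.bil_symm p g]
    have : ∀ k, (D.S *ᵥ p) k = g k + m * p k := by
      intro k; rw [hSp, hg]; ring
    have e1 : D.S *ᵥ p = g + m • p := by
      funext k; rw [this]; simp
    rw [e1, dotProduct_add, dotProduct_smul, dotProduct_comm p g]
    simp only [smul_eq_mul]; ring
  have hgN : g ⬝ᵥ g ≤ (1 - 1 / n) / 4 := by
    have e1 : p ⬝ᵥ (D.S *ᵥ ((2 : ℝ) • g)) = 2 * (p ⬝ᵥ (D.S *ᵥ g)) := by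
      rw [mulVec_smul, dotProduct_smul, smul_eq_mul]
    have e2 : p ⬝ᵥ ((2 : ℝ) • g) = 2 * (p ⬝ᵥ g) := by rw [dotProduct_smul, smul_eq_mul]
    have e3 : ((2 : ℝ) • g) ⬝ᵥ ((2 : ℝ) • g) = 4 * (g ⬝ᵥ g) := by
      rw [smul_dotProduct, dotProduct_smul]; simp only [smul_eq_mul]; ring
    rw [e1, e2, e3, hpp] at hpg
    linarith
  -- lower bound
  set s := m / n - e / 2 with hs
  have hterm : ∀ k ∈ univ.erase i, g k * g k =
      s ^ 2 + (1 / 4 - s) * ((D.w i k - e : ℤ) : ℝ) := by
    intro k hk
    have hki : k ≠ i := by simpa using hk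
    have hgk : g k = s - ((D.w i k - e : ℤ) : ℝ) / 2 := by
      simp only [hg, hp, if_neg hki, hs]
      rw [D.S_off k i hki, D.symm k i]
      push_cast
      field_simp
      ring
    rw [hgk]
    rcases hw k hki with h1 | h1
    · rw [h1]; push_cast; ring
    · rw [h1]; push_cast; ring
  have hlow : ((n : ℝ) - 1) * s ^ 2 + (1 / 4 - s) * u ≤ g ⬝ᵥ g := by
    have e1 : g ⬝ᵥ g = g i * g i + ∑ k ∈ univ.erase i, g k * g k := by
      simp only [dotProduct]
      exact (add_sum_erase univ (fun k => g k * g k) (mem_univ i)).symm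
    rw [e1, sum_congr rfl hterm, sum_add_distrib, sum_const, ← mul_sum, ← Int.cast_sum, hu,
      card_erase_of_mem (mem_univ _), card_univ, Fintype.card_fin, nsmul_eq_mul]
    have e3 : ((n - 1 : ℕ) : ℝ) = (n : ℝ) - 1 := by
      rw [Nat.cast_sub (by omega)]; simp
    rw [e3]
    nlinarith [mul_self_nonneg (g i)]
  have hn1 : (1 : ℝ) ≤ n := by exact_mod_cast hnpos
  have h6 : ((n : ℝ) - 1) * s ^ 2 + (1 / 4 - s) * u ≤ (1 - 1 / n) / 4 := hlow.trans hgN
  have h7 : (n : ℝ) * (((n : ℝ) - 1) * s ^ 2 + (1 / 4 - s) * u) ≤ (n - 1) / 4 := by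
    have := mul_le_mul_of_nonneg_left h6 (show (0 : ℝ) ≤ n by linarith)
    have e4 : (n : ℝ) * ((1 - 1 / n) / 4) = (n - 1) / 4 := by field_simp
    rw [e4] at this
    exact this
  have h8 : ((n : ℝ) - 1) * ((n : ℝ) * (((n : ℝ) - 1) * s ^ 2 + (1 / 4 - s) * u)) ≤
      (n - 1) * ((n - 1) / 4) := mul_le_mul_of_nonneg_left h7 (by linarith)
  have h9 : (0 : ℝ) ≤ n * (((n : ℝ) - 1) * s - u / 2) ^ 2 := by positivity
  nlinarith

/-- Main dichotomy. -/
theorem main {a b : ℝ} (h : D.Between a b) (hab : b - a ≤ 1) (hn : 2 ≤ n) :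
    (∃ w₀ : ℤ, ∀ i j, i ≠ j → D.w i j = w₀) ∨
      (Even n ∧ 4 ≤ n ∧ 1 ≤ b - a ∧
        ((∀ i, 2 * D.d i = (n : ℤ) - 2) ∨ (∀ i, 2 * D.d i = (n : ℤ)))) := by
  obtain ⟨c, hc⟩ := D.two_values h hab hn
  have hdeg := D.deg_eq hc
  set i₀ : Fin n := ⟨0, by omega⟩ with hi₀
  set d₀ := D.d i₀ with hd₀
  have hd : ∀ i, D.d i = d₀ := fun i => hdeg i i₀
  set e := c - 2 * d₀ with he
  have hw : ∀ i j, i ≠ j → D.w i j = e ∨ D.w i j = e + 1 := by
    intro i j hij
    have h1 := hc i j hij
    unfold v at h1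
    rw [hd i, hd j] at h1
    omega
  by_cases hall0 : ∀ i j, i ≠ j → D.w i j = e
  · exact Or.inl ⟨e, hall0⟩
  by_cases hall1 : ∀ i j, i ≠ j → D.w i j = e + 1
  · exact Or.inl ⟨e + 1, hall1⟩
  right
  push Not at hall0 hall1
  obtain ⟨i1, j1, hij1, hne1⟩ := hall0
  obtain ⟨i2, j2, hij2, hne2⟩ := hall1
  have hv1 : D.w i1 j1 = e + 1 := (hw i1 j1 hij1).resolve_left hne1
  have hv2 : D.w i2 j2 = e := (hw i2 j2 hij2).resolve_right hne2
  have he01 : e = 0 ∨ e = 1 := by
    have a1 := D.le_two i1 j1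
    have a2 := D.nonneg i2 j2
    omega
  have hsum : ∀ i, ∑ j ∈ univ.erase i, (D.w i j - e) = 2 * d₀ - ((n : ℤ) - 1) * e := by
    intro i
    rw [sum_sub_distrib, sum_const, card_erase_of_mem (mem_univ _), card_univ, Fintype.card_fin]
    have h1 := D.sum i
    rw [← add_sum_erase univ _ (mem_univ i), D.diag, zero_add, hd] at h1
    rw [h1, nsmul_eq_mul]
    have e3 : ((n - 1 : ℕ) : ℤ) = n - 1 := by omega
    rw [e3]
  set u : ℤ := 2 * d₀ - ((n : ℤ) - 1) * e with hu
  have hu1 : 1 ≤ u := by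
    rw [← hsum i1]
    have h1 : (D.w i1 j1 - e) ≤ ∑ j ∈ univ.erase i1, (D.w i1 j - e) := by
      apply single_le_sum (f := fun j => D.w i1 j - e)
      · intro j hj
        have := hw i1 j (by simpa [eq_comm] using hj)
        omega
      · simpa [eq_comm] using hij1
    omega
  have hu2 : u ≤ n - 2 := by
    rw [← hsum i2]
    have h1 : 1 - (D.w i2 j2 - e) ≤ ∑ j ∈ univ.erase i2, (1 - (D.w i2 j - e)) := by
      apply single_le_sum (f := fun j => 1 - (D.w i2 j - e))
      · intro j hj
        have := hw i2 j (by simpa [eq_comm] using hj)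
        omega
      · simpa [eq_comm] using hij2
    rw [sum_sub_distrib, sum_const, card_erase_of_mem (mem_univ _), card_univ,
      Fintype.card_fin] at h1
    have e3 : ((n - 1 : ℕ) : ℤ) = n - 1 := by omega
    rw [nsmul_eq_mul, e3] at h1
    linarith
  have hrow := D.row_ineq h hab i₀ e u (fun j hj => hw i₀ j (Ne.symm hj)) (hsum i₀)
  have hrow' : (n : ℤ) * (u * (n - 1 - u)) ≤ ((n : ℤ) - 1) ^ 2 := by
    exact_mod_cast hrow
  have hsmall : u = 1 ∨ u = n - 2 := by
    by_contra hcon
    push Not at hcon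
    have h1 : 2 ≤ u := by omega
    have h2 : 2 ≤ (n : ℤ) - 1 - u := by omega
    have h3 : 2 * ((n : ℤ) - 3) ≤ u * (n - 1 - u) := by nlinarith
    have h4 : (5 : ℤ) ≤ n := by omega
    nlinarith
  have hn4 : Even n ∧ 4 ≤ n ∧ (e = 0 ∧ u = n - 2 ∨ e = 1 ∧ u = 1) := by
    rcases he01 with h0 | h0
    · rw [h0] at hu
      have hu' : u = 2 * d₀ := by rw [hu]; ring
      have h5 : u = n - 2 := by
        rcases hsmall with h5 | h5
        · omega
        · exact h5
      refine ⟨?_, by omega, Or.inl ⟨h0, h5⟩⟩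
      rw [Nat.even_iff]; omega
    · rw [h0] at hu
      have hu' : u = 2 * d₀ - n + 1 := by rw [hu]; ring
      have h5 : u = 1 := by
        rcases hsmall with h5 | h5
        · exact h5
        · omega
      refine ⟨?_, by omega, Or.inr ⟨h0, h5⟩⟩
      rw [Nat.even_iff]; omega
  obtain ⟨heven, h4, hcase⟩ := hn4
  refine ⟨heven, h4, ?_, ?_⟩
  · -- the partner structure
    obtain ⟨δ, hδ, hpart⟩ : ∃ δ : ℤ, (δ = 1 ∨ δ = -1) ∧
        ∀ i, ∃ j, j ≠ i ∧ D.w i j = 1 + δ ∧ ∀ k, k ≠ i → k ≠ j → D.w i k = 1 := by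
      rcases hcase with ⟨h0, h5⟩ | ⟨h0, h5⟩
      · refine ⟨-1, Or.inr rfl, fun i => ?_⟩
        have h6 : ∑ j ∈ univ.erase i, (1 - D.w i j) = 1 := by
          have h7 := hsum i
          rw [h0, h5] at h7
          simp only [sub_zero] at h7
          rw [sum_sub_distrib, h7, sum_const, card_erase_of_mem (mem_univ _), card_univ,
            Fintype.card_fin]
          have e3 : ((n - 1 : ℕ) : ℤ) = n - 1 := by omega
          rw [nsmul_eq_mul, e3]; ring
        have hnn : ∀ j ∈ univ.erase i, 0 ≤ 1 - D.w i j := by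
          intro j hj
          have := hw i j (by simpa [eq_comm] using hj)
          omega
        obtain ⟨j, hj, hj0⟩ : ∃ j ∈ univ.erase i, 1 - D.w i j ≠ 0 := by
          by_contra hcon
          push Not at hcon
          rw [sum_eq_zero hcon] at h6
          exact zero_ne_one h6
        have hji : j ≠ i := by simpa using hj
        have hwj : D.w i j = 0 := by
          have := hw i j (Ne.symm hji)
          omega
        refine ⟨j, hji, by rw [hwj]; norm_num, fun k hki hkj => ?_⟩
        rw [← add_sum_erase _ _ hj, hwj] at h6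
        have h8 : ∑ x ∈ (univ.erase i).erase j, (1 - D.w i x) = 0 := by linarith
        have h9 := (sum_eq_zero_iff_of_nonneg fun x hx =>
          hnn x (mem_of_mem_erase hx)).1 h8 k (by simp [hki, hkj])
        linarith
      · refine ⟨1, Or.inl rfl, fun i => ?_⟩
        have h6 : ∑ j ∈ univ.erase i, (D.w i j - 1) = 1 := by
          have h7 := hsum i
          rw [h0, h5] at h7
          exact h7
        have hnn : ∀ j ∈ univ.erase i, 0 ≤ D.w i j - 1 := by
          intro j hj
          have := hw i j (by simpa [eq_comm] using hj)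
          omega
        obtain ⟨j, hj, hj0⟩ : ∃ j ∈ univ.erase i, D.w i j - 1 ≠ 0 := by
          by_contra hcon
          push Not at hcon
          rw [sum_eq_zero hcon] at h6
          exact zero_ne_one h6
        have hji : j ≠ i := by simpa using hj
        have hwj : D.w i j = 2 := by
          have := hw i j (Ne.symm hji)
          omega
        refine ⟨j, hji, by rw [hwj]; norm_num, fun k hki hkj => ?_⟩
        rw [← add_sum_erase _ _ hj, hwj] at h6
        have h8 : ∑ x ∈ (univ.erase i).erase j, (D.w i x - 1) = 0 := by linarith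
        have h9 := (sum_eq_zero_iff_of_nonneg fun x hx =>
          hnn x (mem_of_mem_erase hx)).1 h8 k (by simp [hki, hkj])
        linarith
    choose σ hσ1 hσ2 hσ3 using hpart
    have hδ0 : δ ≠ 0 := by rcases hδ with h | h <;> rw [h] <;> norm_num
    -- choose four vertices
    set i := i₀
    set i' := σ i with hi'
    obtain ⟨j, hj⟩ : ∃ j, j ∉ ({i, i'} : Finset (Fin n)) := by
      by_contra hcon
      push Not at hcon
      have h1 : (univ : Finset (Fin n)) ⊆ {i, i'} := fun x _ => hcon x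
      have h2 := card_le_card h1
      rw [card_univ, Fintype.card_fin] at h2
      have := h2.trans card_le_two
      omega
    simp only [mem_insert, mem_singleton, not_or] at hj
    obtain ⟨hji, hji'⟩ := hj
    set j' := σ j with hj'
    have hi'i : i' ≠ i := hσ1 i
    have hj'j : j' ≠ j := hσ1 j
    have wij : D.w i j = 1 := hσ3 i j hji hji'
    have hj'i : j' ≠ i := by
      intro h'
      have := hσ2 j
      rw [← hj', h', D.symm, wij] at this
      omega
    -- the partner of `i'` is `i`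
    have hσi' : σ i' = i := by
      by_contra hne
      have h1 := hσ3 i' i (Ne.symm hi'i) (fun h => hne h.symm)
      have h2 := hσ2 i
      rw [← hi', D.symm, h1] at h2
      omega
    have wi'j : D.w i' j = 1 := hσ3 i' j hji' (by rw [hσi']; exact hji)
    have hj'i' : j' ≠ i' := by
      intro h'
      have := hσ2 j
      rw [← hj', h', D.symm, wi'j] at this
      omega
    have wij' : D.w i j' = 1 := hσ3 i j' hj'i hj'i'
    have wi'j' : D.w i' j' = 1 := hσ3 i' j' hj'i' (by rw [hσi']; exact hj'i)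
    have wii' : D.w i i' = 1 + δ := hσ2 i
    have wjj' : D.w j j' = 1 + δ := hσ2 j
    -- first vector
    have hA := h _ (sum_pair i i')
    rw [D.q_pair i i' (Ne.symm hi'i), norm_pair i i' (Ne.symm hi'i), hd i, hd i', wii'] at hA
    -- second vector
    have hB := h ((Pi.single i 1 - Pi.single j 1) + (Pi.single i' 1 - Pi.single j' 1)) (by
      simp only [Pi.add_apply, sum_add_distrib]
      rw [sum_pair, sum_pair]; norm_num)
    have hBq : D.q ((Pi.single i 1 - Pi.single j 1) + (Pi.single i' 1 - Pi.single j' 1)) =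
        4 * d₀ + 2 - 2 * δ := by
      rw [D.q_add, D.q_pair i j (Ne.symm hji), D.q_pair i' j' (Ne.symm hj'i'), hd i, hd j, hd i',
        hd j', wij, wi'j']
      rw [mulVec_sub, sub_dotProduct, dotProduct_sub, dotProduct_sub]
      simp only [single_dotProduct, one_mul, mulVec_single_one, Matrix.col_apply]
      rw [D.S_off i i' (Ne.symm hi'i), D.S_off i j' (Ne.symm hj'i), D.S_off j i' hji',
        D.S_off j j' (Ne.symm hj'j), wii', wij', wjj', D.symm j i', wi'j]
      push_cast
      ring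
    have hBn : ((Pi.single i 1 - Pi.single j 1) + (Pi.single i' 1 - Pi.single j' 1) :
        Fin n → ℝ) ⬝ᵥ ((Pi.single i 1 - Pi.single j 1) + (Pi.single i' 1 - Pi.single j' 1)) =
        4 := by
      rw [add_dotProduct, dotProduct_add, dotProduct_add, norm_pair i j (Ne.symm hji),
        norm_pair i' j' (Ne.symm hj'i')]
      have e1 : (Pi.single i 1 - Pi.single j 1 : Fin n → ℝ) ⬝ᵥ
          (Pi.single i' 1 - Pi.single j' 1) = 0 := by
        rw [sub_dotProduct, dotProduct_sub, dotProduct_sub]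
        simp only [single_dotProduct, one_mul]
        rw [Pi.single_eq_of_ne (Ne.symm hi'i), Pi.single_eq_of_ne (Ne.symm hj'i),
          Pi.single_eq_of_ne hji', Pi.single_eq_of_ne (Ne.symm hj'j)]
        norm_num
      rw [e1, dotProduct_comm, e1]
      norm_num
    rw [hBq, hBn] at hB
    rcases hδ with h' | h'
    · rw [h'] at hA hB
      push_cast at hA hB
      linarith [hA.2, hB.1]
    · rw [h'] at hA hB
      push_cast at hA hB
      linarith [hA.1, hB.2]
  · rcases hcase with ⟨h0, h5⟩ | ⟨h0, h5⟩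
    · left
      intro i
      rw [hd i]
      rw [h0] at hu
      linarith
    · right
      intro i
      rw [hd i]
      rw [h0] at hu
      linarith

end Data

end core

section digraph

open Classical

variable {n : ℕ}

/-- The out-degree of a vertex. -/
noncomputable def outDeg (G : Digraph (Fin n)) (i : Fin n) : ℕ :=
  (univ.filter fun j => G.Adj i j).card

/-- The in-degree of a vertex. -/
noncomputable def inDeg (G : Digraph (Fin n)) (i : Fin n) : ℕ :=
  (univ.filter fun j => G.Adj j i).card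

/-- `G` has no loops and is balanced. -/
structure IsBalanced (G : Digraph (Fin n)) : Prop where
  loopless : ∀ i, ¬ G.Adj i i
  balanced : ∀ i, outDeg G i = inDeg G i

/-- The Laplacian matrix `D - A` of `G`. -/
noncomputable def lap (G : Digraph (Fin n)) : Matrix (Fin n) (Fin n) ℝ :=
  Matrix.diagonal (fun i => (outDeg G i : ℝ)) - Matrix.of fun i j => if G.Adj i j then 1 else 0

/-- The values `xᵀ L x` at the real unit vectors `x` orthogonal to the all-one vector. -/
def values (G : Digraph (Fin n)) : Set ℝ :=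
  {t | ∃ x : Fin n → ℝ, ∑ i, x i = 0 ∧ ∑ i, x i ^ 2 = 1 ∧ x ⬝ᵥ (lap G *ᵥ x) = t}

/-- `α(Γ)`. -/
noncomputable def alpha (G : Digraph (Fin n)) : ℝ := sInf (values G)

/-- `β(Γ)`. -/
noncomputable def beta (G : Digraph (Fin n)) : ℝ := sSup (values G)

/-- The Laplacian spread. -/
noncomputable def sp (G : Digraph (Fin n)) : ℝ := beta G - alpha G

/-- The arc indicator. -/
noncomputable def arc (G : Digraph (Fin n)) (i j : Fin n) : ℤ := if G.Adj i j then 1 else 0

/-- The weighted graph of a balanced digraph. -/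
noncomputable def toData (G : Digraph (Fin n)) (hG : IsBalanced G) : Data n where
  w i j := arc G i j + arc G j i
  d i := outDeg G i
  symm i j := add_comm _ _
  diag i := by unfold arc; simp [hG.loopless i]
  nonneg i j := by unfold arc; split_ifs <;> norm_num
  le_two i j := by unfold arc; split_ifs <;> norm_num
  sum i := by
    have h := hG.balanced i
    rw [sum_add_distrib]
    unfold arc
    rw [sum_boole, sum_boole]
    have h1 : (univ.filter fun j => G.Adj i j).card = outDeg G i := rfl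
    have h2 : (univ.filter fun j => G.Adj j i).card = inDeg G i := rfl
    rw [h1, h2, ← h]
    ring

lemma quad_eq (G : Digraph (Fin n)) (hG : IsBalanced G) (x : Fin n → ℝ) :
    x ⬝ᵥ (lap G *ᵥ x) = (toData G hG).q x := by
  unfold Data.q
  have e1 : x ⬝ᵥ (lap G *ᵥ x) = ∑ i, ∑ j, x i * ((lap G i j) * x j) := by
    simp only [dotProduct, mulVec, mul_sum]
  have e2 : x ⬝ᵥ ((toData G hG).S *ᵥ x) = ∑ i, ∑ j, x i * (((toData G hG).S i j) * x j) := by
    simp only [dotProduct, mulVec, mul_sum]
  have e3 : ∑ i, ∑ j, x i * ((lap G i j) * x j) = ∑ i, ∑ j, x i * ((lap G j i) * x j) := by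
    rw [sum_comm]
    refine sum_congr rfl fun i _ => sum_congr rfl fun j _ => ?_
    ring
  have e4 : ∀ i j, (toData G hG).S i j = (lap G i j + lap G j i) / 2 := by
    intro i j
    unfold Data.S lap toData arc
    simp only [Matrix.of_apply, Matrix.sub_apply, Matrix.diagonal_apply]
    by_cases h : i = j
    · subst h
      simp [hG.loopless i]
    · simp only [if_neg h, if_neg (Ne.symm h)]
      push_cast
      ring
  rw [e1, e2]
  have e5 : ∑ i, ∑ j, x i * (((toData G hG).S i j) * x j) =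
      (∑ i, ∑ j, x i * ((lap G i j) * x j) + ∑ i, ∑ j, x i * ((lap G j i) * x j)) / 2 := by
    rw [← sum_add_distrib, sum_div]
    refine sum_congr rfl fun i _ => ?_
    rw [← sum_add_distrib, sum_div]
    refine sum_congr rfl fun j _ => ?_
    rw [e4]; ring
  rw [e5, ← e3]; ring

lemma values_bdd (G : Digraph (Fin n)) : BddBelow (values G) ∧ BddAbove (values G) := by
  have key : ∀ t ∈ values G, |t| ≤ ∑ i, ∑ j, |lap G i j| := by
    rintro t ⟨x, -, hx, rfl⟩
    have hle : ∀ i, |x i| ≤ 1 := by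
      intro i
      have h1 : x i ^ 2 ≤ ∑ k, x k ^ 2 :=
        single_le_sum (f := fun k => x k ^ 2) (fun k _ => sq_nonneg _) (mem_univ i)
      rw [hx] at h1
      exact (sq_le_one_iff_abs_le_one _).1 h1
    have e1 : x ⬝ᵥ (lap G *ᵥ x) = ∑ i, ∑ j, x i * ((lap G i j) * x j) := by
      simp only [dotProduct, mulVec, mul_sum]
    rw [e1]
    refine (abs_sum_le_sum_abs _ _).trans (sum_le_sum fun i _ => ?_)
    refine (abs_sum_le_sum_abs _ _).trans (sum_le_sum fun j _ => ?_)
    rw [abs_mul, abs_mul]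
    have h1 := hle i
    have h2 := hle j
    have h3 := abs_nonneg (lap G i j)
    have h4 : |lap G i j| * |x j| ≤ |lap G i j| := mul_le_of_le_one_right h3 h2
    have h5 : 0 ≤ |lap G i j| * |x j| := mul_nonneg h3 (abs_nonneg _)
    calc |x i| * (|lap G i j| * |x j|) ≤ 1 * (|lap G i j| * |x j|) :=
          mul_le_mul_of_nonneg_right h1 h5
      _ ≤ |lap G i j| := by rw [one_mul]; exact h4
  constructor
  · exact ⟨-∑ i, ∑ j, |lap G i j|, fun t ht => (abs_le.1 (key t ht)).1⟩
  · exact ⟨∑ i, ∑ j, |lap G i j|, fun t ht => (abs_le.1 (key t ht)).2⟩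

lemma between (G : Digraph (Fin n)) (hG : IsBalanced G) :
    (toData G hG).Between (alpha G) (beta G) := by
  intro x hx
  by_cases h0 : x ⬝ᵥ x = 0
  · have hx0 : x = 0 := dotProduct_self_eq_zero.1 h0
    subst hx0
    simp [Data.q]
  · have hpos : 0 < x ⬝ᵥ x := by
      refine lt_of_le_of_ne ?_ (Ne.symm h0)
      simp only [dotProduct]
      exact sum_nonneg fun k _ => mul_self_nonneg _
    set s := Real.sqrt (x ⬝ᵥ x) with hs
    have hspos : 0 < s := Real.sqrt_pos.2 hpos
    have hss : s * s = x ⬝ᵥ x := Real.mul_self_sqrt hpos.le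
    have hmem : (toData G hG).q (s⁻¹ • x) ∈ values G := by
      refine ⟨s⁻¹ • x, ?_, ?_, quad_eq G hG _⟩
      · simp only [Pi.smul_apply, smul_eq_mul, ← mul_sum, hx, mul_zero]
      · simp only [Pi.smul_apply, smul_eq_mul, mul_pow, ← mul_sum]
        have : ∑ i, x i ^ 2 = x ⬝ᵥ x := by
          simp only [dotProduct]
          exact sum_congr rfl fun i _ => by ring
        rw [this, ← hss]
        field_simp
    have hval : (toData G hG).q (s⁻¹ • x) = (toData G hG).q x / (x ⬝ᵥ x) := by
      unfold Data.q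
      rw [mulVec_smul, smul_dotProduct, dotProduct_smul, smul_eq_mul, smul_eq_mul, ← hss]
      field_simp
    rw [hval] at hmem
    obtain ⟨hb1, hb2⟩ := values_bdd G
    have h1 : alpha G ≤ (toData G hG).q x / (x ⬝ᵥ x) := csInf_le hb1 hmem
    have h2 : (toData G hG).q x / (x ⬝ᵥ x) ≤ beta G := le_csSup hb2 hmem
    rw [le_div_iff₀ hpos] at h1
    rw [div_le_iff₀ hpos] at h2
    exact ⟨h1, h2⟩

lemma values_nonempty (G : Digraph (Fin n)) (hn : 2 ≤ n) : (values G).Nonempty := by
  set i : Fin n := ⟨0, by omega⟩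
  set j : Fin n := ⟨1, by omega⟩
  have hij : i ≠ j := by
    intro h
    have := congrArg Fin.val h
    simp [i, j] at this
  have hs2 : Real.sqrt 2 ^ 2 = 2 := Real.sq_sqrt (by norm_num)
  have hs : Real.sqrt 2 ≠ 0 := by positivity
  refine ⟨_, (Real.sqrt 2)⁻¹ • (Pi.single i 1 - Pi.single j 1), ?_, ?_, rfl⟩
  · simp only [Pi.smul_apply, smul_eq_mul, ← mul_sum]
    rw [Data.sum_pair, mul_zero]
  · simp only [Pi.smul_apply, smul_eq_mul, mul_pow, ← mul_sum]
    have h2 := Data.norm_pair i j hij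
    have e1 : ∑ k, (Pi.single i 1 - Pi.single j 1 : Fin n → ℝ) k ^ 2 = 2 := by
      rw [← h2]
      simp only [dotProduct]
      exact sum_congr rfl fun k _ => by ring
    rw [e1, inv_pow, hs2]
    norm_num

/-- If all weights at pairs are equal, the spread is zero. -/
lemma sp_zero (G : Digraph (Fin n)) (hG : IsBalanced G) (hn : 2 ≤ n) (w₀ : ℤ)
    (hw : ∀ i j, i ≠ j → (toData G hG).w i j = w₀) : sp G = 0 := by
  set D := toData G hG with hD
  have hd : ∀ i, 2 * D.d i = ((n : ℤ) - 1) * w₀ := by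
    intro i
    rw [← D.sum i, ← add_sum_erase univ _ (mem_univ i), D.diag, zero_add,
      sum_congr rfl fun j hj => hw i j (by simpa [eq_comm] using hj), sum_const,
      card_erase_of_mem (mem_univ _), card_univ, Fintype.card_fin, nsmul_eq_mul]
    have e3 : ((n - 1 : ℕ) : ℤ) = n - 1 := by omega
    rw [e3]
  have hq : ∀ t ∈ values G, t = (n : ℝ) * w₀ / 2 := by
    rintro t ⟨x, hx, hx1, rfl⟩
    rw [quad_eq G hG, ← hD]
    unfold Data.q
    have e1 : ∀ i, (D.S *ᵥ x) i = (n : ℝ) * w₀ / 2 * x i := by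
      intro i
      have e2 : (D.S *ᵥ x) i = ∑ j, D.S i j * x j := rfl
      rw [e2, ← add_sum_erase univ _ (mem_univ i), D.S_diag]
      have e3 : ∑ j ∈ univ.erase i, D.S i j * x j = ∑ j ∈ univ.erase i, (-(w₀ : ℝ) / 2) * x j := by
        refine sum_congr rfl fun j hj => ?_
        have hij : i ≠ j := by simpa [eq_comm] using hj
        rw [D.S_off i j hij, hw i j hij]
      rw [e3, ← mul_sum]
      have e4 : ∑ j ∈ univ.erase i, x j = - x i := by
        have := add_sum_erase univ x (mem_univ i)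
        rw [hx] at this
        linarith
      rw [e4]
      have h1 := hd i
      have h2 : 2 * (D.d i : ℝ) = ((n : ℝ) - 1) * w₀ := by exact_mod_cast h1
      have h3 : (D.d i : ℝ) = ((n : ℝ) - 1) * w₀ / 2 := by linarith
      rw [h3]; ring
    simp only [dotProduct, e1]
    have e5 : ∑ i, x i * ((n : ℝ) * w₀ / 2 * x i) = (n : ℝ) * w₀ / 2 * ∑ i, x i ^ 2 := by
      rw [mul_sum]
      exact sum_congr rfl fun i _ => by ring
    rw [e5, hx1, mul_one]
  have hset : values G = {(n : ℝ) * w₀ / 2} :=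
    Set.eq_singleton_iff_nonempty_unique_mem.2 ⟨values_nonempty G hn, hq⟩
  unfold sp alpha beta
  rw [hset, csInf_singleton, csSup_singleton, sub_self]

/-- The dichotomy for balanced digraphs. -/
theorem dichotomy (G : Digraph (Fin n)) (hG : IsBalanced G) (hn : 2 ≤ n) (hsp : sp G ≤ 1) :
    sp G = 0 ∨ (Even n ∧ 4 ≤ n ∧ 1 ≤ sp G ∧
      ((∀ i, 2 * (outDeg G i : ℤ) = n - 2) ∨ (∀ i, 2 * (outDeg G i : ℤ) = n))) := by
  rcases (toData G hG).main (between G hG) hsp hn with ⟨w₀, hw⟩ | h
  · exact Or.inl (sp_zero G hG hn w₀ hw)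
  · exact Or.inr h

end digraph

end Pool.Agent.X18.Spread
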