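import Mathlib

/-!
# Non-commuting sets in the group of unitriangular `4 × 4` matrices
-/

set_option autoImplicit false

open Finset

namespace Pool.Agent.X18.UniTri

section geometry

variable {F : Type*} [Field F] [Fintype F] [DecidableEq F]

/-- The symplectic form; a vector is `(a, c, d, e)`. -/
def B (x y : Fin 4 → F) : F := x 0 * y 3 - y 0 * x 3 + x 2 * y 1 - y 2 * x 1

omit [Fintype F] [DecidableEq F] in
lemma B_swap (x y : Fin 4 → F) : B y x = - B x y := by unfold B; ring

/-- The set of transversal totally isotropic planes through `x`. -/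
def L (x : Fin 4 → F) : Finset (F × F × F) :=
  univ.filter fun p => p.1 * x 0 + p.2.1 * x 1 = x 2 ∧ p.2.2 * x 0 - p.1 * x 1 = x 3

lemma mem_L (x : Fin 4 → F) (p : F × F × F) :
    p ∈ L x ↔ p.1 * x 0 + p.2.1 * x 1 = x 2 ∧ p.2.2 * x 0 - p.1 * x 1 = x 3 := by
  simp [L]

lemma card_L (x : Fin 4 → F) (hx : x 0 ≠ 0 ∨ x 1 ≠ 0) : (L x).card = Fintype.card F := by
  by_cases h0 : x 0 = 0
  · have h1 : x 1 ≠ 0 := hx.resolve_left (fun h => h h0)
    have : L x = univ.image fun g : F => ((-(x 3 / x 1), x 2 / x 1, g) : F × F × F) := by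
      ext ⟨p, q, r⟩
      simp only [mem_L, mem_image, mem_univ, true_and, Prod.mk.injEq, h0, mul_zero, zero_add,
        zero_sub]
      constructor
      · rintro ⟨h2, h3⟩
        refine ⟨r, ?_, ?_, rfl⟩
        · rw [← h3, neg_div, neg_neg, mul_div_assoc, div_self h1, mul_one]
        · rw [← h2, mul_div_assoc, div_self h1, mul_one]
      · rintro ⟨_, h2, h3, -⟩
        rw [← h2, ← h3]
        constructor
        · field_simp
        · field_simp
    rw [this, card_image_of_injective, card_univ]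
    intro g g' h
    simpa using h
  · have : L x = univ.image fun g : F =>
        (((x 2 - g * x 1) / x 0, g, (x 3 + (x 2 - g * x 1) / x 0 * x 1) / x 0) : F × F × F) := by
      ext ⟨p, q, r⟩
      simp only [mem_L, mem_image, mem_univ, true_and, Prod.mk.injEq]
      constructor
      · rintro ⟨h2, h3⟩
        have h4 : (x 2 - q * x 1) / x 0 = p := by
          rw [← h2, add_sub_cancel_right, mul_div_assoc, div_self h0, mul_one]
        refine ⟨q, h4, rfl, ?_⟩
        rw [h4, ← h3, sub_add_cancel, mul_div_assoc, div_self h0, mul_one]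
      · rintro ⟨g, h2, h3, h4⟩
        rw [← h4, ← h3, ← h2]
        constructor
        · field_simp; ring
        · field_simp; ring
    rw [this, card_image_of_injective, card_univ]
    intro g g' h
    simp only [Prod.mk.injEq] at h
    exact h.2.1

lemma B_eq_zero_of_mem (x y : Fin 4 → F) (p : F × F × F) (hx : p ∈ L x) (hy : p ∈ L y) :
    B x y = 0 := by
  rw [mem_L] at hx hy
  unfold B
  linear_combination (-y 1) * hx.1 + x 1 * hy.1 + y 0 * hx.2 - x 0 * hy.2

/-- `N` is a set of vectors off the line `a = c = 0`, pairwise not orthogonal. -/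
def Good (N : Finset (Fin 4 → F)) : Prop :=
  (∀ x ∈ N, x 0 ≠ 0 ∨ x 1 ≠ 0) ∧ ∀ x ∈ N, ∀ y ∈ N, x ≠ y → B x y ≠ 0

lemma card_biUnion_L (N : Finset (Fin 4 → F)) (hN : Good N) :
    (N.biUnion L).card = N.card * Fintype.card F := by
  rw [card_biUnion]
  · rw [sum_congr rfl fun x hx => card_L x (hN.1 x hx), sum_const, smul_eq_mul]
  · intro x hx y hy hxy
    rw [Function.onFun, disjoint_left]
    intro p hpx hpy
    exact hN.2 x hx y hy hxy (B_eq_zero_of_mem x y p hpx hpy)

lemma card_le (N : Finset (Fin 4 → F)) (hN : Good N) : N.card ≤ Fintype.card F ^ 2 := by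
  have h1 := card_le_univ (N.biUnion L)
  rw [card_biUnion_L N hN] at h1
  simp only [Fintype.card_prod] at h1
  have h2 : 0 < Fintype.card F := Fintype.card_pos
  have h3 : N.card * Fintype.card F ≤ Fintype.card F ^ 2 * Fintype.card F := by
    calc _ ≤ _ := h1
      _ = _ := by ring
  exact Nat.le_of_mul_le_mul_right h3 h2

lemma cover (N : Finset (Fin 4 → F)) (hN : Good N) (hc : N.card = Fintype.card F ^ 2)
    (p : F × F × F) : ∃ s ∈ N, p ∈ L s := by
  have h1 : N.biUnion L = univ := by
    apply eq_univ_of_card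
    rw [card_biUnion_L N hN, hc]
    simp only [Fintype.card_prod]
    ring
  have : p ∈ N.biUnion L := by rw [h1]; exact mem_univ _
  simpa using this

/-- The number of elements of `N`, in other classes, orthogonal to a vector outside `N`. -/
lemma count_perp (N : Finset (Fin 4 → F)) (hN : Good N) (hc : N.card = Fintype.card F ^ 2)
    (x : Fin 4 → F) (hx : x 0 ≠ 0 ∨ x 1 ≠ 0)
    (hxN : ∀ s ∈ N, x 0 * s 1 - x 1 * s 0 = 0 → B s x = 0 → (L s ∩ L x) = ∅) :
    (N.filter fun s => x 0 * s 1 - x 1 * s 0 ≠ 0 ∧ B s x = 0).card = Fintype.card F := by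
  rw [← card_L x hx]
  symm
  have hex : ∀ p : F × F × F, ∃ s ∈ N, p ∈ L s := cover N hN hc
  choose f hf using hex
  have huniq : ∀ p, ∀ s ∈ N, p ∈ L s → s = f p := by
    intro p s hs hps
    by_contra hne
    exact hN.2 s hs (f p) (hf p).1 hne (B_eq_zero_of_mem _ _ p hps (hf p).2)
  refine card_bij (fun p _ => f p) ?_ ?_ ?_
  · intro p hp
    have hB : B (f p) x = 0 := B_eq_zero_of_mem _ _ p (hf p).2 hp
    rw [mem_filter]
    refine ⟨(hf p).1, fun h => ?_, hB⟩
    have := hxN _ (hf p).1 h hB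
    have hmem : p ∈ L (f p) ∩ L x := mem_inter.2 ⟨(hf p).2, hp⟩
    rw [this] at hmem
    simp at hmem
  · intro p hp p' hp' heq
    have hB : B (f p) x = 0 := B_eq_zero_of_mem _ _ p (hf p).2 hp
    have hD : x 0 * f p 1 - x 1 * f p 0 ≠ 0 := by
      intro h
      have := hxN _ (hf p).1 h hB
      have hmem : p ∈ L (f p) ∩ L x := mem_inter.2 ⟨(hf p).2, hp⟩
      rw [this] at hmem
      simp at hmem
    have h1 := (mem_L _ _).1 hp
    have h2 := (mem_L _ _).1 hp'
    have h3 := (mem_L _ _).1 (hf p).2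
    have h4 := (mem_L _ _).1 (hf p').2
    rw [← heq] at h4
    set s := f p with hs
    -- three unknowns
    have e1 : (x 0 * s 1 - x 1 * s 0) * (p.1 - p'.1) = 0 := by
      linear_combination s 1 * (h1.1 - h2.1) - x 1 * (h3.1 - h4.1)
    have e2 : (x 0 * s 1 - x 1 * s 0) * (p.2.1 - p'.2.1) = 0 := by
      linear_combination x 0 * (h3.1 - h4.1) - s 0 * (h1.1 - h2.1)
    have e3 : (x 0 * s 1 - x 1 * s 0) * (p.2.2 - p'.2.2) = 0 := by
      linear_combination s 1 * (h1.2 - h2.2) - x 1 * (h3.2 - h4.2)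
    have f1 := sub_eq_zero.1 ((mul_eq_zero.1 e1).resolve_left hD)
    have f2 := sub_eq_zero.1 ((mul_eq_zero.1 e2).resolve_left hD)
    have f3 := sub_eq_zero.1 ((mul_eq_zero.1 e3).resolve_left hD)
    exact Prod.ext f1 (Prod.ext f2 f3)
  · intro s hs
    rw [mem_filter] at hs
    obtain ⟨hsN, hD, hB⟩ := hs
    set D := x 0 * s 1 - x 1 * s 0 with hDdef
    unfold B at hB
    have hpx : ((x 2 * s 1 - s 2 * x 1) / D, (x 0 * s 2 - s 0 * x 2) / D,
        (x 3 * s 1 - s 3 * x 1) / D) ∈ L x := by
      rw [mem_L]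
      simp only
      constructor
      · field_simp
        rw [hDdef]; ring
      · field_simp
        rw [hDdef]
        linear_combination (x 1) * hB
    have hps : ((x 2 * s 1 - s 2 * x 1) / D, (x 0 * s 2 - s 0 * x 2) / D,
        (x 3 * s 1 - s 3 * x 1) / D) ∈ L s := by
      rw [mem_L]
      simp only
      constructor
      · field_simp
        rw [hDdef]; ring
      · field_simp
        rw [hDdef]
        linear_combination (s 1) * hB
    exact ⟨_, hpx, (huniq _ s hsN hps).symm⟩

/-- Every level of a nonempty class is attained. -/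
lemma level (N : Finset (Fin 4 → F)) (hN : Good N) (hc : N.card = Fintype.card F ^ 2)
    (hne : ∃ s ∈ N, s 1 = 0) (k : F) : ∃ s ∈ N, s 1 = 0 ∧ s 3 = k * s 0 := by
  by_contra hno
  push Not at hno
  have hcount : ∀ r : F, (N.filter fun s => s 1 ≠ 0 ∧ k * s 0 - s 3 - r * s 1 = 0).card =
      Fintype.card F := by
    intro r
    have h := count_perp N hN hc ![1, 0, r, k] (by simp) (by
      intro s hs h1 h2
      exfalso
      simp only [Matrix.cons_val_zero, Matrix.cons_val_one, one_mul, zero_mul, sub_zero] at h1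
      refine hno s hs h1 ?_
      simp only [B, Matrix.cons_val_zero, Matrix.cons_val_one, Matrix.cons_val, h1] at h2
      linear_combination -h2)
    rw [← h]
    congr 1
    ext s
    simp only [mem_filter, B, Matrix.cons_val_zero, Matrix.cons_val_one, Matrix.cons_val, one_mul,
      zero_mul, mul_zero, sub_zero, add_zero, mul_comm k]
  have hsum : ∑ r : F, (N.filter fun s => s 1 ≠ 0 ∧ k * s 0 - s 3 - r * s 1 = 0).card =
      (N.filter fun s => s 1 ≠ 0).card := by
    simp only [card_filter]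
    rw [sum_comm]
    refine sum_congr rfl fun s _ => ?_
    by_cases h1 : s 1 = 0
    · simp [h1]
    · have : ∀ r, (s 1 ≠ 0 ∧ k * s 0 - s 3 - r * s 1 = 0) ↔ r = (k * s 0 - s 3) / s 1 := by
        intro r
        rw [eq_div_iff h1]
        constructor
        · rintro ⟨-, h⟩; linear_combination -h
        · intro h; exact ⟨h1, by linear_combination -h⟩
      simp only [this]
      simp [h1]
  simp only [hcount, sum_const, card_univ, smul_eq_mul] at hsum
  have h2 : (N.filter fun s => s 1 ≠ 0) = N := by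
    apply eq_of_subset_of_card_le (filter_subset _ _)
    rw [← hsum, hc, sq]
  obtain ⟨s, hs, h0⟩ := hne
  rw [← h2, mem_filter] at hs
  exact hs.2 h0

lemma s0_ne (N : Finset (Fin 4 → F)) (hN : Good N) (s : Fin 4 → F) (hs : s ∈ N) (h : s 1 = 0) :
    s 0 ≠ 0 := (hN.1 s hs).resolve_right fun h' => h' h

lemma level_inj (N : Finset (Fin 4 → F)) (hN : Good N) (s t : Fin 4 → F) (hs : s ∈ N)
    (ht : t ∈ N) (hs1 : s 1 = 0) (ht1 : t 1 = 0) (h : s 3 / s 0 = t 3 / t 0) : s = t := by
  by_contra hne
  apply hN.2 s hs t ht hne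
  rw [div_eq_div_iff (s0_ne N hN s hs hs1) (s0_ne N hN t ht ht1)] at h
  unfold B
  rw [hs1, ht1]
  linear_combination -h

lemma class_le (N : Finset (Fin 4 → F)) (hN : Good N) :
    (N.filter fun s => s 1 = 0).card ≤ Fintype.card F := by
  rw [← card_univ (α := F)]
  refine card_le_card_of_injOn (fun s => s 3 / s 0) (fun s _ => mem_univ _) ?_
  intro s hs t ht h
  simp only [coe_filter, Set.mem_ofPred_eq] at hs ht
  exact level_inj N hN s t hs.1 ht.1 hs.2 ht.2 h

lemma class_card (N : Finset (Fin 4 → F)) (hN : Good N) (hc : N.card = Fintype.card F ^ 2)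
    (hne : ∃ s ∈ N, s 1 = 0) : (N.filter fun s => s 1 = 0).card = Fintype.card F := by
  rw [← card_univ (α := F)]
  refine card_bij (fun s _ => s 3 / s 0) (fun s _ => mem_univ _) ?_ ?_
  · intro s hs t ht h
    rw [mem_filter] at hs ht
    exact level_inj N hN s t hs.1 ht.1 hs.2 ht.2 h
  · intro k _
    obtain ⟨s, hs, h1, h3⟩ := level N hN hc hne k
    refine ⟨s, mem_filter.2 ⟨hs, h1⟩, ?_⟩
    rw [h3, mul_div_assoc, div_self (s0_ne N hN s hs h1), mul_one]

/-- Change of basis. -/
def T (a0 c0 a1 c1 : F) (x : Fin 4 → F) : Fin 4 → F :=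
  ![x 0 * c1 - x 1 * a1, a0 * x 1 - c0 * x 0, x 2 * c1 - x 3 * a1, a0 * x 3 - c0 * x 2]

omit [Fintype F] [DecidableEq F] in
lemma T_B (a0 c0 a1 c1 : F) (x y : Fin 4 → F) :
    B (T a0 c0 a1 c1 x) (T a0 c0 a1 c1 y) = (a0 * c1 - a1 * c0) * B x y := by
  simp only [B, T, Matrix.cons_val_zero, Matrix.cons_val_one, Matrix.cons_val]
  ring

omit [Fintype F] [DecidableEq F] in
lemma T_inj (a0 c0 a1 c1 : F) (hD : a0 * c1 - a1 * c0 ≠ 0) :
    Function.Injective (T a0 c0 a1 c1) := by
  intro x y h
  have h0 := congrFun h 0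
  have h1 := congrFun h 1
  have h2 := congrFun h 2
  have h3 := congrFun h 3
  simp only [T, Matrix.cons_val_zero, Matrix.cons_val_one, Matrix.cons_val] at h0 h1 h2 h3
  have e0 : (a0 * c1 - a1 * c0) * (x 0 - y 0) = 0 := by linear_combination a0 * h0 + a1 * h1
  have e1 : (a0 * c1 - a1 * c0) * (x 1 - y 1) = 0 := by linear_combination c0 * h0 + c1 * h1
  have e2 : (a0 * c1 - a1 * c0) * (x 2 - y 2) = 0 := by linear_combination a0 * h2 + a1 * h3
  have e3 : (a0 * c1 - a1 * c0) * (x 3 - y 3) = 0 := by linear_combination c0 * h2 + c1 * h3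
  have f0 := sub_eq_zero.1 ((mul_eq_zero.1 e0).resolve_left hD)
  have f1 := sub_eq_zero.1 ((mul_eq_zero.1 e1).resolve_left hD)
  have f2 := sub_eq_zero.1 ((mul_eq_zero.1 e2).resolve_left hD)
  have f3 := sub_eq_zero.1 ((mul_eq_zero.1 e3).resolve_left hD)
  funext i
  fin_cases i
  · exact f0
  · exact f1
  · exact f2
  · exact f3

lemma T_good (a0 c0 a1 c1 : F) (hD : a0 * c1 - a1 * c0 ≠ 0) (N : Finset (Fin 4 → F))
    (hN : Good N) : Good (N.image (T a0 c0 a1 c1)) := by
  constructor
  · intro x hx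
    obtain ⟨s, hs, rfl⟩ := mem_image.1 hx
    by_contra hcon
    push Not at hcon
    simp only [T, Matrix.cons_val_zero, Matrix.cons_val_one] at hcon
    obtain ⟨h0, h1⟩ := hcon
    have e0 : (a0 * c1 - a1 * c0) * s 0 = 0 := by linear_combination a0 * h0 + a1 * h1
    have e1 : (a0 * c1 - a1 * c0) * s 1 = 0 := by linear_combination c0 * h0 + c1 * h1
    rcases hN.1 s hs with h | h
    · exact h ((mul_eq_zero.1 e0).resolve_left hD)
    · exact h ((mul_eq_zero.1 e1).resolve_left hD)
  · intro x hx y hy hxy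
    obtain ⟨s, hs, rfl⟩ := mem_image.1 hx
    obtain ⟨t, ht, rfl⟩ := mem_image.1 hy
    rw [T_B]
    exact mul_ne_zero hD (hN.2 s hs t ht fun h => hxy (by rw [h]))

lemma T_card (a0 c0 a1 c1 : F) (hD : a0 * c1 - a1 * c0 ≠ 0) (N : Finset (Fin 4 → F)) :
    (N.image (T a0 c0 a1 c1)).card = N.card :=
  card_image_of_injective _ (T_inj a0 c0 a1 c1 hD)

lemma class_card' (N : Finset (Fin 4 → F)) (hN : Good N) (hc : N.card = Fintype.card F ^ 2)
    (hne : ∃ s ∈ N, s 0 = 0) : (N.filter fun s => s 0 = 0).card = Fintype.card F := by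
  have hD : (0 : F) * 0 - 1 * 1 ≠ 0 := by simp
  have hG := T_good 0 1 1 0 hD N hN
  have hC := T_card 0 1 1 0 hD N
  obtain ⟨s, hs, hs0⟩ := hne
  have h := class_card _ hG (hC.trans hc) ⟨T 0 1 1 0 s, mem_image_of_mem _ hs, by simp [T, hs0]⟩
  rw [← h, filter_image, card_image_of_injective _ (T_inj 0 1 1 0 hD)]
  congr 1
  ext s
  simp [T]

/-- The parity argument. -/
lemma even_of_classes (N : Finset (Fin 4 → F)) (hN : Good N) (hc : N.card = Fintype.card F ^ 2)
    (h10 : ∃ s ∈ N, s 1 = 0) (h01 : ∃ s ∈ N, s 0 = 0) : Even (Fintype.card F) := by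
  have hn1 := class_card N hN hc h10
  have hn0 := class_card' N hN hc h01
  set q := Fintype.card F with hq
  have hqpos : 0 < q := Fintype.card_pos
  -- elements in other classes
  have hrest : (N.filter fun s => s 1 ≠ 0 ∧ s 0 ≠ 0).card + 2 * q = q ^ 2 := by
    have e1 : (N.filter fun s => s 1 ≠ 0 ∧ s 0 ≠ 0).card + (N.filter fun s => s 0 = 0).card =
        (N.filter fun s => s 1 ≠ 0).card := by
      rw [← card_filter_add_card_filter_not (s := N.filter fun s => s 1 ≠ 0) (fun s => s 0 = 0),
        filter_filter, filter_filter, add_comm]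
      congr 2
      ext s
      simp only [mem_filter]
      constructor
      · rintro ⟨hs, h⟩
        refine ⟨hs, ?_, h⟩
        rcases hN.1 s hs with h' | h'
        · exact absurd h h'
        · exact h'
      · rintro ⟨hs, -, h⟩
        exact ⟨hs, h⟩
    have e2 := card_filter_add_card_filter_not (s := N) (fun s => s 1 = 0)
    rw [hn0] at e1
    rw [hn1, hc] at e2
    simp only [ne_eq] at e1 e2 ⊢
    omega
  have hk : ∀ d : F, Even (N.filter fun s => s 1 = 0 ∧ s 2 = d * s 0).card := by
    intro d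
    by_cases hk0 : (N.filter fun s => s 1 = 0 ∧ s 2 = d * s 0).card = 0
    · rw [hk0]; exact Even.zero
    obtain ⟨t, ht⟩ := card_pos.1 (Nat.pos_of_ne_zero hk0)
    rw [mem_filter] at ht
    obtain ⟨htN, ht1, ht2⟩ := ht
    have ht0 := s0_ne N hN t htN ht1
    -- number of bad `r`
    set bad : Finset F := univ.filter fun r => ∃ s ∈ N, s 1 = 0 ∧ s 2 = d * s 0 ∧ s 3 = r * s 0
      with hbad
    have hbadcard : bad.card = (N.filter fun s => s 1 = 0 ∧ s 2 = d * s 0).card := by
      symm
      refine card_bij (fun s _ => s 3 / s 0) ?_ ?_ ?_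
      · intro s hs
        rw [mem_filter] at hs
        rw [hbad, mem_filter]
        refine ⟨mem_univ _, s, hs.1, hs.2.1, hs.2.2, ?_⟩
        rw [div_mul_cancel₀ _ (s0_ne N hN s hs.1 hs.2.1)]
      · intro s hs s' hs' h
        rw [mem_filter] at hs hs'
        exact level_inj N hN s s' hs.1 hs'.1 hs.2.1 hs'.2.1 h
      · intro r hr
        rw [hbad, mem_filter] at hr
        obtain ⟨-, s, hs, h1, h2, h3⟩ := hr
        refine ⟨s, mem_filter.2 ⟨hs, h1, h2⟩, ?_⟩
        rw [h3, mul_div_assoc, div_self (s0_ne N hN s hs h1), mul_one]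
    have hcr : ∀ r : F, (N.filter fun s => s 1 ≠ 0 ∧ s 0 * r - s 3 - d * s 1 = 0).card =
        if r ∈ bad then 0 else q := by
      intro r
      by_cases hr : r ∈ bad
      · rw [if_pos hr, card_eq_zero, filter_eq_empty_iff]
        rintro s hs ⟨h1, h2⟩
        rw [hbad, mem_filter] at hr
        obtain ⟨-, u, hu, hu1, hu2, hu3⟩ := hr
        have hne : s ≠ u := by
          rintro rfl
          exact h1 hu1
        apply hN.2 s hs u hu hne
        unfold B
        rw [hu1, hu2, hu3]
        linear_combination u 0 * h2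
      · rw [if_neg hr]
        have h := count_perp N hN hc ![1, 0, d, r] (by simp) (by
          intro s hs h1 h2
          simp only [Matrix.cons_val_zero, Matrix.cons_val_one, one_mul, zero_mul,
            sub_zero] at h1
          simp only [B, Matrix.cons_val_zero, Matrix.cons_val_one, Matrix.cons_val, h1] at h2
          rw [eq_empty_iff_forall_notMem]
          intro p hp
          rw [mem_inter, mem_L, mem_L] at hp
          simp only [Matrix.cons_val_zero, Matrix.cons_val_one, Matrix.cons_val] at hp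
          obtain ⟨⟨hp1, -⟩, hp2, -⟩ := hp
          apply hr
          rw [hbad, mem_filter]
          refine ⟨mem_univ _, s, hs, h1, ?_, ?_⟩
          · rw [h1] at hp1
            linear_combination s 0 * hp2 - hp1
          · linear_combination -h2)
        rw [hq, ← h]
        congr 1
        ext s
        simp only [mem_filter, B, Matrix.cons_val_zero, Matrix.cons_val_one, Matrix.cons_val,
          one_mul, zero_mul, mul_zero, sub_zero, add_zero]
    have hsum : ∑ r : F, (N.filter fun s => s 1 ≠ 0 ∧ s 0 * r - s 3 - d * s 1 = 0).card =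
        (N.filter fun s => s 1 ≠ 0 ∧ s 0 ≠ 0).card := by
      simp only [card_filter]
      rw [sum_comm]
      refine sum_congr rfl fun s hs => ?_
      by_cases h1 : s 1 = 0
      · simp [h1]
      · by_cases h0 : s 0 = 0
        · have hnz : ∀ r, ¬ (s 1 ≠ 0 ∧ s 0 * r - s 3 - d * s 1 = 0) := by
            rintro r ⟨-, h2⟩
            rw [h0, zero_mul] at h2
            have hne : s ≠ t := by
              rintro rfl
              exact h1 ht1
            apply hN.2 s hs t htN hne
            unfold B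
            rw [h0, ht1, ht2]
            linear_combination t 0 * h2
          simp only [hnz]
          simp [h0]
        · have : ∀ r, (s 1 ≠ 0 ∧ s 0 * r - s 3 - d * s 1 = 0) ↔ r = (s 3 + d * s 1) / s 0 := by
            intro r
            rw [eq_div_iff h0]
            constructor
            · rintro ⟨-, h⟩; linear_combination h
            · intro h; exact ⟨h1, by linear_combination h⟩
          simp only [this]
          simp [h1, h0]
    simp only [hcr] at hsum
    have h3 : ∑ r : F, (if r ∈ bad then 0 else q) = (q - bad.card) * q := by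
      have e1 : ∀ r : F, (if r ∈ bad then 0 else q) = if r ∈ badᶜ then q else 0 := by
        intro r
        by_cases h : r ∈ bad <;> simp [h]
      simp only [e1]
      rw [sum_ite_mem, univ_inter, sum_const, card_compl, smul_eq_mul]
    rw [h3] at hsum
    have hle : bad.card ≤ q := card_le_univ _
    rw [← hsum] at hrest
    have h4 : (q - bad.card + 2) * q = q * q := by
      rw [add_mul, hrest, sq]
    have h5 := Nat.eq_of_mul_eq_mul_right hqpos h4
    rw [← hbadcard]
    have : bad.card = 2 := by omega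
    rw [this]
    exact even_two
  -- sum up
  rw [← hn1]
  have hfib := card_eq_sum_card_fiberwise (s := N.filter fun s => s 1 = 0) (t := (univ : Finset F))
    (f := fun s => s 2 / s 0) (fun s _ => mem_univ _)
  rw [hfib]
  apply even_sum
  intro d _
  have : ((N.filter fun s => s 1 = 0).filter fun s => s 2 / s 0 = d) =
      N.filter fun s => s 1 = 0 ∧ s 2 = d * s 0 := by
    ext s
    simp only [mem_filter]
    constructor
    · rintro ⟨⟨hs, h1⟩, h2⟩
      exact ⟨hs, h1, (div_eq_iff (s0_ne N hN s hs h1)).1 h2⟩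
    · rintro ⟨hs, h1, h2⟩
      exact ⟨⟨hs, h1⟩, (div_eq_iff (s0_ne N hN s hs h1)).2 h2⟩
  rw [this]
  exact hk d

/-- If a good set has `q ^ 2` elements then `q` is even. -/
lemma even_of_card (N : Finset (Fin 4 → F)) (hN : Good N) (hc : N.card = Fintype.card F ^ 2) :
    Even (Fintype.card F) := by
  have hq1 : 1 < Fintype.card F := Fintype.one_lt_card
  have hpos : 0 < N.card := by rw [hc]; positivity
  obtain ⟨s, hs⟩ := card_pos.1 hpos
  -- an element in another class
  obtain ⟨t, ht, hst⟩ : ∃ t ∈ N, s 0 * t 1 - s 1 * t 0 ≠ 0 := by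
    by_contra hcon
    push Not at hcon
    obtain ⟨a1, c1, hD⟩ : ∃ a1 c1 : F, s 0 * c1 - a1 * s 1 ≠ 0 := by
      rcases hN.1 s hs with h | h
      · exact ⟨0, 1, by simpa using h⟩
      · exact ⟨1, 0, by simpa using h⟩
    have hle := class_le _ (T_good _ _ a1 c1 hD N hN)
    have : ((N.image (T (s 0) (s 1) a1 c1)).filter fun s => s 1 = 0) =
        N.image (T (s 0) (s 1) a1 c1) := by
      rw [filter_eq_self]
      intro x hx
      obtain ⟨u, hu, rfl⟩ := mem_image.1 hx
      simp only [T, Matrix.cons_val_one, Matrix.cons_val_zero]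
      exact hcon u hu
    rw [this, T_card _ _ _ _ hD, hc] at hle
    nlinarith
  have hD : s 0 * t 1 - t 0 * s 1 ≠ 0 := by
    intro h
    apply hst
    linear_combination h
  refine even_of_classes _ (T_good _ _ _ _ hD N hN) ((T_card _ _ _ _ hD N).trans hc) ?_ ?_
  · refine ⟨_, mem_image_of_mem _ hs, ?_⟩
    simp only [T, Matrix.cons_val_one, Matrix.cons_val_zero]
    ring
  · refine ⟨_, mem_image_of_mem _ ht, ?_⟩
    simp only [T, Matrix.cons_val_zero]
    ring

end geometry

section five

variable {F : Type*} [Field F] [Fintype F] [DecidableEq F]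

/-- Commutation in terms of the coordinates `(a, b, c, d, e)`. -/
def Comm (v w : Fin 5 → F) : Prop :=
  v 0 * w 1 = w 0 * v 1 ∧ v 1 * w 2 = w 1 * v 2 ∧ v 0 * w 4 + v 3 * w 2 = w 0 * v 4 + w 3 * v 2

omit [Fintype F] [DecidableEq F] in
lemma Comm.symm {v w : Fin 5 → F} (h : Comm v w) : Comm w v :=
  ⟨h.1.symm, h.2.1.symm, h.2.2.symm⟩

/-- Pairwise non-commuting sets of coordinate vectors. -/
def NC (Y : Finset (Fin 5 → F)) : Prop := ∀ v ∈ Y, ∀ w ∈ Y, v ≠ w → ¬ Comm v w

/-- Invariants of an element with `b ≠ 0`. -/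
def phi (v : Fin 5 → F) : F × F × F := (v 0 / v 1, v 2 / v 1, (v 0 * v 4 - v 2 * v 3) / v 1 ^ 2)

omit [Fintype F] [DecidableEq F] in
lemma comm_of_phi (v w : Fin 5 → F) (hv : v 1 ≠ 0) (hw : w 1 ≠ 0) (h : phi v = phi w) :
    Comm v w := by
  simp only [phi, Prod.mk.injEq] at h
  obtain ⟨h0, h1, h2⟩ := h
  rw [div_eq_div_iff hv hw] at h0 h1
  rw [div_eq_div_iff (pow_ne_zero 2 hv) (pow_ne_zero 2 hw)] at h2
  refine ⟨h0, by rw [mul_comm, ← h1, mul_comm], ?_⟩
  have h3 : (v 1 * w 1) * (v 0 * w 4 + v 3 * w 2 - (w 0 * v 4 + w 3 * v 2)) = 0 := by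
    linear_combination (v 1 * w 4 + w 1 * v 4) * h0 - (v 1 * w 3 + w 1 * v 3) * h1 - h2
  exact sub_eq_zero.1 ((mul_eq_zero.1 h3).resolve_left (mul_ne_zero hv hw))

/-- The excluded invariants. -/
def bad1 : Finset (F × F × F) := (univ.erase (0 : F)).image fun m => ((0, 0, m) : F × F × F)

lemma card_bad1 : (bad1 (F := F)).card = Fintype.card F - 1 := by
  unfold bad1
  rw [card_image_of_injective, card_erase_of_mem (mem_univ _), card_univ]
  intro m m' h
  simpa using h

lemma phi_not_bad (v : Fin 5 → F) (hv : v 1 ≠ 0) : phi v ∉ bad1 := by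
  unfold bad1 phi
  intro h
  simp only [mem_image, mem_erase, mem_univ, and_true, Prod.mk.injEq] at h
  obtain ⟨m, hm, h0, h1, h2⟩ := h
  have e0 : v 0 = 0 := by
    have := h0.symm
    rw [div_eq_zero_iff] at this
    exact this.resolve_right hv
  have e1 : v 2 = 0 := by
    have := h1.symm
    rw [div_eq_zero_iff] at this
    exact this.resolve_right hv
  rw [e0, e1] at h2
  apply hm
  rw [h2]
  simp

lemma card_univ3 : (univ : Finset (F × F × F)).card = Fintype.card F ^ 3 := by
  rw [card_univ]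
  simp only [Fintype.card_prod]
  ring

lemma upper_aux (Y : Finset (Fin 5 → F)) (hY : NC Y) :
    ∃ N : Finset (Fin 4 → F), Good N ∧
      (Y.card + Fintype.card F ≤ Fintype.card F ^ 3 + 1 + N.card ∨
        Y.card + Fintype.card F ≤ Fintype.card F ^ 3 + Fintype.card F ^ 2) := by
  set q := Fintype.card F with hq
  have hq1 : 2 ≤ q := Fintype.one_lt_card
  set Y1 := Y.filter fun v => v 1 ≠ 0 with hY1
  set Y2 := Y.filter fun v => v 1 = 0 ∧ (v 0 ≠ 0 ∨ v 2 ≠ 0) with hY2
  set Y3 := Y.filter fun v => v 1 = 0 ∧ ¬ (v 0 ≠ 0 ∨ v 2 ≠ 0) with hY3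
  have hcard : Y.card = Y1.card + Y2.card + Y3.card := by
    have e1 := card_filter_add_card_filter_not (s := Y) (fun v => v 1 = 0)
    have e2 := card_filter_add_card_filter_not (s := Y.filter fun v => v 1 = 0)
      (fun v => v 0 ≠ 0 ∨ v 2 ≠ 0)
    rw [filter_filter, filter_filter] at e2
    rw [hY1, hY2, hY3]
    simp only [ne_eq] at e1 e2 ⊢
    omega
  -- class one
  have hinj1 : Set.InjOn phi (Y1 : Set (Fin 5 → F)) := by
    intro v hv w hw h
    simp only [hY1, coe_filter, Set.mem_ofPred_eq] at hv hw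
    by_contra hne
    exact hY v hv.1 w hw.1 hne (comm_of_phi v w hv.2 hw.2 h)
  have hbd1 : ∀ bad : Finset (F × F × F), (∀ v ∈ Y1, phi v ∉ bad) →
      Y1.card + bad.card ≤ q ^ 3 := by
    intro bad hb
    have h1 : (Y1.image phi).card = Y1.card := card_image_of_injOn hinj1
    rw [← h1, ← card_univ3 (F := F), ← card_union_of_disjoint]
    · exact card_le_card (subset_univ _)
    · rw [disjoint_left]
      intro x hx
      obtain ⟨v, hv, rfl⟩ := mem_image.1 hx
      exact hb v hv
  -- class two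
  let g : (Fin 5 → F) → (Fin 4 → F) := fun v => ![v 0, v 2, v 3, v 4]
  have hinj2 : Set.InjOn g (Y2 : Set (Fin 5 → F)) := by
    intro v hv w hw h
    simp only [hY2, coe_filter, Set.mem_ofPred_eq] at hv hw
    have h0 := congrFun h 0
    have h1 := congrFun h 1
    have h2 := congrFun h 2
    have h3 := congrFun h 3
    simp only [g, Matrix.cons_val_zero, Matrix.cons_val_one, Matrix.cons_val] at h0 h1 h2 h3
    funext i
    fin_cases i
    · exact h0
    · simpa using hv.2.1.trans hw.2.1.symm
    · exact h1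
    · exact h2
    · exact h3
  have hgood : Good (Y2.image g) := by
    constructor
    · intro x hx
      obtain ⟨v, hv, rfl⟩ := mem_image.1 hx
      rw [hY2, mem_filter] at hv
      simpa [g] using hv.2.2
    · intro x hx y hy hxy
      obtain ⟨v, hv, rfl⟩ := mem_image.1 hx
      obtain ⟨w, hw, rfl⟩ := mem_image.1 hy
      rw [hY2, mem_filter] at hv hw
      intro hB
      refine hY v hv.1 w hw.1 (fun h => hxy (by rw [h])) ⟨?_, ?_, ?_⟩
      · rw [hv.2.1, hw.2.1]; ring
      · rw [hv.2.1, hw.2.1]; ring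
      · simp only [B, g, Matrix.cons_val_zero, Matrix.cons_val_one, Matrix.cons_val] at hB
        linear_combination hB
  have hN : (Y2.image g).card = Y2.card := card_image_of_injOn hinj2
  refine ⟨Y2.image g, hgood, ?_⟩
  rw [hN]
  by_cases h3 : Y3 = ∅
  · left
    have h1 := hbd1 bad1 (fun v hv => phi_not_bad v (by rw [hY1, mem_filter] at hv; exact hv.2))
    rw [card_bad1, ← hq] at h1
    rw [hcard, h3, card_empty]
    omega
  · right
    obtain ⟨y, hy⟩ := nonempty_of_ne_empty h3
    rw [hY3, mem_filter] at hy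
    obtain ⟨hyY, hy1, hy2⟩ := hy
    push Not at hy2
    obtain ⟨hy0, hy2⟩ := hy2
    -- when does `y` commute with `v`
    have hcom : ∀ v : Fin 5 → F, y 3 * v 2 = v 0 * y 4 → Comm y v := by
      intro v h
      refine ⟨?_, ?_, ?_⟩
      · rw [hy0, hy1]; ring
      · rw [hy1, hy2]; ring
      · rw [hy0, hy2]; linear_combination h
    by_cases hde : y 3 = 0 ∧ y 4 = 0
    · have hall : ∀ v ∈ Y, v = y := by
        intro v hv
        by_contra hne
        refine hY y hyY v hv (Ne.symm hne) (hcom v ?_)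
        rw [hde.1, hde.2]; ring
      have hle : Y.card ≤ 1 := card_le_one.2 fun a ha b hb => (hall a ha).trans (hall b hb).symm
      have : 1 + q ≤ q ^ 3 + q ^ 2 := by nlinarith [sq_nonneg q, pow_pos (show 0 < q by omega) 3]
      omega
    · have h3c : Y3.card ≤ 1 := by
        refine card_le_one.2 fun a ha b hb => ?_
        rw [hY3, mem_filter] at ha hb
        by_contra hne
        obtain ⟨haY, ha1, ha2⟩ := ha
        obtain ⟨hbY, hb1, hb2⟩ := hb
        push Not at ha2 hb2
        refine hY a haY b hbY hne ⟨?_, ?_, ?_⟩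
        · rw [ha1, hb1]; ring
        · rw [ha1, hb1]; ring
        · rw [ha2.1, ha2.2, hb2.1, hb2.2]; ring
      have h2c : Y2.card ≤ q ^ 2 := by rw [← hN]; exact card_le _ hgood
      have h1c := hbd1 (univ.image fun t : F × F => ((t.1 * y 3, t.1 * y 4, t.2) : F × F × F)) (by
        intro v hv hmem
        rw [hY1, mem_filter] at hv
        simp only [mem_image, mem_univ, true_and, phi, Prod.mk.injEq] at hmem
        obtain ⟨t, ht1, ht2, -⟩ := hmem
        have hne : y ≠ v := by
          rintro rfl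
          exact hv.2 hy1
        refine hY y hyY v hv.1 hne (hcom v ?_)
        have hv1 := hv.2
        rw [eq_div_iff hv1] at ht1 ht2
        rw [← ht1, ← ht2]
        ring)
      have himg : (univ.image fun t : F × F => ((t.1 * y 3, t.1 * y 4, t.2) : F × F × F)).card =
          q ^ 2 := by
        rw [card_image_of_injective, card_univ, Fintype.card_prod, sq]
        rintro ⟨t, m⟩ ⟨t', m'⟩ h
        simp only [Prod.mk.injEq] at h
        obtain ⟨h1, h2, h3⟩ := h
        refine Prod.ext ?_ h3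
        by_cases h : y 3 = 0
        · have : y 4 ≠ 0 := fun h' => hde ⟨h, h'⟩
          exact mul_right_cancel₀ this h2
        · exact mul_right_cancel₀ h h1
      rw [himg] at h1c
      have : 1 + q ≤ q ^ 2 := by nlinarith
      omega

lemma upper (Y : Finset (Fin 5 → F)) (hY : NC Y) :
    Y.card + Fintype.card F ≤ Fintype.card F ^ 3 + Fintype.card F ^ 2 + 1 := by
  obtain ⟨N, hN, h | h⟩ := upper_aux Y hY
  · have := card_le N hN
    omega
  · omega

lemma upper_odd (Y : Finset (Fin 5 → F)) (hY : NC Y) (hodd : ¬ Even (Fintype.card F)) :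
    Y.card + Fintype.card F ≤ Fintype.card F ^ 3 + Fintype.card F ^ 2 := by
  obtain ⟨N, hN, h | h⟩ := upper_aux Y hY
  · have h1 := card_le N hN
    have h2 : N.card ≠ Fintype.card F ^ 2 := fun h => hodd (even_of_card N hN h)
    omega
  · exact h

lemma exists_irreducible [CharP F 2] : ∃ β : F, ∀ t : F, t ^ 2 + t + β ≠ 0 := by
  have hns : ¬ Function.Surjective (fun t : F => t ^ 2 + t) := by
    intro hs
    have hi := Finite.injective_iff_surjective.2 hs
    have h01 : (0 : F) ^ 2 + 0 = 1 ^ 2 + 1 := by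
      rw [one_pow, CharTwo.add_self_eq_zero]; simp
    exact zero_ne_one (hi h01)
  rw [Function.Surjective] at hns
  push Not at hns
  obtain ⟨β, hβ⟩ := hns
  refine ⟨β, fun t h => hβ t ?_⟩
  have : t ^ 2 + t + β + β = β := by rw [h, zero_add]
  rw [add_assoc, CharTwo.add_self_eq_zero, add_zero] at this
  exact this

lemma lower [CharP F 2] : ∃ Y : Finset (Fin 5 → F), NC Y ∧
    Y.card + Fintype.card F = Fintype.card F ^ 3 + Fintype.card F ^ 2 + 1 := by
  obtain ⟨β, hβ⟩ := exists_irreducible (F := F)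
  let psi : F × F × F → (Fin 5 → F) := fun p =>
    ![p.1, 1, p.2.1, if p.1 = 0 then -(p.2.2 / p.2.1) else 0, if p.1 = 0 then 0 else p.2.2 / p.1]
  let chi : F × F → (Fin 5 → F) := fun p =>
    ![1, 0, p.1, p.2 + β * p.1, p.2 ^ 2 + p.1 * p.2 + β * p.1 ^ 2]
  have hpsi : ∀ p ∉ bad1 (F := F), p.1 * psi p 4 - p.2.1 * psi p 3 = p.2.2 := by
    intro p hp
    simp only [psi, Matrix.cons_val]
    by_cases h0 : p.1 = 0
    · rw [if_pos h0, if_pos h0]
      by_cases h1 : p.2.1 = 0
      · have h2 : p.2.2 = 0 := by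
          by_contra h2
          apply hp
          unfold bad1
          rw [mem_image]
          exact ⟨p.2.2, by simpa using h2, Prod.ext h0.symm (Prod.ext h1.symm rfl)⟩
        rw [h0, h1, h2]; simp
      · field_simp
        rw [h0]; ring
    · rw [if_neg h0, if_neg h0]
      field_simp
      ring
  have hpsi_nc : ∀ p ∉ bad1 (F := F), ∀ p' ∉ bad1 (F := F), Comm (psi p) (psi p') → p = p' := by
    intro p hp p' hp' h
    obtain ⟨h1, h2, h3⟩ := h
    have e1 := hpsi p hp
    have e2 := hpsi p' hp'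
    have a1 : psi p 0 = p.1 := rfl
    have a2 : psi p 1 = 1 := rfl
    have a3 : psi p 2 = p.2.1 := rfl
    have b1 : psi p' 0 = p'.1 := rfl
    have b2 : psi p' 1 = 1 := rfl
    have b3 : psi p' 2 = p'.2.1 := rfl
    rw [a1, a2, b1, b2, mul_one, mul_one] at h1
    rw [a2, a3, b2, b3, one_mul, one_mul] at h2
    rw [a1, a3, b1, b3] at h3
    refine Prod.ext h1 (Prod.ext h2.symm ?_)
    rw [← e1, ← e2, ← h1, h2]
    rw [← h1, h2] at h3
    linear_combination -h3
  have hchi_nc : ∀ p p' : F × F, Comm (chi p) (chi p') → p = p' := by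
    intro p p' h
    obtain ⟨-, -, h3⟩ := h
    have a1 : chi p 0 = 1 := rfl
    have a3 : chi p 2 = p.1 := rfl
    have a4 : chi p 3 = p.2 + β * p.1 := rfl
    have a5 : chi p 4 = p.2 ^ 2 + p.1 * p.2 + β * p.1 ^ 2 := rfl
    have b1 : chi p' 0 = 1 := rfl
    have b3 : chi p' 2 = p'.1 := rfl
    have b4 : chi p' 3 = p'.2 + β * p'.1 := rfl
    have b5 : chi p' 4 = p'.2 ^ 2 + p'.1 * p'.2 + β * p'.1 ^ 2 := rfl
    rw [a1, a3, a4, a5, b1, b3, b4, b5] at h3
    have h4 : (p.2 + p'.2) ^ 2 + (p.1 + p'.1) * (p.2 + p'.2) + β * (p.1 + p'.1) ^ 2 = 0 := by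
      have t2 : (2 : F) = 0 := CharTwo.two_eq_zero
      linear_combination h3 + (p.2 ^ 2 + p.2 * p'.2 + β * p.1 * p'.1 + p'.1 * p.2 * 0 +
        p.1 * p.2 + β * p.1 ^ 2 + p.1 * p'.2) * t2
    by_cases hY : p.1 + p'.1 = 0
    · rw [hY] at h4
      have hX : (p.2 + p'.2) ^ 2 = 0 := by linear_combination h4
      have hX' := pow_eq_zero_iff (two_ne_zero) |>.1 hX
      exact Prod.ext (CharTwo.add_eq_zero.1 hY) (CharTwo.add_eq_zero.1 hX')
    · exfalso
      apply hβ ((p.2 + p'.2) / (p.1 + p'.1))
      field_simp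
      linear_combination h4
  have hrefl : ∀ v : Fin 5 → F, Comm v v := fun v => ⟨rfl, rfl, rfl⟩
  set S : Finset (F × F × F) := univ \ bad1 with hS
  have hSmem : ∀ p ∈ S, p ∉ bad1 (F := F) := fun p hp => (mem_sdiff.1 hp).2
  have hpinj : Set.InjOn psi (S : Set (F × F × F)) := by
    intro p hp p' hp' h
    refine hpsi_nc p (hSmem p hp) p' (hSmem p' hp') ?_
    rw [h]; exact hrefl _
  have hcinj : Function.Injective chi := by
    intro p p' h
    refine hchi_nc p p' ?_
    rw [h]; exact hrefl _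
  have hcross : ∀ p p', ¬ Comm (psi p) (chi p') := by
    rintro p p' ⟨h, -, -⟩
    have a1 : psi p 1 = 1 := rfl
    have b1 : chi p' 1 = 0 := rfl
    have b0 : chi p' 0 = 1 := rfl
    rw [a1, b1, b0, mul_zero, mul_one] at h
    exact zero_ne_one h
  refine ⟨S.image psi ∪ univ.image chi, ?_, ?_⟩
  · intro v hv w hw hvw hcom
    rw [mem_union] at hv hw
    rcases hv with hv | hv <;> rcases hw with hw | hw
    · obtain ⟨p, hp, rfl⟩ := mem_image.1 hv
      obtain ⟨p', hp', rfl⟩ := mem_image.1 hw
      exact hvw (by rw [hpsi_nc p (hSmem p hp) p' (hSmem p' hp') hcom])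
    · obtain ⟨p, hp, rfl⟩ := mem_image.1 hv
      obtain ⟨p', hp', rfl⟩ := mem_image.1 hw
      exact hcross p p' hcom
    · obtain ⟨p, hp, rfl⟩ := mem_image.1 hv
      obtain ⟨p', hp', rfl⟩ := mem_image.1 hw
      exact hcross p' p hcom.symm
    · obtain ⟨p, hp, rfl⟩ := mem_image.1 hv
      obtain ⟨p', hp', rfl⟩ := mem_image.1 hw
      exact hvw (by rw [hchi_nc p p' hcom])
  · rw [card_union_of_disjoint, card_image_of_injOn hpinj, card_image_of_injective _ hcinj,
      hS, card_sdiff_of_subset (subset_univ _), card_univ3, card_bad1, card_univ,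
      Fintype.card_prod]
    · have h1 : 1 < Fintype.card F := Fintype.one_lt_card
      have h2 : Fintype.card F ≤ Fintype.card F ^ 3 := Nat.le_self_pow (by norm_num) _
      have h3 : Fintype.card F * Fintype.card F = Fintype.card F ^ 2 := by ring
      rw [h3]
      omega
    · rw [disjoint_left]
      intro v hv hw
      obtain ⟨p, -, rfl⟩ := mem_image.1 hv
      obtain ⟨p', -, h⟩ := mem_image.1 hw
      apply hcross p p'
      rw [h]; exact hrefl _

end five

end Pool.Agent.X18.UniTri
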