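import Mathlib
import Pool.Agent.X18.UniTri

/-!
# The largest non-commuting subset of the group of unitriangular matrices
-/

set_option autoImplicit false

open Finset

namespace Pool.Agent.X18.UniTriGroup

open Pool.Agent.X18.UniTri

/-- The group `UU_n(F)` of upper triangular `n × n` matrices over `F` with all diagonal entries
equal to `1`, as a subgroup of `GL_n(F)`. -/
def UU (n : ℕ) (F : Type*) [Field F] : Subgroup (Matrix.GeneralLinearGroup (Fin n) F) where
  carrier := {g | (∀ i, g.val i i = 1) ∧ ∀ i j, j < i → g.val i j = 0}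
  mul_mem' := by
    rintro g h ⟨hg1, hg2⟩ ⟨hh1, hh2⟩
    have hz : ∀ i j k, (k < i ∨ j < k) → g.val i k * h.val k j = 0 := by
      rintro i j k (hk | hk)
      · rw [hg2 i k hk, zero_mul]
      · rw [hh2 k j hk, mul_zero]
    constructor
    · intro i
      rw [Units.val_mul, Matrix.mul_apply, Finset.sum_eq_single i]
      · rw [hg1, hh1, mul_one]
      · intro k _ hk
        rcases lt_or_gt_of_ne hk with h' | h'
        · exact hz i i k (Or.inl h')
        · exact hz i i k (Or.inr h')
      · simp
    · intro i j hij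
      rw [Units.val_mul, Matrix.mul_apply]
      refine Finset.sum_eq_zero fun k _ => ?_
      rcases lt_or_ge k i with h' | h'
      · exact hz i j k (Or.inl h')
      · exact hz i j k (Or.inr (lt_of_lt_of_le hij h'))
  one_mem' := by
    constructor
    · intro i; simp
    · intro i j hij
      rw [Units.val_one, Matrix.one_apply_ne hij.ne']
  inv_mem' := by
    rintro g ⟨hg1, hg2⟩
    have hbt : Matrix.BlockTriangular g.val id := fun i j hij => hg2 i j hij
    have hinv : Matrix.BlockTriangular (g⁻¹).val id := by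
      rw [Matrix.coe_units_inv]
      letI := g.invertible
      exact Matrix.blockTriangular_inv_of_blockTriangular hbt
    have hinv2 : ∀ i j, j < i → (g⁻¹).val i j = 0 := fun i j hij => hinv hij
    refine ⟨fun i => ?_, hinv2⟩
    have h1 : ((g⁻¹).val * g.val) i i = 1 := by
      rw [← Units.val_mul, inv_mul_cancel, Units.val_one, Matrix.one_apply_eq]
    rw [Matrix.mul_apply, Finset.sum_eq_single i] at h1
    · rw [hg1, mul_one] at h1
      exact h1
    · intro k _ hk
      rcases lt_or_gt_of_ne hk with h' | h'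
      · rw [hinv2 i k h', zero_mul]
      · rw [hg2 k i h', mul_zero]
    · simp

/-- `ω(G)`: the largest size of a non-commuting subset of the finite group `G`. -/
noncomputable def omega (G : Type*) [Group G] : ℕ :=
  sSup {k | ∃ X : Finset G, (∀ x ∈ X, ∀ y ∈ X, x ≠ y → x * y ≠ y * x) ∧ X.card = k}

lemma omega_bdd (G : Type*) [Group G] [Finite G] :
    BddAbove {k | ∃ X : Finset G, (∀ x ∈ X, ∀ y ∈ X, x ≠ y → x * y ≠ y * x) ∧ X.card = k} := by
  classical
  letI := Fintype.ofFinite G
  refine ⟨Fintype.card G, ?_⟩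
  rintro k ⟨X, -, rfl⟩
  exact card_le_univ X

lemma omega_le (G : Type*) [Group G] (m : ℕ)
    (h : ∀ X : Finset G, (∀ x ∈ X, ∀ y ∈ X, x ≠ y → x * y ≠ y * x) → X.card ≤ m) :
    omega G ≤ m := by
  apply csSup_le
  · exact ⟨0, ∅, by simp, by simp⟩
  · rintro k ⟨X, hX, rfl⟩
    exact h X hX

lemma le_omega (G : Type*) [Group G] [Finite G] (X : Finset G)
    (h : ∀ x ∈ X, ∀ y ∈ X, x ≠ y → x * y ≠ y * x) : X.card ≤ omega G :=
  le_csSup (omega_bdd G) ⟨X, h, rfl⟩

section four

variable {F : Type*} [Field F]

/-- Coordinates of a unitriangular matrix. -/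
def coords (g : UU 4 F) : Fin 5 → F :=
  ![g.1.val 0 1, g.1.val 1 2, g.1.val 2 3, g.1.val 0 2, g.1.val 1 3]

lemma comm_iff (g h : UU 4 F) : g * h = h * g ↔ Comm (coords g) (coords h) := by
  obtain ⟨hg1, hg2⟩ := g.2
  obtain ⟨hh1, hh2⟩ := h.2
  have key : g * h = h * g ↔ ∀ i j, (g.1.val * h.1.val) i j = (h.1.val * g.1.val) i j := by
    rw [Subtype.ext_iff, Units.ext_iff]
    constructor
    · intro H i j
      exact congrFun (congrFun H i) j
    · intro H
      ext i j
      exact H i j
  have g10 := hg2 1 0 (by decide)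
  have g20 := hg2 2 0 (by decide)
  have g30 := hg2 3 0 (by decide)
  have g21 := hg2 2 1 (by decide)
  have g31 := hg2 3 1 (by decide)
  have g32 := hg2 3 2 (by decide)
  have h10 := hh2 1 0 (by decide)
  have h20 := hh2 2 0 (by decide)
  have h30 := hh2 3 0 (by decide)
  have h21 := hh2 2 1 (by decide)
  have h31 := hh2 3 1 (by decide)
  have h32 := hh2 3 2 (by decide)
  rw [key]
  constructor
  · intro H
    have H02 := H 0 2
    have H13 := H 1 3
    have H03 := H 0 3
    simp only [Matrix.mul_apply, Fin.sum_univ_four, hg1, hh1, g10, g20, g30, g21, g31, g32, h10,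
      h20, h30, h21, h31, h32] at H02 H13 H03
    refine ⟨?_, ?_, ?_⟩
    · simp only [coords, Matrix.cons_val_zero, Matrix.cons_val_one]
      linear_combination H02
    · simp only [coords, Matrix.cons_val_one, Matrix.cons_val]
      linear_combination H13
    · simp only [coords, Matrix.cons_val_zero, Matrix.cons_val]
      linear_combination H03
  · rintro ⟨H1, H2, H3⟩ i j
    simp only [coords, Matrix.cons_val_zero, Matrix.cons_val_one, Matrix.cons_val] at H1 H2 H3
    simp only [Matrix.mul_apply, Fin.sum_univ_four]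
    fin_cases i <;> fin_cases j <;>
      simp only [Fin.zero_eta, Fin.mk_one, Fin.reduceFinMk, hg1, hh1, g10, g20, g30, g21, g31,
        g32, h10, h20, h30, h21, h31, h32]
    · ring
    · ring
    · linear_combination H1
    · linear_combination H3
    · ring
    · ring
    · ring
    · linear_combination H2
    all_goals ring

/-- The unitriangular matrix with given coordinates. -/
def liftMat (v : Fin 5 → F) : Matrix (Fin 4) (Fin 4) F :=
  !![1, v 0, v 3, 0; 0, 1, v 1, v 4; 0, 0, 1, v 2; 0, 0, 0, 1]

lemma liftMat_tri (v : Fin 5 → F) : ∀ i j, j < i → liftMat v i j = 0 := by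
  intro i j hij
  fin_cases i <;> fin_cases j <;> simp [liftMat] at hij ⊢

lemma liftMat_diag (v : Fin 5 → F) : ∀ i, liftMat v i i = 1 := by
  intro i
  fin_cases i <;> simp [liftMat]

lemma liftMat_det (v : Fin 5 → F) : (liftMat v).det = 1 := by
  have h : Matrix.BlockTriangular (liftMat v) id := fun i j hij => liftMat_tri v i j hij
  rw [Matrix.det_of_upperTriangular h]
  simp [liftMat_diag]

/-- The unitriangular matrix with given coordinates, as a group element. -/
def lift (v : Fin 5 → F) : UU 4 F :=
  ⟨Matrix.GeneralLinearGroup.mkOfDetNeZero (liftMat v) (by rw [liftMat_det]; exact one_ne_zero),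
    liftMat_diag v, liftMat_tri v⟩

lemma coords_lift (v : Fin 5 → F) : coords (lift v) = v := by
  funext i
  fin_cases i <;> rfl

end four

section main

variable {F : Type*} [Field F] [Fintype F]

lemma finite_UU (n : ℕ) : Finite (UU n F) := by
  classical
  infer_instance

open Classical in
lemma omega_upper : omega (UU 4 F) + Fintype.card F ≤
    Fintype.card F ^ 3 + Fintype.card F ^ 2 + 1 := by
  have hq : Fintype.card F ≤ Fintype.card F ^ 3 := Nat.le_self_pow (by norm_num) _
  have := omega_le (UU 4 F) (Fintype.card F ^ 3 + Fintype.card F ^ 2 + 1 - Fintype.card F) (by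
    intro X hX
    have hinj : Set.InjOn coords (X : Set (UU 4 F)) := by
      intro x hx y hy h
      by_contra hne
      exact hX x hx y hy hne ((comm_iff x y).2 (by rw [h]; exact ⟨rfl, rfl, rfl⟩))
    have hNC : NC (X.image coords) := by
      intro v hv w hw hvw
      obtain ⟨x, hx, rfl⟩ := mem_image.1 hv
      obtain ⟨y, hy, rfl⟩ := mem_image.1 hw
      intro hc
      exact hX x hx y hy (fun h => hvw (by rw [h])) ((comm_iff x y).2 hc)
    have h1 := upper (X.image coords) hNC
    rw [card_image_of_injOn hinj] at h1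
    omega)
  omega

open Classical in
lemma omega_upper_odd (hodd : ¬ Even (Fintype.card F)) : omega (UU 4 F) + Fintype.card F ≤
    Fintype.card F ^ 3 + Fintype.card F ^ 2 := by
  have hq : Fintype.card F ≤ Fintype.card F ^ 3 := Nat.le_self_pow (by norm_num) _
  have := omega_le (UU 4 F) (Fintype.card F ^ 3 + Fintype.card F ^ 2 - Fintype.card F) (by
    intro X hX
    have hinj : Set.InjOn coords (X : Set (UU 4 F)) := by
      intro x hx y hy h
      by_contra hne
      exact hX x hx y hy hne ((comm_iff x y).2 (by rw [h]; exact ⟨rfl, rfl, rfl⟩))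
    have hNC : NC (X.image coords) := by
      intro v hv w hw hvw
      obtain ⟨x, hx, rfl⟩ := mem_image.1 hv
      obtain ⟨y, hy, rfl⟩ := mem_image.1 hw
      intro hc
      exact hX x hx y hy (fun h => hvw (by rw [h])) ((comm_iff x y).2 hc)
    have h1 := upper_odd (X.image coords) hNC hodd
    rw [card_image_of_injOn hinj] at h1
    omega)
  omega

open Classical in
lemma omega_lower [CharP F 2] : Fintype.card F ^ 3 + Fintype.card F ^ 2 + 1 ≤
    omega (UU 4 F) + Fintype.card F := by
  obtain ⟨Y, hY, hcard⟩ := lower (F := F)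
  have hinj : Function.Injective (lift (F := F)) := by
    intro v w h
    rw [← coords_lift v, ← coords_lift w, h]
  haveI := finite_UU (F := F) 4
  have := le_omega (UU 4 F) (Y.image lift) (by
    intro x hx y hy hxy
    obtain ⟨v, hv, rfl⟩ := mem_image.1 hx
    obtain ⟨w, hw, rfl⟩ := mem_image.1 hy
    rw [Ne, comm_iff, coords_lift, coords_lift]
    exact hY v hv w hw fun h => hxy (by rw [h]))
  rw [card_image_of_injective _ hinj] at this
  omega

/-- In characteristic two, `ω(UU_4(F_q)) = q^3 + q^2 - q + 1`. -/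
lemma omega_even [CharP F 2] : omega (UU 4 F) + Fintype.card F =
    Fintype.card F ^ 3 + Fintype.card F ^ 2 + 1 :=
  le_antisymm omega_upper omega_lower

end main

/-- No polynomial describes `ω(UU_4(F_q))` for all large `q`. -/
theorem no_polynomial (P : Polynomial ℝ) (q₀ : ℕ)
    (hP : ∀ (F : Type) [Field F] [Fintype F], q₀ ≤ Fintype.card F →
      (omega (UU 4 F) : ℝ) = P.eval (Fintype.card F : ℝ)) : False := by
  classical
  have h2 : Fact (Nat.Prime 2) := ⟨Nat.prime_two⟩
  have h3 : Fact (Nat.Prime 3) := ⟨Nat.prime_three⟩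
  set Q : Polynomial ℝ := Polynomial.X ^ 3 + Polynomial.X ^ 2 - Polynomial.X + 1 with hQ
  have hev : ∀ k : ℕ, P.eval ((2 : ℝ) ^ (q₀ + k + 1)) = Q.eval ((2 : ℝ) ^ (q₀ + k + 1)) := by
    intro k
    letI : Fintype (GaloisField 2 (q₀ + k + 1)) := Fintype.ofFinite _
    have hc : Fintype.card (GaloisField 2 (q₀ + k + 1)) = 2 ^ (q₀ + k + 1) := by
      rw [← Nat.card_eq_fintype_card]
      exact GaloisField.card 2 _ (by omega)
    have h1 := hP (GaloisField 2 (q₀ + k + 1)) (by
      rw [hc]
      have : q₀ + k + 1 < 2 ^ (q₀ + k + 1) := Nat.lt_two_pow_self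
      omega)
    have h4 := omega_even (F := GaloisField 2 (q₀ + k + 1))
    have h5 : (omega (UU 4 (GaloisField 2 (q₀ + k + 1))) : ℝ) +
        (Fintype.card (GaloisField 2 (q₀ + k + 1)) : ℝ) =
        (Fintype.card (GaloisField 2 (q₀ + k + 1)) : ℝ) ^ 3 +
        (Fintype.card (GaloisField 2 (q₀ + k + 1)) : ℝ) ^ 2 + 1 := by exact_mod_cast h4
    rw [h1, hc] at h5
    push_cast at h5
    rw [hQ]
    simp only [Polynomial.eval_add, Polynomial.eval_sub, Polynomial.eval_pow, Polynomial.eval_X,
      Polynomial.eval_one]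
    linarith
  have hPQ : P = Q := by
    apply Polynomial.eq_of_infinite_eval_eq
    refine Set.infinite_of_injective_forall_mem (f := fun k : ℕ => (2 : ℝ) ^ (q₀ + k + 1)) ?_ ?_
    · intro k k' h
      have := pow_right_injective₀ (a := (2 : ℝ)) (by norm_num) (by norm_num) h
      omega
    · intro k
      exact hev k
  letI : Fintype (GaloisField 3 (q₀ + 1)) := Fintype.ofFinite _
  have hc : Fintype.card (GaloisField 3 (q₀ + 1)) = 3 ^ (q₀ + 1) := by
    rw [← Nat.card_eq_fintype_card]
    exact GaloisField.card 3 _ (by omega)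
  have h1 := hP (GaloisField 3 (q₀ + 1)) (by
    rw [hc]
    have : q₀ + 1 < 3 ^ (q₀ + 1) := Nat.lt_pow_self (by norm_num)
    omega)
  have h4 := omega_upper_odd (F := GaloisField 3 (q₀ + 1)) (by
    rw [hc, Nat.not_even_iff_odd]
    exact Odd.pow (by decide))
  have h5 : (omega (UU 4 (GaloisField 3 (q₀ + 1))) : ℝ) +
      (Fintype.card (GaloisField 3 (q₀ + 1)) : ℝ) ≤
      (Fintype.card (GaloisField 3 (q₀ + 1)) : ℝ) ^ 3 +
      (Fintype.card (GaloisField 3 (q₀ + 1)) : ℝ) ^ 2 := by exact_mod_cast h4
  rw [h1, hPQ, hQ] at h5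
  simp only [Polynomial.eval_add, Polynomial.eval_sub, Polynomial.eval_pow, Polynomial.eval_X,
    Polynomial.eval_one] at h5
  linarith

end Pool.Agent.X18.UniTriGroup
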