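import Mathlib
import Pool.Agent.W114.VT.Main

/-!
# Difference sets with Singer parameters, fixed `n`: many pairwise coprime excluded divisors of `m`
-/

set_option autoImplicit false

namespace Pool.Agent.X18.SgVert

open Pool.Agent.H771R2.SingerDS (HasSinger)

/-- the part of `x` prime to `3` -/
def th (x : ℕ) : ℕ := ordCompl[3] x

theorem many {n : ℕ} {p p' : ℕ} (hp : p.Prime) (hp' : p'.Prime) (hne : p ≠ p')
    (h1 : Odd (n.factorization p)) (h2 : Odd (n.factorization p')) {N : ℕ} (hN : N ≠ 0)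
    (h3 : ¬ 3 ∣ N ∨ (p ≠ 3 ∧ p' ≠ 3)) :
    ∃ d : ℕ → ℕ, (∀ i, Odd (d i) ∧ 3 ≤ d i ∧ Nat.Coprime (d i) N ∧
      ∀ m : ℕ, Odd m → 3 ≤ m → d i ∣ m → ¬ HasSinger n m) ∧
      ∀ i j, i < j → ∃ k, Nat.gcd (d i) (d j) = 3 ^ k ∧ (p ≠ 3 → p' ≠ 3 → k = 0) := by
  classical
  by_cases h33 : p ≠ 3 ∧ p' ≠ 3
  · obtain ⟨d, hd1, hd2⟩ := exists_seq_of_forall_finset_exists
      (fun d : ℕ => Odd d ∧ 3 ≤ d ∧ Nat.Coprime d N ∧
        ∀ m : ℕ, Odd m → 3 ≤ m → d ∣ m → ¬ HasSinger n m)
      (fun x y => Nat.Coprime x y) (by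
        intro s hs
        obtain ⟨d, hd1, hd2, hd3, hd4⟩ := Pool.Agent.W114.VT.vertical hp hp' hne h1 h2
          (N := N * ∏ x ∈ s, x) (by
            refine mul_ne_zero hN (Finset.prod_ne_zero_iff.2 fun x hx => ?_)
            have := (hs x hx).2.1
            omega) (Or.inr h33)
        refine ⟨d, ⟨hd1, hd2, Nat.Coprime.coprime_mul_right_right hd3, hd4⟩, fun x hx => ?_⟩
        exact (Nat.Coprime.coprime_dvd_right (Finset.dvd_prod_of_mem _ hx)
          (Nat.Coprime.coprime_mul_left_right hd3)).symm)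
    exact ⟨d, hd1, fun i j hij => ⟨0, by simpa using hd2 i j hij, fun _ _ => rfl⟩⟩
  · have h3N : ¬ 3 ∣ N := by tauto
    obtain ⟨d, hd1, hd2⟩ := exists_seq_of_forall_finset_exists
      (fun d : ℕ => Odd d ∧ 3 ≤ d ∧ Nat.Coprime d N ∧
        ∀ m : ℕ, Odd m → 3 ≤ m → d ∣ m → ¬ HasSinger n m)
      (fun x y => Nat.Coprime (th x) y) (by
        intro s hs
        have hth : ∀ x ∈ s, ¬ 3 ∣ th x := by
          intro x hx
          have := (hs x hx).2.1
          exact Nat.not_dvd_ordCompl Nat.prime_three (by omega)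
        obtain ⟨d, hd1, hd2, hd3, hd4⟩ := Pool.Agent.W114.VT.vertical hp hp' hne h1 h2
          (N := N * ∏ x ∈ s, th x) (by
            refine mul_ne_zero hN (Finset.prod_ne_zero_iff.2 fun x hx h0 => ?_)
            exact hth x hx (by rw [h0]; exact dvd_zero 3)) (Or.inl (by
            intro hdv
            rcases Nat.prime_three.dvd_mul.1 hdv with h | h
            · exact h3N h
            · obtain ⟨x, hx, hx'⟩ := (Nat.prime_three.prime.dvd_finsetProd_iff _).1 h
              exact hth x hx hx'))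
        refine ⟨d, ⟨hd1, hd2, Nat.Coprime.coprime_mul_right_right hd3, hd4⟩, fun x hx => ?_⟩
        exact (Nat.Coprime.coprime_dvd_right (Finset.dvd_prod_of_mem (fun x => th x) hx)
          (Nat.Coprime.coprime_mul_left_right hd3)).symm)
    refine ⟨d, hd1, fun i j hij => ?_⟩
    have hi0 : d i ≠ 0 := by have := (hd1 i).2.1; omega
    have h4 : Nat.gcd (d i) (d j) ∣ 3 ^ (d i).factorization 3 := by
      have h5 : Nat.gcd (d i) (d j) ∣ 3 ^ (d i).factorization 3 * th (d i) := by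
        rw [th, Nat.ordProj_mul_ordCompl_eq_self]
        exact Nat.gcd_dvd_left _ _
      have h6 : Nat.Coprime (Nat.gcd (d i) (d j)) (th (d i)) :=
        Nat.Coprime.coprime_dvd_left (Nat.gcd_dvd_right _ _) (hd2 i j hij).symm
      exact h6.dvd_of_dvd_mul_right h5
    obtain ⟨k, -, hk⟩ := (Nat.dvd_prime_pow Nat.prime_three).1 h4
    exact ⟨k, hk, fun a b => absurd ⟨a, b⟩ h33⟩

end Pool.Agent.X18.SgVert
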