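import Mathlib
import Pool.Agent.TH66.SG.Odd

/-!
# Difference sets with Singer parameters: fixed cofactor, all odd dimensions divisible by `l` at once
-/

set_option autoImplicit false

namespace Pool.Agent.X18.SgOdd

open Finset Filter Topology
open Pool.Agent.H771R2.SingerDS (HasSinger odd_geom)
open Pool.Agent.TH66.SG

theorem odd_uniform {l a f : ℕ} (hlp : l.Prime) (hlo : Odd l) (ha : 2 ≤ a) (hf : 1 ≤ f)
    (hns : Odd f ∨ ¬ IsSquare a) :
    Tendsto (fun N : ℕ =>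
      (({q : ℕ | q ≤ N ∧ q.Prime ∧ ∃ m : ℕ, Odd m ∧ 3 ≤ m ∧ l ∣ m ∧
        HasSinger (a * q ^ f) m} : Set ℕ).ncard : ℝ) /
        Nat.primeCounting N) atTop (𝓝 0) := by
  classical
  have ha0 : a ≠ 0 := by omega
  obtain ⟨γ, f₁, hf₁o', hf₁⟩ :=
    Nat.exists_eq_pow_mul_and_not_dvd (by omega : f ≠ 0) 2 (by norm_num)
  have hf₁o : Odd f₁ := by rwa [← Nat.not_even_iff_odd, even_iff_two_dvd]
  -- the prime factors of `a`
  set k := a.primeFactors.card with hk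
  have hk1 : 1 ≤ k := by
    have h2 : k ≠ 0 := by
      intro h
      rw [hk, Finset.card_eq_zero, Nat.primeFactors_eq_empty] at h
      omega
    omega
  set p : Fin k → ℕ := fun i => (a.primeFactors.equivFin.symm i : ℕ) with hpdef
  have hpmem : ∀ i, p i ∈ a.primeFactors := fun i => (a.primeFactors.equivFin.symm i).2
  have hp : ∀ i, (p i).Prime := fun i => Nat.prime_of_mem_primeFactors (hpmem i)
  have hinj : Function.Injective p := by
    intro i j h
    exact a.primeFactors.equivFin.symm.injective (Subtype.ext h)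
  have hsurj : ∀ q ∈ a.primeFactors, ∃ i, p i = q := by
    intro q hq
    refine ⟨a.primeFactors.equivFin ⟨q, hq⟩, ?_⟩
    simp [hpdef]
  have hprod : a = ∏ i, p i ^ a.factorization (p i) := by
    conv_lhs => rw [← Nat.prod_factorization_pow_eq_self ha0]
    rw [Finsupp.prod, Nat.support_factorization, ← Finset.prod_coe_sort]
    exact (Fintype.prod_equiv a.primeFactors.equivFin.symm _ _ (fun i => rfl)).symm
  have hae : ∀ i, a.factorization (p i) ≠ 0 := by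
    intro i
    have := hpmem i
    rw [← Nat.support_factorization, Finsupp.mem_support_iff] at this
    exact this
  -- the distinguished prime
  obtain ⟨i₀, hi₀⟩ : ∃ i₀ : Fin k, Odd f ∨ Odd (a.factorization (p i₀)) := by
    rcases hns with h | h
    · exact ⟨⟨0, by omega⟩, Or.inl h⟩
    · by_contra hcon
      push Not at hcon
      apply h
      have h1 : ∀ i, ∃ y, a.factorization (p i) = y + y := fun i => by
        have := (hcon i).2
        rw [Nat.not_odd_iff_even] at this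
        exact this
      choose y hy using h1
      refine ⟨∏ i, p i ^ y i, ?_⟩
      rw [← Finset.prod_mul_distrib]
      conv_lhs => rw [hprod]
      refine Finset.prod_congr rfl fun i _ => ?_
      rw [hy, pow_add]
  obtain ⟨α, a₁, ha₁o', ha₁⟩ := Nat.exists_eq_pow_mul_and_not_dvd (hae i₀) 2 (by norm_num)
  have ha₁o : Odd a₁ := by rwa [← Nat.not_even_iff_odd, even_iff_two_dvd]
  obtain ⟨u, hu⟩ : ∃ u, u = α + 1 + γ := ⟨_, rfl⟩
  obtain ⟨s, hs⟩ : ∃ s, s = 0 + 2 + u := ⟨_, rfl⟩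
  have hs3 : 3 ≤ s := by omega
  set R := Good s (l * f₁) a p (fun i => if i = i₀ then 2 ^ γ else 0) with hR
  have facts := fun (w : ℕ) (hw : w ∈ R) => root_facts p i₀ (a := a) (fun i => a.factorization (p i))
    hprod ha₁ ha₁o hf₁ hf₁o hu hs hlo le_rfl (by omega) hw
  set J : ℕ → ℕ := fun w => f * 2 ^ (s - 1 - u) * ((w - 1) / 2 ^ s) with hJ
  have main := alm_abs R (fun w hw => ⟨hw.1, (facts w hw).1⟩)
    (good_diverges s (l * f₁) a hs3 (hlo.mul hf₁o) p hp hinj _)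
    (fun w q => ((a : ZMod w) * q ^ f) ^ l = 1 ∧ (a : ZMod w) * q ^ f ≠ 1 ∧ q ^ J w = -1)
    (fun w q => ((a : ZMod w) * q ^ f) ^ l = 1 ∧ (a : ZMod w) * q ^ f ≠ 1 ∧ q ^ J w = -1)
    ?_ (fun q => ¬ q ∣ a ∧ ∃ m : ℕ, Odd m ∧ 3 ≤ m ∧ l ∣ m ∧ HasSinger (a * q ^ f) m) ?_
  · refine tendsto_of_finite a ?_ main
    intro q hq hbad
    by_cases h : q ∣ a
    · exact Or.inr (Nat.le_of_dvd (by omega) h)
    · exact Or.inl ⟨h, hbad⟩
  · intro w hw
    obtain ⟨hw2, hb, hLw, _, _, hroot⟩ := facts w hw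
    have hwf : Fact w.Prime := ⟨hw.1⟩
    obtain ⟨ζ, hζ⟩ := exists_zeta' w l hLw
    have hζ1 : ζ ^ (2 ^ (0 + 1) * l) = 1 := (hζ _).2 (dvd_mul_left _ _)
    obtain ⟨q, hq0, hq, hq'⟩ := hroot ζ hζ1
    have hζne : ζ ≠ 1 := by
      intro h
      have h1 := (hζ 1).1 (by rw [pow_one, h])
      exact hlp.one_lt.ne' (Nat.dvd_one.1 h1)
    have h1 : ((a : ZMod w) * q ^ f) ^ l = 1 ∧ (a : ZMod w) * q ^ f ≠ 1 ∧ q ^ J w = -1 :=
      ⟨by rw [hq]; exact (hζ l).2 dvd_rfl, by rw [hq]; exact hζne, hq'⟩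
    exact ⟨q, q, hq0, hq0, h1, h1⟩
  · rintro w hw - - q hq ⟨h1l, h2, h3⟩ - ⟨hqa, m, hm, hm3, hlm, hS⟩
    have h1 : ((a : ZMod w) * q ^ f) ^ m = 1 := by
      obtain ⟨c, rfl⟩ := hlm
      rw [pow_mul, h1l, one_pow]
    have hpr := hw.1
    obtain ⟨hw2, hb, hLw, _, hpi, hroot⟩ := facts w hw
    have hqpos : 0 < q ^ f := pow_pos hq.pos _
    have hn2 : 2 ≤ a * q ^ f := by nlinarith
    rcases hi₀ with hfo | hao
    · refine excluded' (n := a * q ^ f) (m := m) (w := w) (r := q) (j := J w) (c := f) (n' := a)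
        hm hm3 hn2 hS hpr ?_ ?_ hq hfo (mul_comm _ _) hqa h3
      · push_cast
        exact h1
      · push_cast
        exact h2
    · have hpq : p i₀ ≠ q := by
        rintro rfl
        exact hqa (Nat.dvd_of_mem_primeFactors (hpmem i₀))
      refine excluded' (n := a * q ^ f) (m := m) (w := w) (r := p i₀)
        (j := 2 ^ (s - 2 - γ) * ((w - 1) / 2 ^ s)) (c := a.factorization (p i₀))
        (n' := a / p i₀ ^ a.factorization (p i₀) * q ^ f)
        hm hm3 hn2 hS hpr ?_ ?_ (hp i₀) hao ?_ ?_ hpi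
      · push_cast
        exact h1
      · push_cast
        exact h2
      · rw [← mul_assoc, Nat.mul_div_cancel' (Nat.ordProj_dvd a (p i₀))]
      · intro hdvd
        rcases (hp i₀).dvd_mul.1 hdvd with h4 | h4
        · exact Nat.not_dvd_ordCompl (hp i₀) ha0 h4
        · exact hpq ((Nat.prime_dvd_prime_iff_eq (hp i₀) hq).1 ((hp i₀).dvd_of_dvd_pow h4))

theorem odd_minFac {K a f : ℕ} (ha : 2 ≤ a) (hf : 1 ≤ f) (hns : Odd f ∨ ¬ IsSquare a) :
    Tendsto (fun N : ℕ =>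
      (({q : ℕ | q ≤ N ∧ q.Prime ∧ ∃ m : ℕ, Odd m ∧ 3 ≤ m ∧ m.minFac ≤ K ∧
        HasSinger (a * q ^ f) m} : Set ℕ).ncard : ℝ) /
        Nat.primeCounting N) atTop (𝓝 0) := by
  classical
  have h1 : Tendsto (fun N : ℕ => ∑ l ∈ (Finset.range (K + 1)).filter (fun l => l.Prime ∧ Odd l),
      (({q : ℕ | q ≤ N ∧ q.Prime ∧ ∃ m : ℕ, Odd m ∧ 3 ≤ m ∧ l ∣ m ∧
        HasSinger (a * q ^ f) m} : Set ℕ).ncard : ℝ) / Nat.primeCounting N) atTop (𝓝 0) := by
    have h2 := tendsto_finsetSum ((Finset.range (K + 1)).filter (fun l => l.Prime ∧ Odd l))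
      (fun l hl => odd_uniform (l := l) (a := a) (f := f) (Finset.mem_filter.1 hl).2.1
        (Finset.mem_filter.1 hl).2.2 ha hf hns)
    simpa using h2
  refine squeeze_zero (fun N => by positivity) (fun N => ?_) h1
  rw [← Finset.sum_div]
  apply div_le_div_of_nonneg_right _ (Nat.cast_nonneg _)
  have hsub : ({q : ℕ | q ≤ N ∧ q.Prime ∧ ∃ m : ℕ, Odd m ∧ 3 ≤ m ∧ m.minFac ≤ K ∧
        HasSinger (a * q ^ f) m} : Set ℕ) ⊆
      ⋃ l ∈ (Finset.range (K + 1)).filter (fun l => l.Prime ∧ Odd l),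
        {q : ℕ | q ≤ N ∧ q.Prime ∧ ∃ m : ℕ, Odd m ∧ 3 ≤ m ∧ l ∣ m ∧
        HasSinger (a * q ^ f) m} := by
    rintro q ⟨h3, h4, m, h5, h6, h7, h8⟩
    simp only [Set.mem_iUnion]
    refine ⟨m.minFac, ?_, h3, h4, m, h5, h6, Nat.minFac_dvd m, h8⟩
    rw [Finset.mem_filter, Finset.mem_range]
    exact ⟨by omega, Nat.minFac_prime (by omega), Odd.of_dvd_nat h5 (Nat.minFac_dvd m)⟩
  have hfin : ∀ l : ℕ, ({q : ℕ | q ≤ N ∧ q.Prime ∧ ∃ m : ℕ, Odd m ∧ 3 ≤ m ∧ l ∣ m ∧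
        HasSinger (a * q ^ f) m} : Set ℕ).Finite := fun l =>
    (Set.finite_Iic N).subset fun q hq => hq.1
  have h3 := Set.ncard_le_ncard hsub (Set.Finite.biUnion (Finset.finite_toSet _) fun l _ => hfin l)
  have h4 := Finset.set_ncard_biUnion_le ((Finset.range (K + 1)).filter (fun l => l.Prime ∧ Odd l))
    (fun l => {q : ℕ | q ≤ N ∧ q.Prime ∧ ∃ m : ℕ, Odd m ∧ 3 ≤ m ∧ l ∣ m ∧
        HasSinger (a * q ^ f) m})
  exact_mod_cast h3.trans h4

end Pool.Agent.X18.SgOdd
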