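import Mathlib

/-!
Deterministic two-party protocols for a relation, and how to combine them.
-/

set_option autoImplicit false

namespace Pool.Agent.X18.Comm

open Finset

/-- The transcript of the first `c` bits.  `owner t` says whose turn it is after the transcript `t`
(`true` for Alice, who holds `x`, `false` for Bob, who holds `y`); `a t x` and `b t y` are the bits
they would send. -/
def run {X Y : Type*} (owner : List Bool → Bool) (a : List Bool → X → Bool)
    (b : List Bool → Y → Bool) (x : X) (y : Y) (c : ℕ) : List Bool :=
  Nat.iterate (fun t : List Bool => t ++ [if owner t then a t x else b t y]) c []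

/-- `Solves R c`: there is a deterministic two-party protocol in which exactly `c` bits are exchanged
and after which one can read off the transcript alone a value `z` with `R x y z`. -/
def Solves {X Y Z : Type*} (R : X → Y → Z → Prop) (c : ℕ) : Prop :=
  ∃ (owner : List Bool → Bool) (a : List Bool → X → Bool) (b : List Bool → Y → Bool)
    (out : List Bool → Z), ∀ x y, R x y (out (run owner a b x y c))

section
variable {X Y Z : Type*}

theorem Solves.const {R : X → Y → Z → Prop} (z : Z) (h : ∀ x y, R x y z) : Solves R 0 :=
  ⟨fun _ => true, fun _ _ => true, fun _ _ => true, fun _ => z, fun x y => h x y⟩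

theorem Solves.weaken {R R' : X → Y → Z → Prop} {c : ℕ} (h : Solves R c)
    (hR : ∀ x y z, R x y z → R' x y z) : Solves R' c := by
  obtain ⟨owner, a, b, out, hout⟩ := h
  exact ⟨owner, a, b, out, fun x y => hR _ _ _ (hout x y)⟩

theorem Solves.comap {X' Y' : Type*} {R : X → Y → Z → Prop} {c : ℕ} (h : Solves R c)
    (g : X' → X) (k : Y' → Y) : Solves (fun x y z => R (g x) (k y) z) c := by
  obtain ⟨owner, a, b, out, hout⟩ := h
  exact ⟨owner, fun t x => a t (g x), fun t y => b t (k y), out, fun x y => hout (g x) (k y)⟩

theorem Solves.map {Z' : Type*} {R : X → Y → Z → Prop} {R' : X → Y → Z' → Prop} {c : ℕ}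
    (h : Solves R c) (g : Z → Z') (hg : ∀ x y z, R x y z → R' x y (g z)) : Solves R' c := by
  obtain ⟨owner, a, b, out, hout⟩ := h
  exact ⟨owner, a, b, fun t => g (out t), fun x y => hg _ _ _ (hout x y)⟩

theorem iter_cons (owner : Bool → List Bool → Bool) (a : Bool → List Bool → X → Bool)
    (b : Bool → List Bool → Y → Bool) (o0 : Bool) (a0 : X → Bool) (b0 : Y → Bool)
    (v : Bool) (x : X) (y : Y) (n : ℕ) (t : List Bool) :
    Nat.iterate (fun t : List Bool => t ++
      [if (fun t : List Bool => match t with | [] => o0 | v :: t' => owner v t') t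
        then (fun (t : List Bool) (x : X) => match t with | [] => a0 x | v :: t' => a v t' x) t x
        else (fun (t : List Bool) (y : Y) => match t with | [] => b0 y | v :: t' => b v t' y) t y])
        n (v :: t)
      = v :: Nat.iterate (fun t : List Bool => t ++ [if owner v t then a v t x else b v t y]) n t := by
  induction n generalizing t with
  | zero => rfl
  | succ n ih =>
    rw [Function.iterate_succ_apply, Function.iterate_succ_apply, ← ih]
    rfl

theorem Solves.alice (R : X → Y → Z → Prop) (α : X → Bool) (Rv : Bool → X → Y → Z → Prop)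
    (c : ℕ) (h : ∀ v, Solves (Rv v) c) (hR : ∀ x y z, Rv (α x) x y z → R x y z) :
    Solves R (c + 1) := by
  choose owner a b out hout using h
  refine ⟨fun t => match t with | [] => true | v :: t' => owner v t',
    fun t x => match t with | [] => α x | v :: t' => a v t' x,
    fun t y => match t with | [] => false | v :: t' => b v t' y,
    fun t => match t with | [] => out true [] | v :: t' => out v t', fun x y => ?_⟩
  apply hR
  unfold run
  rw [Function.iterate_succ_apply]
  have := iter_cons owner a b true α (fun _ => false) (α x) x y c []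
  simp only [List.nil_append, if_true] at this ⊢
  rw [this]
  exact hout (α x) x y

theorem Solves.swap {R : X → Y → Z → Prop} {c : ℕ} (h : Solves R c) :
    Solves (fun y x z => R x y z) c := by
  obtain ⟨owner, a, b, out, hout⟩ := h
  refine ⟨fun t => !owner t, b, a, out, fun y x => ?_⟩
  have := hout x y
  convert this using 2
  unfold run
  congr 1
  funext t
  cases h : owner t <;> simp [h]

theorem Solves.mono {R : X → Y → Z → Prop} {c c' : ℕ} (h : Solves R c) (hc : c ≤ c') :
    Solves R c' := by
  induction c', hc using Nat.le_induction with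
  | base => exact h
  | succ n _ ih =>
    exact Solves.alice R (fun _ => true) (fun _ => R) n (fun _ => ih) (fun _ _ _ hz => hz)

theorem Solves.bitsX (w : ℕ) : ∀ (R : X → Y → Z → Prop) (e : X → Fin w → Bool)
    (Re : (Fin w → Bool) → X → Y → Z → Prop) (c : ℕ) (_ : ∀ s, Solves (Re s) c)
    (_ : ∀ x y z, Re (e x) x y z → R x y z), Solves R (c + w) := by
  induction w with
  | zero =>
    intro R e Re c h hR
    refine (h (fun i => i.elim0)).weaken fun x y z hz => hR x y z ?_
    rw [Subsingleton.elim (e x)]
    exact hz
  | succ w ih =>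
    intro R e Re c h hR
    refine Solves.alice R (fun x => e x 0)
      (fun v x y z => Re (Fin.cons v (Fin.tail (e x))) x y z) (c + w) (fun v => ?_)
      (fun x y z hz => ?_)
    · exact ih _ (fun x => Fin.tail (e x)) (fun s => Re (Fin.cons v s)) c (fun s => h _)
        (fun x y z hz => hz)
    · apply hR
      simpa only [Fin.cons_self_tail] using hz

theorem Solves.sendX {Q : Type*} [Fintype Q] [Nonempty Z] (R : X → Y → Z → Prop) (g : X → Q)
    (w : ℕ) (hw : Fintype.card Q ≤ 2 ^ w) (Rq : Q → X → Y → Z → Prop)
    (c : ℕ) (h : ∀ q, Solves (Rq q) c) (hR : ∀ x y z, Rq (g x) x y z → R x y z) :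
    Solves R (c + w) := by
  classical
  have hcard : Fintype.card Q ≤ Fintype.card (Fin w → Bool) := by simpa using hw
  obtain ⟨ι⟩ := Function.Embedding.nonempty_of_card_le hcard
  obtain ⟨z0⟩ := ‹Nonempty Z›
  refine Solves.bitsX w R (fun x => ι (g x))
    (fun s => if hs : ∃ q, ι q = s then Rq hs.choose else fun _ _ _ => True) c (fun s => ?_)
    (fun x y z hz => ?_)
  · by_cases hs : ∃ q, ι q = s
    · simp only [hs, dite_true]; exact h _
    · simp only [hs, dite_false]
      exact (Solves.const z0 fun _ _ => trivial).mono (Nat.zero_le _)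
  · have hs : ∃ q, ι q = ι (g x) := ⟨g x, rfl⟩
    simp only [hs, dite_true] at hz
    rw [ι.injective hs.choose_spec] at hz
    exact hR x y z hz

theorem Solves.sendY {Q : Type*} [Fintype Q] [Nonempty Z] (R : X → Y → Z → Prop) (g : Y → Q)
    (w : ℕ) (hw : Fintype.card Q ≤ 2 ^ w) (Rq : Q → X → Y → Z → Prop)
    (c : ℕ) (h : ∀ q, Solves (Rq q) c) (hR : ∀ x y z, Rq (g y) x y z → R x y z) :
    Solves R (c + w) := by
  have := Solves.sendX (fun y x z => R x y z) g w hw (fun q y x z => Rq q x y z) c
    (fun q => (h q).swap) (fun y x z hz => hR x y z hz)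
  exact this.swap

end

end Pool.Agent.X18.Comm
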