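import Pool.Agent.X18.Comm
import Pool.Agent.Helper433.GL2

/-!
Protocols for low-rank matrices with few entries per row.
-/

set_option autoImplicit false

namespace Pool.Agent.X18.Comm

open Finset Pool.Agent.Helper433

/-! ### Low-rank matrices -/

/-- `n` of the given vectors span all of them, if they lie in a space of dimension at most `n`. -/
lemma span_pick {V ι : Type*} [AddCommGroup V] [Module ℝ V] [Nonempty ι] (n : ℕ) (v : ι → V)
    (W : Submodule ℝ V) [FiniteDimensional ℝ W] (hW : Module.finrank ℝ W ≤ n)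
    (hv : ∀ i, v i ∈ W) :
    ∃ s : Fin n → ι, ∀ i, v i ∈ Submodule.span ℝ (Set.range fun k => v (s k)) := by
  classical
  have hle : Submodule.span ℝ (Set.range v) ≤ W := by
    rw [Submodule.span_le]
    rintro _ ⟨i, rfl⟩
    exact hv i
  have hfd : FiniteDimensional ℝ (Submodule.span ℝ (Set.range v)) :=
    Submodule.finiteDimensional_of_le hle
  obtain ⟨f, hf, hspan, -⟩ := Submodule.exists_fun_fin_finrank_span_eq ℝ (Set.range v)
  have hd : Module.finrank ℝ (Submodule.span ℝ (Set.range v)) ≤ n :=
    (Submodule.finrank_mono hle).trans hW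
  choose g hg using hf
  obtain ⟨i0⟩ := ‹Nonempty ι›
  refine ⟨fun k => if h : k.1 < Module.finrank ℝ (Submodule.span ℝ (Set.range v)) then g ⟨k.1, h⟩
    else i0, fun i => ?_⟩
  have h1 : v i ∈ Submodule.span ℝ (Set.range f) := by
    rw [hspan]
    exact Submodule.subset_span ⟨i, rfl⟩
  refine Submodule.span_mono ?_ h1
  rintro _ ⟨k, rfl⟩
  refine ⟨⟨k.1, lt_of_lt_of_le k.2 hd⟩, ?_⟩
  simp only [k.2, dite_true]
  rw [hg]

/-- A matrix whose rows lie in a space of dimension at most `r`. -/
lemma RK_of_rows {α β : Type*} {r : ℕ} {P : α → β → ℝ} (V : Submodule ℝ (β → ℝ))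
    [FiniteDimensional ℝ V] (hV : Module.finrank ℝ V ≤ r) (h : ∀ a, P a ∈ V) : RK r P := by
  refine RK.mono hV ?_
  let b := Module.finBasis ℝ V
  refine ⟨fun a i => b.repr ⟨P a, h a⟩ i, fun i x => (b i : β → ℝ) x, fun a x => ?_⟩
  have h1 := congrArg (fun v : V => (v : β → ℝ) x) (b.sum_repr ⟨P a, h a⟩)
  simp only [Submodule.coe_sum, Submodule.coe_smul, Finset.sum_apply, Pi.smul_apply,
    smul_eq_mul] at h1
  exact h1.symm

/-- The rows of a matrix of rank at most `r` lie in the span of the factors. -/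
lemma row_mem {α β : Type*} {r : ℕ} {P : α → β → ℝ} (c : α → Fin r → ℝ) (φ : Fin r → β → ℝ)
    (h : ∀ a b, P a b = ∑ i, c a i * φ i b) (a : α) : P a ∈ Submodule.span ℝ (Set.range φ) := by
  have : P a = ∑ i, c a i • φ i := by
    funext b
    simp [h a b]
  rw [this]
  exact Submodule.sum_mem _ fun i _ => Submodule.smul_mem _ _ (Submodule.subset_span ⟨i, rfl⟩)

lemma span_finrank {β : Type*} {r : ℕ} (φ : Fin r → β → ℝ) :
    Module.finrank ℝ (Submodule.span ℝ (Set.range φ)) ≤ r := by
  have := finrank_range_le_card (R := ℝ) φ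
  rw [Fintype.card_fin] at this
  exact this

/-- A matrix of rank at most `s` which vanishes on `A × B` splits: its restriction to the rows in `A`
and its restriction to the columns in `B` have ranks adding up to at most `s`. -/
lemma split {α β : Type*} (s : ℕ) (N : α → β → ℝ) (hN : RK s N) (A : Set α) (B : Set β)
    (h0 : ∀ a ∈ A, ∀ b ∈ B, N a b = 0) :
    ∃ r1 r2, r1 + r2 ≤ s ∧ (∃ N1 : α → β → ℝ, RK r1 N1 ∧ ∀ a ∈ A, ∀ b, N1 a b = N a b) ∧
      (∃ N2 : α → β → ℝ, RK r2 N2 ∧ ∀ a, ∀ b ∈ B, N2 a b = N a b) := by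
  classical
  obtain ⟨c, φ, h⟩ := hN
  set V := Submodule.span ℝ (Set.range φ) with hV
  have : FiniteDimensional ℝ V := FiniteDimensional.span_of_finite ℝ (Set.finite_range φ)
  let T0 : (β → ℝ) →ₗ[ℝ] (β → ℝ) :=
    { toFun := fun f b => if b ∈ B then f b else 0
      map_add' := fun f g => by
        funext b
        by_cases hb : b ∈ B <;> simp [hb]
      map_smul' := fun t f => by
        funext b
        by_cases hb : b ∈ B <;> simp [hb] }
  let T : V →ₗ[ℝ] (β → ℝ) := T0.comp V.subtype
  have hrank := LinearMap.finrank_range_add_finrank_ker T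
  refine ⟨Module.finrank ℝ (LinearMap.ker T), Module.finrank ℝ (LinearMap.range T), ?_, ?_, ?_⟩
  · have := span_finrank φ
    rw [← hV] at this
    omega
  · refine ⟨fun a b => if a ∈ A then N a b else 0, ?_, fun a ha b => by simp [ha]⟩
    refine RK_of_rows ((LinearMap.ker T).map V.subtype) ?_ fun a => ?_
    · exact (Submodule.finrank_map_le _ _)
    · by_cases ha : a ∈ A
      · have hm := row_mem c φ h a
        refine ⟨⟨N a, hm⟩, ?_, ?_⟩
        · simp only [SetLike.mem_coe, LinearMap.mem_ker]
          funext b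
          show (if b ∈ B then N a b else 0) = 0
          by_cases hb : b ∈ B
          · simp [hb, h0 a ha b hb]
          · simp [hb]
        · simp [ha]
      · have : (fun b => if a ∈ A then N a b else 0) = (0 : β → ℝ) := by
          funext b
          simp [ha]
        rw [this]
        exact Submodule.zero_mem _
  · refine ⟨fun a b => if b ∈ B then N a b else 0, ?_, fun a b hb => by simp [hb]⟩
    refine RK_of_rows (LinearMap.range T) le_rfl fun a => ?_
    exact ⟨⟨N a, row_mem c φ h a⟩, rfl⟩

/-! ### Peeling off rectangles -/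

lemma elim {X Y : Type} [DecidableEq X] [DecidableEq Y] (Good : Finset X → Finset Y → Prop)
    (hG0 : Good ∅ ∅) (A0 : Finset X) (B0 : Finset Y) (L : ℝ) (hL : 1 ≤ L)
    (hE : ∀ A ⊆ A0, ∀ B ⊆ B0, A.Nonempty → B.Nonempty → ∃ A' ⊆ A, ∃ B' ⊆ B,
      (A.card : ℝ) * B.card ≤ L * (A'.card * B'.card) ∧ (Good A' B ∨ Good A B')) :
    ∀ (k : ℕ) (A : Finset X) (B : Finset Y), A ⊆ A0 → B ⊆ B0 →
      (A.card : ℝ) * B.card * (1 - 1 / L) ^ k < 1 →
      ∃ (α : X → ℕ) (β : Y → ℕ) (R : ℕ → Finset X × Finset Y), (∀ x, α x ≤ k) ∧ (∀ y, β y ≤ k) ∧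
        (∀ i, Good (R i).1 (R i).2) ∧
        ∀ x ∈ A, ∀ y ∈ B, x ∈ (R (min (α x) (β y))).1 ∧ y ∈ (R (min (α x) (β y))).2 := by
  have hL0 : 0 < L := by linarith
  have hfac : 0 ≤ 1 - 1 / L := by
    have : 1 / L ≤ 1 := by
      rw [div_le_one hL0]
      exact hL
    linarith
  have key : ∀ (A' A : Finset X) (B' B : Finset Y), A' ⊆ A → B' ⊆ B →
      (A.card : ℝ) * B.card ≤ L * (A'.card * B'.card) →
      ((A \ A').card : ℝ) * B.card ≤ (A.card : ℝ) * B.card * (1 - 1 / L) ∧
      (A.card : ℝ) * (B \ B').card ≤ (A.card : ℝ) * B.card * (1 - 1 / L) := by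
    intro A' A B' B hA hB h
    have h1 : (A.card : ℝ) * B.card / L ≤ A'.card * B'.card := by
      rw [div_le_iff₀ hL0]
      linarith
    have h2 : ((A \ A').card : ℝ) = A.card - A'.card := by
      rw [Finset.card_sdiff_of_subset hA, Nat.cast_sub (Finset.card_le_card hA)]
    have h3 : ((B \ B').card : ℝ) = B.card - B'.card := by
      rw [Finset.card_sdiff_of_subset hB, Nat.cast_sub (Finset.card_le_card hB)]
    have h4 : (A'.card : ℝ) ≤ A.card := by exact_mod_cast Finset.card_le_card hA
    have h5 : (B'.card : ℝ) ≤ B.card := by exact_mod_cast Finset.card_le_card hB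
    have h6 : (A'.card : ℝ) * B'.card ≤ A'.card * B.card :=
      mul_le_mul_of_nonneg_left h5 (Nat.cast_nonneg _)
    have h7 : (A'.card : ℝ) * B'.card ≤ A.card * B'.card :=
      mul_le_mul_of_nonneg_right h4 (Nat.cast_nonneg _)
    have h8 : (A.card : ℝ) * B.card * (1 - 1 / L) = A.card * B.card - A.card * B.card / L := by
      ring
    rw [h8, h2, h3]
    constructor <;> nlinarith
  intro k
  induction k with
  | zero =>
    intro A B _ _ hlt
    have h1 : (A.card : ℝ) * B.card < 1 := by simpa using hlt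
    have h2 : A.card * B.card < 1 := by exact_mod_cast h1
    have h3 : A = ∅ ∨ B = ∅ := by
      have : A.card * B.card = 0 := by omega
      rcases Nat.mul_eq_zero.mp this with h | h
      · exact Or.inl (Finset.card_eq_zero.mp h)
      · exact Or.inr (Finset.card_eq_zero.mp h)
    refine ⟨fun _ => 0, fun _ => 0, fun _ => (∅, ∅), fun _ => le_rfl, fun _ => le_rfl,
      fun _ => hG0, ?_⟩
    intro x hx y hy
    exfalso
    rcases h3 with h | h
    · rw [h] at hx
      simp at hx
    · rw [h] at hy
      simp at hy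
  | succ k ih =>
    intro A B hA hB hlt
    rcases Finset.eq_empty_or_nonempty A with hAe | hAne
    · refine ⟨fun _ => 0, fun _ => 0, fun _ => (∅, ∅), fun _ => Nat.zero_le _,
        fun _ => Nat.zero_le _, fun _ => hG0, ?_⟩
      intro x hx
      rw [hAe] at hx
      simp at hx
    rcases Finset.eq_empty_or_nonempty B with hBe | hBne
    · refine ⟨fun _ => 0, fun _ => 0, fun _ => (∅, ∅), fun _ => Nat.zero_le _,
        fun _ => Nat.zero_le _, fun _ => hG0, ?_⟩
      intro x _ y hy
      rw [hBe] at hy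
      simp at hy
    obtain ⟨A', hA', B', hB', hc, hgood⟩ := hE A hA B hB hAne hBne
    obtain ⟨k1, k2⟩ := key A' A B' B hA' hB' hc
    have hp : 0 ≤ (1 - 1 / L) ^ k := pow_nonneg hfac k
    rcases hgood with hg | hg
    · have hlt' : ((A \ A').card : ℝ) * B.card * (1 - 1 / L) ^ k < 1 := by
        refine lt_of_le_of_lt (mul_le_mul_of_nonneg_right k1 hp) ?_
        rw [pow_succ] at hlt
        calc (A.card : ℝ) * B.card * (1 - 1 / L) * (1 - 1 / L) ^ k
            = (A.card : ℝ) * B.card * ((1 - 1 / L) ^ k * (1 - 1 / L)) := by ring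
          _ < 1 := hlt
      obtain ⟨α, β, R, h1, h2, h3, h4⟩ := ih (A \ A') B (Finset.sdiff_subset.trans hA) hB hlt'
      refine ⟨fun x => if x ∈ A' then 0 else α x + 1, fun y => β y + 1,
        fun i => match i with | 0 => (A', B) | i + 1 => R i, fun x => ?_, fun y => ?_,
        fun i => ?_, fun x hx y hy => ?_⟩
      · by_cases hx : x ∈ A'
        · simp [hx]
        · simp only [hx, if_false]
          have := h1 x
          omega
      · have := h2 y
        simp only
        omega
      · cases i with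
        | zero => exact hg
        | succ i => exact h3 i
      · by_cases hx' : x ∈ A'
        · simp only [hx', if_true, Nat.zero_min]
          exact ⟨trivial, hy⟩
        · simp only [hx', if_false, Nat.succ_min_succ]
          exact h4 x (Finset.mem_sdiff.mpr ⟨hx, hx'⟩) y hy
    · have hlt' : (A.card : ℝ) * (B \ B').card * (1 - 1 / L) ^ k < 1 := by
        refine lt_of_le_of_lt (mul_le_mul_of_nonneg_right k2 hp) ?_
        rw [pow_succ] at hlt
        calc (A.card : ℝ) * B.card * (1 - 1 / L) * (1 - 1 / L) ^ k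
            = (A.card : ℝ) * B.card * ((1 - 1 / L) ^ k * (1 - 1 / L)) := by ring
          _ < 1 := hlt
      obtain ⟨α, β, R, h1, h2, h3, h4⟩ := ih A (B \ B') hA (Finset.sdiff_subset.trans hB) hlt'
      refine ⟨fun x => α x + 1, fun y => if y ∈ B' then 0 else β y + 1,
        fun i => match i with | 0 => (A, B') | i + 1 => R i, fun x => ?_, fun y => ?_,
        fun i => ?_, fun x hx y hy => ?_⟩
      · have := h1 x
        simp only
        omega
      · by_cases hy : y ∈ B'
        · simp [hy]
        · simp only [hy, if_false]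
          have := h2 y
          omega
      · cases i with
        | zero => exact hg
        | succ i => exact h3 i
      · by_cases hy' : y ∈ B'
        · simp only [hy', if_true, Nat.min_zero]
          exact ⟨hx, trivial⟩
        · simp only [hy', if_false, Nat.succ_min_succ]
          exact h4 x hx y (Finset.mem_sdiff.mpr ⟨hy, hy'⟩)

end Pool.Agent.X18.Comm
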