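import Pool.Agent.X18.Comm2

/-!
Protocols for low-rank matrices with few entries per row: the recursion on the rank.
-/

set_option autoImplicit false

namespace Pool.Agent.X18.Comm

open Finset Pool.Agent.Helper433

/-- For matrices of rank at most `r` whose rows have at most `q` different entries on a rectangle with
at most `exp N` cells, `c` bits suffice to find the index of the entry in the list of the row. -/
def Claim (q r : ℕ) (N : ℝ) (c : ℕ) : Prop :=
  ∀ (X Y : Type) (A : Finset X) (B : Finset Y) (M : X → Y → ℝ) (ρ : X → Fin q → ℝ), RK r M →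
    (∀ x ∈ A, ∀ y ∈ B, ∃ j, M x y = ρ x j) → (A.card : ℝ) * B.card ≤ Real.exp N →
    Solves (fun x y j => x ∈ A → y ∈ B → M x y = ρ x j) c

/-- A matrix of rank at most `r` with at most `q` entries per row has at most `q ^ r` different
columns. -/
lemma cols {X Y : Type} (A : Finset X) (B : Finset Y) (q r : ℕ) (hq : 0 < q) (M : X → Y → ℝ)
    (ρ : X → Fin q → ℝ) (hM : RK r M) (hl : ∀ x ∈ A, ∀ y ∈ B, ∃ j, M x y = ρ x j) :
    ∃ γ : Y → (Fin r → Fin q), ∀ y ∈ B, ∀ y' ∈ B, γ y = γ y' → ∀ x ∈ A, M x y = M x y' := by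
  classical
  rcases Finset.eq_empty_or_nonempty A with hA | ⟨x0, hx0⟩
  · refine ⟨fun _ _ => ⟨0, hq⟩, ?_⟩
    intro y _ y' _ _ x hx
    rw [hA] at hx
    simp at hx
  obtain ⟨c, φ, h⟩ := hM
  have hfd : FiniteDimensional ℝ (Submodule.span ℝ (Set.range φ)) :=
    FiniteDimensional.span_of_finite ℝ (Set.finite_range φ)
  haveI : Nonempty {x // x ∈ A} := ⟨⟨x0, hx0⟩⟩
  obtain ⟨s, hs⟩ := span_pick r (fun x : {x // x ∈ A} => M x.1)
    (Submodule.span ℝ (Set.range φ)) (span_finrank φ) (fun x => row_mem c φ h x.1)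
  have hch : ∀ (y : Y) (i : Fin r), ∃ j, y ∈ B → M (s i).1 y = ρ (s i).1 j := by
    intro y i
    by_cases hy : y ∈ B
    · obtain ⟨j, hj⟩ := hl _ (s i).2 y hy
      exact ⟨j, fun _ => hj⟩
    · exact ⟨⟨0, hq⟩, fun h => absurd h hy⟩
  choose γ hγ using hch
  refine ⟨γ, ?_⟩
  intro y hy y' hy' hyy x hx
  have hx' := hs ⟨x, hx⟩
  have : ∀ f ∈ Submodule.span ℝ (Set.range fun k => M (s k).1), f y = f y' := by
    intro f hf
    induction hf using Submodule.span_induction with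
    | mem f hf =>
      obtain ⟨k, rfl⟩ := hf
      simp only
      rw [hγ y k hy, hγ y' k hy', hyy]
    | zero => rfl
    | add f g _ _ hf hg => simp [hf, hg]
    | smul t f _ hf => simp [hf]
  exact this _ hx'

lemma two_pow_ge (q r : ℕ) : q ^ r ≤ 2 ^ (r * q) := by
  rw [mul_comm, pow_mul]
  exact Nat.pow_le_pow_left (Nat.lt_two_pow_self).le r

/-- The trivial protocol. -/
lemma base (q r : ℕ) (hq : 0 < q) (N : ℝ) : Claim q r N (q + r * q) := by
  classical
  intro X Y A B M ρ hM hl _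
  haveI : Nonempty (Fin q) := ⟨⟨0, hq⟩⟩
  obtain ⟨γ, hγ⟩ := cols A B q r hq M ρ hM hl
  refine Solves.sendY _ γ (r * q) ?_
    (fun g x y j => γ y = g → x ∈ A → y ∈ B → M x y = ρ x j) _ (fun g => ?_)
    (fun x y z hz => hz rfl)
  · simpa using two_pow_ge q r
  -- Alice computes the index
  have hidx : ∀ x : X, ∃ j : Fin q, ∀ y ∈ B, γ y = g → x ∈ A → M x y = ρ x j := by
    intro x
    by_cases hy : ∃ y ∈ B, γ y = g ∧ x ∈ A
    · obtain ⟨y0, hy0, hg0, hx⟩ := hy
      obtain ⟨j, hj⟩ := hl x hx y0 hy0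
      refine ⟨j, fun y hy hg _ => ?_⟩
      rw [← hj]
      exact hγ y hy y0 hy0 (hg.trans hg0.symm) x hx
    · refine ⟨⟨0, hq⟩, fun y hyB hg hx => ?_⟩
      exact absurd ⟨y, hyB, hg, hx⟩ hy
  choose idx hidx' using hidx
  have := Solves.sendX (Z := Fin q) (fun (x : X) (y : Y) (j : Fin q) =>
      γ y = g → x ∈ A → y ∈ B → M x y = ρ x j) idx q (by
        simpa using (Nat.lt_two_pow_self (n := q)).le)
    (fun i x y j => j = i) 0 (fun i => Solves.const i fun _ _ => rfl)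
    (fun x y z hz hg hx hy => by
      rw [hz]
      exact hidx' x y hy hg hx)
  simpa using this

/-- One level of the recursion on the rank. -/
lemma step (q : ℕ) (hq : 0 < q) (C : ℝ) (r : ℕ) (hr : 1 ≤ r)
    (hC : ∀ (α β ι : Type) (I : Finset ι), I.card ≤ q → ∀ (A : Finset α) (B : Finset β),
    A.Nonempty → B.Nonempty → ∀ M : α → β → ℝ, RK r M → ∀ (ρ : ι → α → ℝ) (σ : ι → β → ℝ),
    (∀ a ∈ A, ∀ b ∈ B, ∃ k ∈ I, M a b = ρ k a + σ k b) →
    ∃ A' ⊆ A, ∃ B' ⊆ B, A'.Nonempty ∧ B'.Nonempty ∧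
      (A.card : ℝ) * B.card ≤ Real.exp (C * (r : ℝ) ^ (3 / 4 : ℝ)) * (A'.card * B'.card) ∧
      ∃ k ∈ I, ∀ a ∈ A', ∀ b ∈ B', M a b = ρ k a + σ k b)
    (hC0 : 0 ≤ C) (N : ℝ) (T w c : ℕ)
    (hT : Real.exp (C * (r : ℝ) ^ (3 / 4 : ℝ)) * N < T) (hw : T + 1 ≤ 2 ^ w)
    (ih : Claim q ((r + 3) / 2) N c) : Claim q r N (c + w + w) := by
  classical
  intro X Y A B M ρ hM hl hcard
  haveI : Nonempty (Fin q) := ⟨⟨0, hq⟩⟩
  set L := Real.exp (C * (r : ℝ) ^ (3 / 4 : ℝ)) with hLdef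
  have hL1 : 1 ≤ L := Real.one_le_exp (by positivity)
  have hL0 : 0 < L := by linarith
  set h := (r + 3) / 2 with hh
  let Good : Finset X → Finset Y → Prop := fun A' B' =>
    A' ⊆ A ∧ B' ⊆ B ∧ ∃ M' : X → Y → ℝ, RK h M' ∧ ∀ x ∈ A', ∀ y ∈ B', M' x y = M x y
  have hG0 : Good ∅ ∅ := by
    refine ⟨Finset.empty_subset _, Finset.empty_subset _, fun _ _ => 0, ?_, by simp⟩
    exact ⟨fun _ _ => 0, fun _ _ => 0, by simp⟩
  have hE : ∀ A1 ⊆ A, ∀ B1 ⊆ B, A1.Nonempty → B1.Nonempty → ∃ A' ⊆ A1, ∃ B' ⊆ B1,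
      (A1.card : ℝ) * B1.card ≤ L * (A'.card * B'.card) ∧ (Good A' B1 ∨ Good A1 B') := by
    intro A1 hA1 B1 hB1 hn1 hn2
    obtain ⟨A', hA', B', hB', -, -, hc, k, -, hk⟩ := hC X Y (Fin q) Finset.univ (by simp) A1 B1
      hn1 hn2 M hM (fun k x => ρ x k) (fun _ _ => 0) (fun a ha b hb => by
        obtain ⟨j, hj⟩ := hl a (hA1 ha) b (hB1 hb)
        exact ⟨j, Finset.mem_univ _, by simpa using hj⟩)
    refine ⟨A', hA', B', hB', hc, ?_⟩
    have hN : RK (r + 1) (fun x y => M x y + (- ρ x k)) := RK.add hM (RK.row _)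
    obtain ⟨r1, r2, hsum, ⟨N1, hN1, hN1'⟩, ⟨N2, hN2, hN2'⟩⟩ := split (r + 1) _ hN (A' : Set X)
      (B' : Set Y) (fun a ha b hb => by
        have := hk a ha b hb
        simp only [add_zero] at this
        rw [this]
        ring)
    by_cases h12 : r1 + 1 ≤ h
    · left
      refine ⟨hA'.trans hA1, hB1, fun x y => N1 x y + ρ x k, (RK.add hN1 (RK.row _)).mono h12,
        fun x hx y _ => ?_⟩
      have e := hN1' x hx y
      simp only at e ⊢
      rw [e]
      ring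
    · right
      have h22 : r2 + 1 ≤ h := by omega
      refine ⟨hA1, hB'.trans hB1, fun x y => N2 x y + ρ x k, (RK.add hN2 (RK.row _)).mono h22,
        fun x _ y hy => ?_⟩
      have e := hN2' x y hy
      simp only at e ⊢
      rw [e]
      ring
  have hlt : (A.card : ℝ) * B.card * (1 - 1 / L) ^ T < 1 := by
    have h1 : (1 - 1 / L) ≤ Real.exp (-(1 / L)) := by
      have := Real.add_one_le_exp (-(1 / L))
      linarith
    have h0 : 0 ≤ 1 - 1 / L := by
      have : 1 / L ≤ 1 := by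
        rw [div_le_one hL0]
        exact hL1
      linarith
    have h2 : (1 - 1 / L) ^ T ≤ Real.exp (-(T / L)) := by
      calc (1 - 1 / L) ^ T ≤ (Real.exp (-(1 / L))) ^ T := pow_le_pow_left₀ h0 h1 T
        _ = Real.exp (-(T / L)) := by
          rw [← Real.exp_nat_mul]
          congr 1
          ring
    calc (A.card : ℝ) * B.card * (1 - 1 / L) ^ T ≤ Real.exp N * Real.exp (-(T / L)) :=
          mul_le_mul hcard h2 (pow_nonneg h0 _) (Real.exp_pos _).le
      _ = Real.exp (N - T / L) := by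
          rw [← Real.exp_add]
          congr 1
      _ < 1 := by
          rw [Real.exp_lt_one_iff]
          have : N < T / L := by
            rw [lt_div_iff₀ hL0]
            linarith
          linarith
  obtain ⟨α, β, R, hα, hβ, hR, hcov⟩ := elim Good hG0 A B L hL1 hE T A B subset_rfl subset_rfl hlt
  refine Solves.sendX _ (fun x => (⟨α x, Nat.lt_succ_of_le (hα x)⟩ : Fin (T + 1))) w
    (by simpa using hw) (fun i x y j => α x = i.1 → x ∈ A → y ∈ B → M x y = ρ x j) _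
    (fun i => ?_) (fun x y z hz => hz rfl)
  refine Solves.sendY _ (fun y => (⟨β y, Nat.lt_succ_of_le (hβ y)⟩ : Fin (T + 1))) w
    (by simpa using hw)
    (fun i' x y j => β y = i'.1 → α x = i.1 → x ∈ A → y ∈ B → M x y = ρ x j) _
    (fun i' => ?_) (fun x y z hz => hz rfl)
  obtain ⟨g1, g2, M', hM', hMM⟩ := hR (min i.1 i'.1)
  have := ih X Y (R (min i.1 i'.1)).1 (R (min i.1 i'.1)).2 M' ρ hM' (fun x hx y hy => by
    rw [hMM x hx y hy]
    exact hl x (g1 hx) y (g2 hy)) (by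
      refine le_trans ?_ hcard
      have e1 : (((R (min i.1 i'.1)).1.card : ℕ) : ℝ) ≤ A.card := by
        exact_mod_cast Finset.card_le_card g1
      have e2 : (((R (min i.1 i'.1)).2.card : ℕ) : ℝ) ≤ B.card := by
        exact_mod_cast Finset.card_le_card g2
      exact mul_le_mul e1 e2 (Nat.cast_nonneg _) (Nat.cast_nonneg _))
  refine this.weaken fun x y z hz hy' hx' hx hy => ?_
  have hc := hcov x hx y hy
  rw [hx', hy'] at hc
  rw [← hMM x hc.1 y hc.2]
  exact hz hc.1 hc.2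

end Pool.Agent.X18.Comm
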