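import Pool.Agent.X18.Comm3

/-!
Protocols for low-rank matrices with few entries per row: the cost of the recursion and the reduction
of the number of rows and columns.
-/

set_option autoImplicit false

namespace Pool.Agent.X18.Comm

open Finset Pool.Agent.Helper433

lemma rpow_contract (h r : ℝ) (hh : 0 ≤ h) (hr : 0 ≤ r) (hle : h ≤ 0.6 * r) :
    h ^ (3 / 4 : ℝ) ≤ 3 / 4 * r ^ (3 / 4 : ℝ) := by
  have h1 : h ^ (3 / 4 : ℝ) ≤ (0.6 * r) ^ (3 / 4 : ℝ) :=
    Real.rpow_le_rpow hh hle (by norm_num)
  rw [Real.mul_rpow (by norm_num) hr] at h1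
  have h2 : (0.6 : ℝ) ^ (3 / 4 : ℝ) ≤ 3 / 4 := by
    have e : (0.6 : ℝ) ^ (3 / 4 : ℝ) = ((0.6 : ℝ) ^ (3 : ℕ)) ^ (1 / 4 : ℝ) := by
      rw [← Real.rpow_natCast, ← Real.rpow_mul (by norm_num)]
      norm_num
    have e2 : (3 / 4 : ℝ) = ((3 / 4 : ℝ) ^ (4 : ℕ)) ^ (1 / 4 : ℝ) := by
      rw [← Real.rpow_natCast, ← Real.rpow_mul (by norm_num)]
      norm_num
    rw [e]
    conv_rhs => rw [e2]
    exact Real.rpow_le_rpow (by norm_num) (by norm_num) (by norm_num)
  exact h1.trans (mul_le_mul_of_nonneg_right h2 (by positivity))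

lemma rec_bound (q : ℕ) (hq : 0 < q) : ∃ K : ℝ, 0 ≤ K ∧ ∀ r : ℕ, 1 ≤ r → ∀ N : ℝ, 0 ≤ N →
    ∃ c : ℕ, (c : ℝ) ≤ K * (r : ℝ) ^ (3 / 4 : ℝ) + 32 * Real.log (N + 2) * Real.log r + K ∧
      Claim q r N c := by
  obtain ⟨C, hC0, hC⟩ := gl q
  refine ⟨16 * C + 16 * q, by positivity, ?_⟩
  intro r
  induction r using Nat.strong_induction_on with
  | _ r ih =>
    intro hr N hN
    have hr1 : (1 : ℝ) ≤ r := by exact_mod_cast hr
    have hlogr : 0 ≤ Real.log r := Real.log_nonneg hr1
    have hlog2 : (1 : ℝ) / 2 ≤ Real.log 2 := by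
      have := Real.log_two_gt_d9
      linarith
    have hD : Real.log 2 ≤ Real.log (N + 2) := Real.log_le_log (by norm_num) (by linarith)
    set D := Real.log (N + 2) with hDdef
    set x := (r : ℝ) ^ (3 / 4 : ℝ) with hx
    have hx0 : 0 ≤ x := by positivity
    rcases Nat.lt_or_ge r 15 with hlt | hge
    · refine ⟨q + r * q, ?_, base q r hq N⟩
      have h1 : ((q + r * q : ℕ) : ℝ) ≤ 16 * q := by
        have : q + r * q ≤ 16 * q := by nlinarith
        exact_mod_cast this
      have h2 : 0 ≤ (16 * C + 16 * q) * x := by positivity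
      have h3 : 0 ≤ 32 * D * Real.log r := by
        have : 0 ≤ D := by linarith
        positivity
      nlinarith
    · have hh1 : 1 ≤ (r + 3) / 2 := by omega
      have hh2 : (r + 3) / 2 < r := by omega
      obtain ⟨c, hc, hcl⟩ := ih ((r + 3) / 2) hh2 hh1 N hN
      set h := (r + 3) / 2 with hh
      have hhr : (h : ℝ) ≤ 0.6 * r := by
        have h1 : 2 * h ≤ r + 3 := by omega
        have h2 : (2 : ℝ) * h ≤ r + 3 := by exact_mod_cast h1
        have h3 : (15 : ℝ) ≤ r := by exact_mod_cast hge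
        linarith
      have hh0 : (1 : ℝ) ≤ h := by exact_mod_cast hh1
      have hpow := rpow_contract h r (by linarith) (by linarith) hhr
      rw [← hx] at hpow
      have hlogh : Real.log h ≤ Real.log r - 0.4 := by
        have h1 : Real.log h ≤ Real.log (0.6 * r) := Real.log_le_log (by linarith) hhr
        rw [Real.log_mul (by norm_num) (by positivity)] at h1
        have h2 : Real.log 0.6 ≤ 0.6 - 1 := Real.log_le_sub_one_of_pos (by norm_num)
        linarith
      set L := Real.exp (C * x) with hL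
      have hL1 : 1 ≤ L := Real.one_le_exp (by positivity)
      set T : ℕ := ⌊L * N⌋₊ + 1 with hT
      set w : ℕ := ⌈(C * x + D) / Real.log 2⌉₊ with hw
      have hTlt : L * N < T := by
        rw [hT]
        push_cast
        exact Nat.lt_floor_add_one _
      have hTle : (T : ℝ) + 1 ≤ L * (N + 2) := by
        have h1 : ((⌊L * N⌋₊ : ℕ) : ℝ) ≤ L * N := Nat.floor_le (by positivity)
        rw [hT]
        push_cast
        nlinarith
      have hw1 : (C * x + D) ≤ w * Real.log 2 := by
        have h1 : (C * x + D) / Real.log 2 ≤ w := Nat.le_ceil _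
        rw [div_le_iff₀ (by linarith)] at h1
        exact h1
      have hTw : T + 1 ≤ 2 ^ w := by
        have h1 : ((T + 1 : ℕ) : ℝ) ≤ ((2 ^ w : ℕ) : ℝ) := by
          push_cast
          refine hTle.trans ?_
          have e1 : N + 2 = Real.exp D := by
            rw [hDdef, Real.exp_log (by linarith)]
          rw [e1, hL, ← Real.exp_add]
          have e2 : (2 : ℝ) ^ w = Real.exp (w * Real.log 2) := by
            rw [Real.exp_nat_mul, Real.exp_log (by norm_num)]
          rw [e2]
          exact Real.exp_le_exp.mpr hw1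
        exact_mod_cast h1
      have hwle : (w : ℝ) ≤ 2 * C * x + 4 * D := by
        have h1 : (w : ℝ) < (C * x + D) / Real.log 2 + 1 :=
          Nat.ceil_lt_add_one (by
            have : 0 ≤ D := by linarith
            have : 0 ≤ Real.log 2 := by linarith
            positivity)
        have h2 : (C * x + D) / Real.log 2 ≤ 2 * (C * x + D) := by
          rw [div_le_iff₀ (by linarith)]
          have h3 : 0 ≤ C * x + D := by
            have : 0 ≤ D := by linarith
            positivity
          nlinarith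
        have h4 : 1 ≤ 2 * D := by linarith
        linarith
      refine ⟨c + w + w, ?_, step q hq C r hr (hC r hr) hC0 N T w c hTlt hTw hcl⟩
      push_cast
      have hD0 : 0 ≤ D := by linarith
      have hDh : 32 * D * Real.log h ≤ 32 * D * (Real.log r - 0.4) :=
        mul_le_mul_of_nonneg_left hlogh (by positivity)
      have hKh : (16 * C + 16 * q) * (h : ℝ) ^ (3 / 4 : ℝ) ≤ (16 * C + 16 * q) * (3 / 4 * x) :=
        mul_le_mul_of_nonneg_left hpow (by positivity)
      have hq0 : (0 : ℝ) ≤ q * x := by positivity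
      have hCx : (0 : ℝ) ≤ C * x := by positivity
      nlinarith

/-- The number of different rows that have to be considered. -/
lemma rows {X Y : Type} [Nonempty Y] (q r : ℕ) (M : X → Y → ℝ) (ρ : X → Fin q → ℝ)
    (hM : RK r M) (J : X → Y → Fin q) (hJ : ∀ x y, M x y = ρ x (J x y)) :
    ∃ cl : X → (Fin (r + q) → Y × Fin q), ∀ x x', cl x = cl x' → ∀ y, M x' y = ρ x' (J x y) := by
  classical
  obtain ⟨c, φ, h⟩ := hM
  let vec : Y × Fin q → (Fin r ⊕ Fin q → ℝ) := fun p =>
    Sum.elim (fun i => φ i p.1) (fun k => if k = p.2 then -1 else 0)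
  let dot : X → (Fin r ⊕ Fin q → ℝ) → ℝ := fun x f =>
    (∑ i, c x i * f (Sum.inl i)) + ∑ k, ρ x k * f (Sum.inr k)
  have hdot : ∀ x p, dot x (vec p) = M x p.1 - ρ x p.2 := by
    intro x p
    simp only [dot, vec, Sum.elim_inl, Sum.elim_inr, ← h]
    simp [Finset.sum_ite_eq', sub_eq_add_neg]
  have hs : ∀ x, ∃ s : Fin (r + q) → Y, ∀ y, vec (y, J x y) ∈
      Submodule.span ℝ (Set.range fun k => vec (s k, J x (s k))) := by
    intro x
    exact span_pick (r + q) (fun y => vec (y, J x y)) ⊤ (by simp) (fun _ => Submodule.mem_top)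
  choose s hs using hs
  refine ⟨fun x k => (s x k, J x (s x k)), ?_⟩
  intro x x' hxx y
  have key : ∀ f ∈ Submodule.span ℝ (Set.range fun k => vec (s x k, J x (s x k))), dot x' f = 0 := by
    intro f hf
    induction hf using Submodule.span_induction with
    | mem f hf =>
      obtain ⟨k, rfl⟩ := hf
      have e := congrFun hxx k
      simp only at e ⊢
      rw [e, hdot]
      simp only
      rw [hJ x' (s x' k)]
      ring
    | zero => simp [dot]
    | add f g _ _ hf hg =>
      simp only [dot, Pi.add_apply, mul_add, Finset.sum_add_distrib] at hf hg ⊢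
      linarith
    | smul t f _ hf =>
      simp only [dot, Pi.smul_apply, smul_eq_mul] at hf ⊢
      have e1 : ∑ i, c x' i * (t * f (Sum.inl i)) = t * ∑ i, c x' i * f (Sum.inl i) := by
        rw [Finset.mul_sum]
        exact Finset.sum_congr rfl fun i _ => by ring
      have e2 : ∑ k, ρ x' k * (t * f (Sum.inr k)) = t * ∑ k, ρ x' k * f (Sum.inr k) := by
        rw [Finset.mul_sum]
        exact Finset.sum_congr rfl fun i _ => by ring
      rw [e1, e2, ← mul_add, hf, mul_zero]
  have := key _ (hs x y)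
  rw [hdot] at this
  simp only at this
  linarith

/-- A vector of a subspace two of whose coordinates agree only if they agree on the subspace. -/
lemma generic (q : ℕ) (p : Submodule ℝ (Fin q → ℝ)) :
    ∃ w ∈ p, ∀ k l, w k = w l → ∀ v ∈ p, v k = v l := by
  classical
  let ι := {kl : Fin q × Fin q // ∃ v ∈ p, v kl.1 ≠ v kl.2}
  let f : ι → Module.Dual ℝ (Fin q → ℝ) := fun kl =>
    (LinearMap.proj kl.1.1 : (Fin q → ℝ) →ₗ[ℝ] ℝ) - (LinearMap.proj kl.1.2 : (Fin q → ℝ) →ₗ[ℝ] ℝ)
  obtain ⟨w, hw, hne⟩ := Module.Dual.exists_forall_mem_ne_zero_of_forall_exists p f (by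
    rintro ⟨kl, v, hv, hvn⟩
    refine ⟨v, hv, ?_⟩
    simpa [f, sub_ne_zero] using hvn)
  refine ⟨w, hw, fun k l hkl v hv => ?_⟩
  by_contra hcon
  have := hne ⟨(k, l), v, hv, hcon⟩
  apply this
  simp [f, hkl]

end Pool.Agent.X18.Comm
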