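import Pool.Agent.X18.Comm4

/-!
Protocols for low-rank matrices with few entries per row: the final bound.
-/

set_option autoImplicit false

namespace Pool.Agent.X18.Comm

open Finset Pool.Agent.Helper433

lemma log_bound (q r : ℕ) (hr : 1 ≤ r) (K : ℝ) (N : ℝ)
    (hN : N = q * ((r + 1) * (r + q) + r)) :
    K * (r : ℝ) ^ (3 / 4 : ℝ) + 32 * Real.log (N + 2) * Real.log r + K ≤
      (2 * |K| + 32 * (3 * (q * (2 * q + 3) + 2) + 18)) * (r : ℝ) ^ (3 / 4 : ℝ) := by
  have hr1 : (1 : ℝ) ≤ r := by exact_mod_cast hr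
  have hq0 : (0 : ℝ) ≤ q := Nat.cast_nonneg q
  set a : ℝ := q * (2 * q + 3) + 2 with ha
  have ha0 : 2 ≤ a := by
    have : (0 : ℝ) ≤ q * (2 * q + 3) := by positivity
    linarith
  set s := (r : ℝ) ^ (3 / 8 : ℝ) with hs
  have hs1 : 1 ≤ s := Real.one_le_rpow hr1 (by norm_num)
  have hss : (r : ℝ) ^ (3 / 4 : ℝ) = s * s := by
    rw [hs, ← Real.rpow_add (by linarith)]
    norm_num
  have hlogr : Real.log r ≤ 3 * s := by
    have := Real.log_le_rpow_div (x := (r : ℝ)) (ε := 3 / 8) (by linarith) (by norm_num)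
    rw [← hs] at this
    have e : s / (3 / 8) = 8 / 3 * s := by ring
    rw [e] at this
    linarith
  have hlogr0 : 0 ≤ Real.log r := Real.log_nonneg hr1
  have hNa : N + 2 ≤ a * r ^ 2 := by
    rw [hN, ha]
    have e1 : (r : ℝ) + 1 ≤ 2 * r := by linarith
    have e2 : (r : ℝ) + q ≤ r * (1 + q) := by nlinarith
    have e3 : ((r : ℝ) + 1) * (r + q) ≤ (2 * r) * (r * (1 + q)) :=
      mul_le_mul e1 e2 (by positivity) (by positivity)
    have e4 : (r : ℝ) ≤ r ^ 2 := by nlinarith
    have e5 : ((r : ℝ) + 1) * (r + q) + r ≤ r ^ 2 * (2 * q + 3) := by nlinarith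
    have e6 : (q : ℝ) * (((r : ℝ) + 1) * (r + q) + r) ≤ q * (r ^ 2 * (2 * q + 3)) :=
      mul_le_mul_of_nonneg_left e5 hq0
    nlinarith
  have hN0 : 0 ≤ N := by
    rw [hN]
    positivity
  have hlogN : Real.log (N + 2) ≤ a + 6 * s := by
    have h1 : Real.log (N + 2) ≤ Real.log (a * r ^ 2) := Real.log_le_log (by linarith) hNa
    rw [Real.log_mul (by linarith) (by positivity), Real.log_pow] at h1
    have h2 : Real.log a ≤ a - 1 := Real.log_le_sub_one_of_pos (by linarith)
    push_cast at h1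
    linarith
  have hlogN0 : 0 ≤ Real.log (N + 2) := Real.log_nonneg (by linarith)
  have hprod : Real.log (N + 2) * Real.log r ≤ (a + 6 * s) * (3 * s) :=
    mul_le_mul hlogN hlogr hlogr0 (by positivity)
  have hprod2 : (a + 6 * s) * (3 * s) ≤ (3 * a + 18) * (s * s) := by
    have h1 : s ≤ s * s := by nlinarith
    have h2 : 3 * a * s ≤ 3 * a * (s * s) := mul_le_mul_of_nonneg_left h1 (by linarith)
    nlinarith
  have hK1 : K * (s * s) ≤ |K| * (s * s) :=
    mul_le_mul_of_nonneg_right (le_abs_self K) (by positivity)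
  have hK2 : K ≤ |K| * (s * s) := by
    have h1 : K ≤ |K| := le_abs_self K
    have h2 : |K| * 1 ≤ |K| * (s * s) :=
      mul_le_mul_of_nonneg_left (by nlinarith) (abs_nonneg K)
    linarith
  rw [hss]
  nlinarith

/-- Matrices of rank at most `r` with at most `q` different entries in each row. -/
theorem lists (q : ℕ) (hq : 0 < q) : ∃ K : ℝ, 0 ≤ K ∧ ∀ r : ℕ, 1 ≤ r →
    ∀ (X Y : Type) [Fintype X] [Fintype Y] (M : X → Y → ℝ) (ρ : X → Fin q → ℝ), RK r M →
    (∀ x y, ∃ j, M x y = ρ x j) →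
    ∃ c : ℕ, (c : ℝ) ≤ K * (r : ℝ) ^ (3 / 4 : ℝ) ∧ Solves (fun x y j => M x y = ρ x j) c := by
  classical
  obtain ⟨K, hK0, hK⟩ := rec_bound q hq
  refine ⟨2 * |K| + 32 * (3 * (q * (2 * q + 3) + 2) + 18), by positivity, ?_⟩
  intro r hr X Y _ _ M ρ hM hl
  have : Nonempty (Fin q) := ⟨⟨0, hq⟩⟩
  rcases isEmpty_or_nonempty Y with hY | hY
  · refine ⟨0, ?_, Solves.const ⟨0, hq⟩ fun x y => hY.elim y⟩
    push_cast
    positivity
  -- the classes of columns
  obtain ⟨γ, hγ⟩ := cols Finset.univ Finset.univ q r hq M ρ hM (fun x _ y _ => hl x y)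
  let Y' := {g : Fin r → Fin q // ∃ y, γ y = g}
  let γ' : Y → Y' := fun y => ⟨γ y, y, rfl⟩
  let rep : Y' → Y := fun g => g.2.choose
  have hrep : ∀ g, γ (rep g) = g.1 := fun g => g.2.choose_spec
  have hM1 : ∀ x y, M x y = M x (rep (γ' y)) := by
    intro x y
    exact hγ y (Finset.mem_univ _) _ (Finset.mem_univ _) (hrep (γ' y)).symm x (Finset.mem_univ _)
  have : Nonempty Y' := hY.map γ'
  let M1 : X → Y' → ℝ := fun x g => M x (rep g)
  have hRK1 : RK r M1 := by
    obtain ⟨c, φ, h⟩ := hM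
    exact ⟨c, fun i g => φ i (rep g), fun x g => h x (rep g)⟩
  have hJ : ∀ x g, ∃ j, M1 x g = ρ x j := fun x g => hl x (rep g)
  choose J hJ using hJ
  -- the classes of rows
  obtain ⟨cl, hcl⟩ := rows q r M1 ρ hRK1 J hJ
  let X' := {S : Fin (r + q) → Y' × Fin q // ∃ x, cl x = S}
  let cl' : X → X' := fun x => ⟨cl x, x, rfl⟩
  let rep' : X' → X := fun S => S.2.choose
  have hrep' : ∀ S, cl (rep' S) = S.1 := fun S => S.2.choose_spec
  obtain ⟨c1, φ1, h1⟩ := hRK1
  set V := Submodule.span ℝ (Set.range φ1) with hV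
  have hfd : FiniteDimensional ℝ V := FiniteDimensional.span_of_finite ℝ (Set.finite_range φ1)
  let p : X' → Submodule ℝ (Fin q → ℝ) := fun S =>
    Submodule.comap (LinearMap.funLeft ℝ ℝ (J (rep' S))) V
  choose w hwp hw using fun S => generic q (p S)
  let M2 : X' → Y' → ℝ := fun S g => w S (J (rep' S) g)
  have hRK2 : RK r M2 := RK_of_rows V (span_finrank φ1) (fun S => hwp S)
  set N : ℝ := q * ((r + 1) * (r + q) + r) with hN
  have hN0 : 0 ≤ N := by
    rw [hN]
    positivity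
  obtain ⟨c, hc, hcl2⟩ := hK r hr N hN0
  refine ⟨c, hc.trans (log_bound q r hr K N hN), ?_⟩
  have hcard : (((Finset.univ : Finset X').card : ℕ) : ℝ) * (Finset.univ : Finset Y').card ≤
      Real.exp N := by
    have e1 : (Finset.univ : Finset Y').card ≤ q ^ r := by
      rw [Finset.card_univ]
      refine (Fintype.card_subtype_le _).trans ?_
      simp
    have e2 : (Finset.univ : Finset X').card ≤ (q ^ r * q) ^ (r + q) := by
      rw [Finset.card_univ]
      refine (Fintype.card_subtype_le _).trans ?_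
      rw [Fintype.card_fun, Fintype.card_fin, Fintype.card_prod, Fintype.card_fin,
        ← Finset.card_univ]
      exact Nat.pow_le_pow_left (Nat.mul_le_mul_right _ e1) _
    have e3 : (Finset.univ : Finset X').card * (Finset.univ : Finset Y').card ≤
        q ^ ((r + 1) * (r + q) + r) := by
      refine (Nat.mul_le_mul e2 e1).trans (le_of_eq ?_)
      rw [← pow_succ, ← pow_mul, ← pow_add]
    have e4 : (((Finset.univ : Finset X').card : ℕ) : ℝ) * (Finset.univ : Finset Y').card ≤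
        (q : ℝ) ^ ((r + 1) * (r + q) + r) := by exact_mod_cast e3
    refine e4.trans ?_
    have e5 : (q : ℝ) ≤ Real.exp q := by
      have := Real.add_one_le_exp (q : ℝ)
      linarith
    refine (pow_le_pow_left₀ (Nat.cast_nonneg q) e5 _).trans (le_of_eq ?_)
    rw [← Real.exp_nat_mul, hN]
    congr 1
    push_cast
    ring
  have hsol := hcl2 X' Y' Finset.univ Finset.univ M2 w hRK2 (fun S _ g _ => ⟨_, rfl⟩) hcard
  refine (hsol.comap cl' γ').weaken fun x y j hj => ?_
  have hj' := hj (Finset.mem_univ _) (Finset.mem_univ _)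
  have hx : ∀ g, M1 x g = ρ x (J (rep' (cl' x)) g) := fun g => hcl (rep' (cl' x)) x
    (hrep' (cl' x)) g
  have hmem : ρ x ∈ p (cl' x) := by
    show (LinearMap.funLeft ℝ ℝ (J (rep' (cl' x)))) (ρ x) ∈ V
    have : (LinearMap.funLeft ℝ ℝ (J (rep' (cl' x)))) (ρ x) = M1 x := by
      funext g
      rw [LinearMap.funLeft_apply]
      exact (hx g).symm
    rw [this]
    exact row_mem c1 φ1 h1 x
  rw [hM1 x y]
  show M1 x (γ' y) = ρ x j
  rw [hx]
  exact hw (cl' x) _ _ hj' _ hmem

end Pool.Agent.X18.Comm
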