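import Pool.Agent.W851.Had.Tower

/-!
Hadamard matrices with a semiregular group of automorphisms: the induction over cyclic windows.
-/

set_option autoImplicit false

namespace Pool.Agent.X18.HadG

open Finset Matrix Pool.Agent.H108R3.Had

/-- the aperiodic correlations of a para-unitary matrix polynomial -/
theorem corr {κ : Type} [Fintype κ] [DecidableEq κ] {S : ℕ} {W : ℕ → κ → κ → ℤ} (hW : IsPU S W)
    (i i' : κ) (d : ℤ) :
    ∑ j, ∑ n ∈ range S, ∑ m ∈ range S, (W n i j * W m i' j) *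
      (if (n : ℤ) - m = d then 1 else 0) =
      if i = i' ∧ d = 0 then ((Fintype.card κ * S : ℕ) : ℤ) else 0 := by
  let u : AddMonoidAlgebra ℤ ℤ := AddMonoidAlgebra.single 1 1
  let v : AddMonoidAlgebra ℤ ℤ := AddMonoidAlgebra.single (-1) 1
  have huv : u * v = 1 := by
    change AddMonoidAlgebra.single (1 : ℤ) (1 : ℤ) * AddMonoidAlgebra.single (-1) 1 = 1
    rw [AddMonoidAlgebra.single_mul_single, add_neg_cancel, mul_one]
    rfl
  have h := hW.left (AddMonoidAlgebra ℤ ℤ) u v huv
  have h1 := congrFun (congrFun h i) i'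
  rw [Matrix.mul_apply] at h1
  have h2 : ∀ n m : ℕ, u ^ n * v ^ m = AddMonoidAlgebra.single ((n : ℤ) - m) (1 : ℤ) := by
    intro n m
    change AddMonoidAlgebra.single (1 : ℤ) (1 : ℤ) ^ n *
      AddMonoidAlgebra.single (-1 : ℤ) (1 : ℤ) ^ m = _
    rw [AddMonoidAlgebra.single_pow, AddMonoidAlgebra.single_pow,
      AddMonoidAlgebra.single_mul_single, one_pow, one_pow, mul_one]
    congr 1
    rw [nsmul_eq_mul, nsmul_eq_mul, mul_one, mul_neg, mul_one, sub_eq_add_neg]
  have h3 : ∀ j, evM W S u i j * (evM W S v)ᵀ j i' = ∑ n ∈ range S, ∑ m ∈ range S,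
      (W n i j * W m i' j) • AddMonoidAlgebra.single ((n : ℤ) - m) (1 : ℤ) := by
    intro j
    change (∑ n ∈ range S, ((W n i j : ℤ) : AddMonoidAlgebra ℤ ℤ) * u ^ n) *
      (∑ n ∈ range S, ((W n i' j : ℤ) : AddMonoidAlgebra ℤ ℤ) * v ^ n) = _
    rw [Finset.sum_mul_sum]
    refine Finset.sum_congr rfl fun n _ => Finset.sum_congr rfl fun m _ => ?_
    rw [← h2, zsmul_eq_mul, Int.cast_mul]
    ring
  have h4 := congrArg (fun x : AddMonoidAlgebra ℤ ℤ => x.coeff d) h1
  simp only [h3] at h4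
  have h5 : ∀ (z : ℤ) (n m : ℕ), (z • AddMonoidAlgebra.single ((n : ℤ) - m) (1 : ℤ)).coeff d =
      z * (if (n : ℤ) - m = d then 1 else 0) := by
    intro z n m
    rw [AddMonoidAlgebra.coeff_smul_apply, AddMonoidAlgebra.coeff_single, Finsupp.single_apply, smul_eq_mul]
  simp only [AddMonoidAlgebra.coeff_sum, Finsupp.finsetSum_apply, h5] at h4
  rw [h4, Matrix.smul_apply, Matrix.one_apply]
  have h6 : ((Fintype.card κ * S : ℕ) : AddMonoidAlgebra ℤ ℤ) =
      AddMonoidAlgebra.single 0 ((Fintype.card κ * S : ℕ) : ℤ) := by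
    rw [AddMonoidAlgebra.natCast_def]
  by_cases hi : i = i'
  · rw [if_pos hi, smul_eq_mul, mul_one, h6, AddMonoidAlgebra.coeff_single, Finsupp.single_apply]
    by_cases hd : d = 0
    · rw [if_pos hd.symm, if_pos ⟨hi, hd⟩]
    · rw [if_neg (Ne.symm hd), if_neg (fun h => hd h.2)]
  · rw [if_neg hi, if_neg (fun h => hi h.1), smul_zero]
    rfl

/-- a family of sign matrices indexed by the group whose translates are orthogonal -/
def GH (κ G : Type) [Fintype κ] [DecidableEq κ] [Group G] [Fintype G] [DecidableEq G] : Prop :=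
  ∃ f : G → κ → κ → ℤ, (∀ g i j, f g i j = 1 ∨ f g i j = -1) ∧
    ∀ g i i', ∑ j, ∑ h, f (g * h) i j * f h i' j =
      if i = i' ∧ g = 1 then ((Fintype.card κ * Fintype.card G : ℕ) : ℤ) else 0

/-- sum over group elements given by windows -/
theorem corr_group {κ G : Type} [Fintype κ] [DecidableEq κ] [Group G] [DecidableEq G] {S : ℕ}
    {W : ℕ → κ → κ → ℤ} (hW : IsPU S W) (x : G)
    (i i' : κ) (g : G) :
    ∑ j, ∑ n ∈ range S, ∑ m ∈ range S, (W n i j * W m i' j) *
      (if x ^ n * (x ^ m)⁻¹ = g then 1 else 0) =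
      if i = i' ∧ g = 1 then ((Fintype.card κ * S : ℕ) : ℤ) else 0 := by
  -- sum over the exponents d
  have h1 : ∀ n ∈ range S, ∀ m ∈ range S, (if x ^ n * (x ^ m)⁻¹ = g then (1 : ℤ) else 0) =
      ∑ d ∈ Finset.Icc (-(S : ℤ)) S, (if x ^ d = g then 1 else 0) * (if (n : ℤ) - m = d then 1 else 0) := by
    intro n hn m hm
    rw [mem_range] at hn hm
    have hmem : (n : ℤ) - m ∈ Finset.Icc (-(S : ℤ)) S := by
      rw [Finset.mem_Icc]; constructor <;> omega
    rw [Finset.sum_eq_single_of_mem _ hmem]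
    · rw [if_pos rfl, mul_one, _root_.zpow_sub, _root_.zpow_natCast, _root_.zpow_natCast]
    · intro b _ hb
      rw [if_neg (Ne.symm hb), mul_zero]
  have h2 : ∑ j, ∑ n ∈ range S, ∑ m ∈ range S, (W n i j * W m i' j) *
      (if x ^ n * (x ^ m)⁻¹ = g then 1 else 0) =
      ∑ d ∈ Finset.Icc (-(S : ℤ)) S, (if x ^ d = g then 1 else 0) *
        ∑ j, ∑ n ∈ range S, ∑ m ∈ range S, (W n i j * W m i' j) *
          (if (n : ℤ) - m = d then 1 else 0) := by
    calc _ = ∑ j, ∑ n ∈ range S, ∑ m ∈ range S, ∑ d ∈ Finset.Icc (-(S : ℤ)) S,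
          (if x ^ d = g then 1 else 0) * ((W n i j * W m i' j) * (if (n : ℤ) - m = d then 1 else 0)) := by
          refine Finset.sum_congr rfl fun j _ => Finset.sum_congr rfl fun n hn =>
            Finset.sum_congr rfl fun m hm => ?_
          rw [h1 n hn m hm, Finset.mul_sum]
          refine Finset.sum_congr rfl fun d _ => ?_
          ring
      _ = ∑ j, ∑ n ∈ range S, ∑ d ∈ Finset.Icc (-(S : ℤ)) S, ∑ m ∈ range S,
          (if x ^ d = g then 1 else 0) * ((W n i j * W m i' j) * (if (n : ℤ) - m = d then 1 else 0)) := by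
          refine Finset.sum_congr rfl fun j _ => Finset.sum_congr rfl fun n hn => Finset.sum_comm
      _ = ∑ j, ∑ d ∈ Finset.Icc (-(S : ℤ)) S, ∑ n ∈ range S, ∑ m ∈ range S,
          (if x ^ d = g then 1 else 0) * ((W n i j * W m i' j) * (if (n : ℤ) - m = d then 1 else 0)) := by
          refine Finset.sum_congr rfl fun j _ => Finset.sum_comm
      _ = ∑ d ∈ Finset.Icc (-(S : ℤ)) S, ∑ j, ∑ n ∈ range S, ∑ m ∈ range S,
          (if x ^ d = g then 1 else 0) * ((W n i j * W m i' j) * (if (n : ℤ) - m = d then 1 else 0)) :=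
          Finset.sum_comm
      _ = _ := by
          simp only [Finset.mul_sum]
  rw [h2]
  simp only [corr hW]
  have hmem : (0 : ℤ) ∈ Finset.Icc (-(S : ℤ)) S := by
    rw [Finset.mem_Icc]; constructor <;> omega
  rw [Finset.sum_eq_single_of_mem 0 hmem]
  · rw [_root_.zpow_zero]
    by_cases hi : i = i'
    · by_cases hg : g = 1
      · simp [hi, hg]
      · simp [hi, hg, Ne.symm hg]
    · simp [hi]
  · intro b _ hb
    have h3 : (if i = i' ∧ b = 0 then ((Fintype.card κ * S : ℕ) : ℤ) else 0) = 0 :=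
      if_neg (fun h => hb h.2)
    rw [h3, mul_zero]

/-- one window -/
theorem step {ι κ G : Type} [Fintype ι] [DecidableEq ι] [Fintype κ] [DecidableEq κ] [Group G]
    [Fintype G] [DecidableEq G] (K : Subgroup G) [Fintype K] {S : ℕ} (x : G)
    (hx : Function.Bijective (fun p : Fin S × K => x ^ (p.1 : ℕ) * (p.2 : G)))
    (hPU : PU ι S) (hK : GH κ K) : GH (ι × κ) G := by
  obtain ⟨W, hW⟩ := hPU
  obtain ⟨f, hf, hff⟩ := hK
  let e : Fin S × K ≃ G := Equiv.ofBijective _ hx
  have he : ∀ p, e p = x ^ (p.1 : ℕ) * (p.2 : G) := fun p => rfl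
  have hcard : Fintype.card G = S * Fintype.card K := by
    rw [← Fintype.card_congr e, Fintype.card_prod, Fintype.card_fin]
  refine ⟨fun g a b => W (e.symm g).1 a.1 b.1 * f (e.symm g).2 a.2 b.2, ?_, ?_⟩
  · intro g a b
    dsimp only
    rcases hW.sign _ (e.symm g).1.2 a.1 b.1 with h1 | h1 <;> rcases hf (e.symm g).2 a.2 b.2 with h2 | h2 <;>
      rw [h1, h2] <;> simp
  · intro g a a'
    dsimp only
    -- rewrite the sum as a sum over pairs
    have h1 : ∀ b : ι × κ, ∑ h, W (e.symm (g * h)).1 a.1 b.1 * f (e.symm (g * h)).2 a.2 b.2 *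
        (W (e.symm h).1 a'.1 b.1 * f (e.symm h).2 a'.2 b.2) =
        ∑ q : Fin S × K, ∑ p : Fin S × K, (if g * e q = e p then
          W p.1 a.1 b.1 * f p.2 a.2 b.2 * (W q.1 a'.1 b.1 * f q.2 a'.2 b.2) else 0) := by
      intro b
      rw [← Equiv.sum_comp e]
      refine Finset.sum_congr rfl fun q _ => ?_
      rw [Finset.sum_eq_single (e.symm (g * e q))]
      · rw [Equiv.apply_symm_apply, if_pos rfl, Equiv.symm_apply_apply]
      · intro p _ hp
        rw [if_neg]
        intro h
        exact hp (by rw [h, Equiv.symm_apply_apply])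
      · intro h; exact absurd (Finset.mem_univ _) h
    simp only [h1]
    -- for fixed exponents, sum over K
    have h2 : ∀ (n m : ℕ) (a2 a2' : κ), ∑ b : κ, ∑ k : K, ∑ k' : K,
        (if g * (x ^ m * (k' : G)) = x ^ n * (k : G) then f k a2 b * f k' a2' b else 0) =
        (if x ^ n * (x ^ m)⁻¹ = g then 1 else 0) *
          (if a2 = a2' then ((Fintype.card κ * Fintype.card K : ℕ) : ℤ) else 0) := by
      intro n m a2 a2'
      by_cases hc : (x ^ n)⁻¹ * g * x ^ m ∈ K
      · have h3 : ∀ b : κ, ∑ k : K, ∑ k' : K,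
            (if g * (x ^ m * (k' : G)) = x ^ n * (k : G) then f k a2 b * f k' a2' b else 0) =
            ∑ k' : K, f (⟨_, hc⟩ * k') a2 b * f k' a2' b := by
          intro b
          rw [Finset.sum_comm]
          refine Finset.sum_congr rfl fun k' _ => ?_
          rw [Finset.sum_eq_single (⟨_, hc⟩ * k')]
          · rw [if_pos]
            rw [Subgroup.coe_mul]
            group
          · intro k _ hk
            rw [if_neg]
            intro h
            apply hk
            apply Subtype.ext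
            rw [Subgroup.coe_mul]
            have : (k : G) = (x ^ n)⁻¹ * (g * (x ^ m * (k' : G))) := by rw [h]; group
            rw [this]
            group
          · intro h; exact absurd (Finset.mem_univ _) h
        simp only [h3, hff]
        have h40 : ((x ^ n)⁻¹ * g * x ^ m = 1) ↔ x ^ n * (x ^ m)⁻¹ = g := by
          constructor
          · intro h
            have : x ^ n * ((x ^ n)⁻¹ * g * x ^ m) * (x ^ m)⁻¹ = x ^ n * 1 * (x ^ m)⁻¹ := by rw [h]
            rw [mul_one] at this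
            rw [← this]
            group
          · intro h
            rw [← h]
            group
        have h4 : ((⟨_, hc⟩ : K) = 1) ↔ x ^ n * (x ^ m)⁻¹ = g := by
          rw [← h40]
          exact ⟨fun h => congrArg Subtype.val h, fun h => Subtype.ext h⟩
        by_cases h5 : x ^ n * (x ^ m)⁻¹ = g
        · by_cases h6 : a2 = a2'
          · rw [if_pos ⟨h6, h4.2 h5⟩, if_pos h5, if_pos h6, one_mul]
          · rw [if_neg (fun h => h6 h.1), if_neg h6, mul_zero]
        · rw [if_neg (fun h => h5 (h4.1 h.2)), if_neg h5, zero_mul]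
      · rw [if_neg, zero_mul]
        · refine Finset.sum_eq_zero fun b _ => Finset.sum_eq_zero fun k _ =>
            Finset.sum_eq_zero fun k' _ => ?_
          rw [if_neg]
          intro h
          apply hc
          have : (x ^ n)⁻¹ * g * x ^ m = (k : G) * ((k' : G))⁻¹ := by
            have h' : (x ^ n)⁻¹ * (g * (x ^ m * (k' : G))) * ((k' : G))⁻¹ =
                (x ^ n)⁻¹ * (x ^ n * (k : G)) * ((k' : G))⁻¹ := by rw [h]
            calc (x ^ n)⁻¹ * g * x ^ m = (x ^ n)⁻¹ * (g * (x ^ m * (k' : G))) * ((k' : G))⁻¹ := by group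
              _ = (x ^ n)⁻¹ * (x ^ n * (k : G)) * ((k' : G))⁻¹ := h'
              _ = _ := by group
          rw [this]
          exact K.mul_mem k.2 (K.inv_mem k'.2)
        · intro h
          apply hc
          rw [← h]
          have : (x ^ n)⁻¹ * (x ^ n * (x ^ m)⁻¹) * x ^ m = 1 := by group
          rw [this]
          exact K.one_mem
    -- assemble
    have h7 : ∑ b : ι × κ, ∑ q : Fin S × K, ∑ p : Fin S × K, (if g * e q = e p then
          W p.1 a.1 b.1 * f p.2 a.2 b.2 * (W q.1 a'.1 b.1 * f q.2 a'.2 b.2) else 0) =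
        ∑ j : ι, ∑ n : Fin S, ∑ m : Fin S, (W n a.1 j * W m a'.1 j) *
          ∑ b : κ, ∑ k : K, ∑ k' : K,
          (if g * (x ^ (m : ℕ) * (k' : G)) = x ^ (n : ℕ) * (k : G) then f k a.2 b * f k' a'.2 b else 0) := by
      simp only [Fintype.sum_prod_type, he]
      refine Finset.sum_congr rfl fun j _ => ?_
      simp only [Finset.mul_sum, mul_ite, mul_zero]
      -- LHS: ∑ b, ∑ m, ∑ k', ∑ n, ∑ k ; RHS: ∑ n, ∑ m, ∑ b, ∑ k, ∑ k'
      have e1 : ∀ F : κ → Fin S → K → Fin S → K → ℤ,
          ∑ b, ∑ m, ∑ k', ∑ n, ∑ k, F b m k' n k = ∑ n, ∑ m, ∑ b, ∑ k, ∑ k', F b m k' n k := by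
        intro F
        calc ∑ b, ∑ m, ∑ k', ∑ n, ∑ k, F b m k' n k
            = ∑ b, ∑ m, ∑ n, ∑ k', ∑ k, F b m k' n k := by
              refine Finset.sum_congr rfl fun b _ => Finset.sum_congr rfl fun m _ => Finset.sum_comm
          _ = ∑ b, ∑ n, ∑ m, ∑ k', ∑ k, F b m k' n k := by
              refine Finset.sum_congr rfl fun b _ => Finset.sum_comm
          _ = ∑ n, ∑ b, ∑ m, ∑ k', ∑ k, F b m k' n k := Finset.sum_comm
          _ = ∑ n, ∑ m, ∑ b, ∑ k', ∑ k, F b m k' n k := by
              refine Finset.sum_congr rfl fun n _ => Finset.sum_comm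
          _ = _ := by
              refine Finset.sum_congr rfl fun n _ => Finset.sum_congr rfl fun m _ =>
                Finset.sum_congr rfl fun b _ => Finset.sum_comm
      rw [e1]
      refine Finset.sum_congr rfl fun n _ => Finset.sum_congr rfl fun m _ =>
        Finset.sum_congr rfl fun b _ => Finset.sum_congr rfl fun k _ => Finset.sum_congr rfl fun k' _ => ?_
      split_ifs
      · ring
      · rfl
    rw [h7]
    simp only [h2]
    have h8 : ∀ j : ι, ∑ n : Fin S, ∑ m : Fin S, (W n a.1 j * W m a'.1 j) *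
        ((if x ^ (n : ℕ) * (x ^ (m : ℕ))⁻¹ = g then 1 else 0) *
          (if a.2 = a'.2 then ((Fintype.card κ * Fintype.card K : ℕ) : ℤ) else 0)) =
        (∑ n ∈ range S, ∑ m ∈ range S, (W n a.1 j * W m a'.1 j) *
          (if x ^ n * (x ^ m)⁻¹ = g then 1 else 0)) *
          (if a.2 = a'.2 then ((Fintype.card κ * Fintype.card K : ℕ) : ℤ) else 0) := by
      intro j
      rw [Finset.sum_mul, ← Fin.sum_univ_eq_sum_range (fun n => (∑ m ∈ range S, (W n a.1 j * W m a'.1 j) *
          (if x ^ n * (x ^ m)⁻¹ = g then 1 else 0)) *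
          (if a.2 = a'.2 then ((Fintype.card κ * Fintype.card K : ℕ) : ℤ) else 0)) S]
      refine Finset.sum_congr rfl fun n _ => ?_
      rw [Finset.sum_mul, ← Fin.sum_univ_eq_sum_range (fun m => ((W n a.1 j * W m a'.1 j) *
          (if x ^ (n : ℕ) * (x ^ m)⁻¹ = g then 1 else 0)) *
          (if a.2 = a'.2 then ((Fintype.card κ * Fintype.card K : ℕ) : ℤ) else 0)) S]
      refine Finset.sum_congr rfl fun m _ => ?_
      ring
    simp only [h8]
    rw [← Finset.sum_mul, corr_group hW x]
    by_cases h9 : a.1 = a'.1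
    · by_cases h10 : a.2 = a'.2
      · by_cases h11 : g = 1
        · rw [if_pos ⟨h9, h11⟩, if_pos h10, if_pos ⟨Prod.ext h9 h10, h11⟩, Fintype.card_prod, hcard]
          push_cast
          ring
        · rw [if_neg (fun h => h11 h.2), zero_mul, if_neg (fun h => h11 h.2)]
      · rw [if_neg h10, mul_zero, if_neg (fun h => h10 (congrArg Prod.snd h.1))]
    · rw [if_neg (fun h => h9 h.1), zero_mul, if_neg (fun h => h9 (congrArg Prod.fst h.1))]

end Pool.Agent.X18.HadG
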