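import Pool.Agent.X18.HadG

/-!
Every finite solvable group acts semiregularly on Hadamard matrices.
-/

set_option autoImplicit false

namespace Pool.Agent.X18.HadG

open Finset Matrix Pool.Agent.H108R3.Had

theorem GH.congr {κ κ' G : Type} [Fintype κ] [DecidableEq κ] [Fintype κ'] [DecidableEq κ'] [Group G]
    [Fintype G] [DecidableEq G] (e : κ ≃ κ') (h : GH κ G) : GH κ' G := by
  obtain ⟨f, hf, hff⟩ := h
  refine ⟨fun g i j => f g (e.symm i) (e.symm j), fun g i j => hf _ _ _, fun g i i' => ?_⟩
  have h1 := hff g (e.symm i) (e.symm i')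
  rw [← Equiv.sum_comp e (fun j => ∑ h, f (g * h) (e.symm i) (e.symm j) * f h (e.symm i') (e.symm j))]
  simp only [Equiv.symm_apply_apply]
  rw [h1, Fintype.card_congr e]
  simp only [EmbeddingLike.apply_eq_iff_eq]

theorem GH.base {κ G : Type} [Fintype κ] [DecidableEq κ] [Group G] [Fintype G] [DecidableEq G]
    (hG : Fintype.card G = 1) (h : PU κ 1) : GH κ G := by
  obtain ⟨W, hW⟩ := h
  have hG1 : ∀ g : G, g = 1 := fun g => Fintype.card_le_one_iff.1 hG.le g 1
  have huniv : (Finset.univ : Finset G) = {1} := by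
    ext g; simp [hG1 g]
  refine ⟨fun _ i j => W 0 i j, fun _ i j => hW.sign 0 Nat.one_pos i j, fun g i i' => ?_⟩
  have h1 := corr hW i i' 0
  simp only [Finset.range_one, Finset.sum_singleton, Nat.cast_zero, sub_zero, if_true, mul_one,
    and_true] at h1
  simp only [huniv, Finset.sum_singleton]
  rw [h1, hG]
  simp [hG1 g]

/-- a normal subgroup of prime index and an element outside -/
theorem exists_window (G : Type) [Group G] [Fintype G] [Group.IsSolvable G] [Nontrivial G] :
    ∃ (M : Subgroup G) (x : G) (p : ℕ), p.Prime ∧ Nat.card G = p * Nat.card M ∧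
      Function.Bijective (fun q : Fin p × M => x ^ (q.1 : ℕ) * (q.2 : G)) := by
  obtain ⟨M, hM, hDM⟩ := (eq_top_or_exists_le_coatom (commutator G)).resolve_left
    (Group.IsSolvable.commutator_lt_top_of_nontrivial G).ne
  have hN : M.Normal := by
    constructor
    intro n hn g
    have h1 : g * n * g⁻¹ * n⁻¹ ∈ M := hDM (by
      rw [commutator_def]
      exact Subgroup.commutator_mem_commutator (Subgroup.mem_top g) (Subgroup.mem_top n))
    have h2 := M.mul_mem h1 hn
    rwa [inv_mul_cancel_right] at h2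
  have hgen : ∀ y : G, y ∉ M → Subgroup.zpowers (QuotientGroup.mk y : G ⧸ M) = ⊤ := by
    intro y hy
    have h1 : M < (Subgroup.zpowers (QuotientGroup.mk y : G ⧸ M)).comap (QuotientGroup.mk' M) := by
      refine lt_of_le_of_ne ?_ ?_
      · intro m hm
        rw [Subgroup.mem_comap, QuotientGroup.mk'_apply, (QuotientGroup.eq_one_iff m).2 hm]
        exact Subgroup.one_mem _
      · intro h
        apply hy
        rw [h, Subgroup.mem_comap, QuotientGroup.mk'_apply]
        exact Subgroup.mem_zpowers _
    have h2 := hM.2 _ h1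
    rw [eq_top_iff]
    intro z _
    obtain ⟨w, rfl⟩ := QuotientGroup.mk_surjective z
    have : w ∈ (Subgroup.zpowers (QuotientGroup.mk y : G ⧸ M)).comap (QuotientGroup.mk' M) := by
      rw [h2]; exact Subgroup.mem_top _
    rwa [Subgroup.mem_comap, QuotientGroup.mk'_apply] at this
  obtain ⟨x, hx⟩ : ∃ x, x ∉ M := by
    by_contra h
    push Not at h
    exact hM.1 (eq_top_iff.2 fun y _ => h y)
  have hord : ∀ y : G, y ∉ M → orderOf (QuotientGroup.mk y : G ⧸ M) = Nat.card (G ⧸ M) := by
    intro y hy
    rw [← Nat.card_zpowers, hgen y hy]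
    exact Nat.card_congr (Subgroup.topEquiv (G := G ⧸ M)).toEquiv
  have hcard : Nat.card G = Nat.card (G ⧸ M) * Nat.card M := Subgroup.card_eq_card_quotient_mul_card_subgroup M
  have hp0 : 0 < Nat.card (G ⧸ M) := Nat.card_pos
  have hmem : ∀ n : ℕ, x ^ n ∈ M ↔ Nat.card (G ⧸ M) ∣ n := by
    intro n
    rw [← hord x hx, orderOf_dvd_iff_pow_eq_one, ← QuotientGroup.mk_pow, QuotientGroup.eq_one_iff]
  have hprime : (Nat.card (G ⧸ M)).Prime := by
    rw [Nat.prime_def]
    have h1 : Nat.card (G ⧸ M) ≠ 1 := by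
      intro h
      apply hx
      have := (hmem 1).2 (by rw [h])
      rwa [pow_one] at this
    refine ⟨by omega, fun m hm => ?_⟩
    by_contra hcon
    push Not at hcon
    obtain ⟨hm1, hm2⟩ := hcon
    have hm0 : 0 < m := Nat.pos_of_dvd_of_pos hm hp0
    have hlt : m < Nat.card (G ⧸ M) := lt_of_le_of_ne (Nat.le_of_dvd hp0 hm) hm2
    have h2 : x ^ m ∉ M := by
      rw [hmem]
      intro h
      exact absurd (Nat.le_of_dvd hm0 h) (by omega)
    have h3 := hord _ h2
    obtain ⟨c, hc⟩ := hm
    have h4 : (QuotientGroup.mk (x ^ m) : G ⧸ M) ^ c = 1 := by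
      rw [← QuotientGroup.mk_pow, QuotientGroup.eq_one_iff, ← pow_mul, hmem, ← hc]
    have h5 := orderOf_dvd_of_pow_eq_one h4
    rw [h3] at h5
    have hc0 : 0 < c := by
      rcases Nat.eq_zero_or_pos c with h | h
      · rw [h, mul_zero] at hc; omega
      · exact h
    have h6 := Nat.le_of_dvd hc0 h5
    have h7 : 2 * c ≤ m * c := Nat.mul_le_mul_right _ (by omega)
    omega
  refine ⟨M, x, Nat.card (G ⧸ M), hprime, hcard, ?_⟩
  classical
  rw [Fintype.bijective_iff_injective_and_card]
  constructor
  · rintro ⟨n, k⟩ ⟨m, k'⟩ h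
    simp only at h
    -- x ^ n * k = x ^ m * k'
    have key : ∀ a b : ℕ, a ≤ b → b < Nat.card (G ⧸ M) → ∀ k k' : M, x ^ a * (k : G) = x ^ b * (k' : G) → a = b := by
      intro a b hab hb k k' h
      have h1 : x ^ (b - a) = (k : G) * (k' : G)⁻¹ := by
        have h2 : x ^ b = x ^ a * x ^ (b - a) := by rw [← pow_add]; congr 1; omega
        rw [h2, mul_assoc] at h
        have h3 := mul_left_cancel h
        rw [h3]
        group
      have h2 : x ^ (b - a) ∈ M := by
        rw [h1]
        exact M.mul_mem k.2 (M.inv_mem k'.2)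
      rw [hmem] at h2
      rcases Nat.eq_zero_or_pos (b - a) with h3 | h3
      · omega
      · have := Nat.le_of_dvd h3 h2
        omega
    have hnm : (n : ℕ) = m := by
      rcases le_total (n : ℕ) m with h1 | h1
      · exact key n m h1 m.2 k k' h
      · exact (key m n h1 n.2 k' k h.symm).symm
    have hnm' : n = m := Fin.ext hnm
    subst hnm'
    have := mul_left_cancel h
    rw [Subtype.ext this]
  · rw [Fintype.card_prod, Fintype.card_fin, ← Nat.card_eq_fintype_card (α := M),
      ← Nat.card_eq_fintype_card (α := G), hcard]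

theorem solvable_ind (c : ℕ) : ∀ (n : ℕ) (G : Type) [Group G] [Fintype G] [DecidableEq G] [Group.IsSolvable G],
    Fintype.card G = n → (∀ p : ℕ, p.Prime → p ∣ n → PUk c p) → ∀ t : ℕ,
    GH (Fin (2 ^ (t + c * ArithmeticFunction.cardFactors n))) G := by
  intro n
  induction n using Nat.strong_induction_on with
  | _ n ih =>
    intro G _ _ _ _ hG hp t
    classical
    rcases Nat.lt_or_ge 1 n with h1 | h1
    · have : Nontrivial G := Fintype.one_lt_card_iff_nontrivial.1 (by rw [hG]; exact h1)
      obtain ⟨M, x, p, hpp, hcard, hbij⟩ := exists_window G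
      rw [Nat.card_eq_fintype_card, Nat.card_eq_fintype_card, hG] at hcard
      have hM0 : 0 < Fintype.card M := Fintype.card_pos
      have hlt : Fintype.card M < n := by
        rw [hcard]
        have := hpp.two_le
        nlinarith
      have h2 := ih _ hlt M rfl (fun q hq hqM => hp q hq (hqM.trans ⟨p, by rw [hcard]; ring⟩)) t
      have h3 : PUk c p := hp p hpp ⟨_, hcard⟩
      have h4 := step M x hbij h3 h2
      refine GH.congr (Fintype.equivOfCardEq ?_) h4
      rw [Fintype.card_prod, Fintype.card_fin, Fintype.card_fin, Fintype.card_fin, ← pow_add]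
      congr 1
      have h5 : ArithmeticFunction.cardFactors n = 1 + ArithmeticFunction.cardFactors (Fintype.card M) := by
        rw [hcard, ArithmeticFunction.cardFactors_mul hpp.ne_zero hM0.ne',
          ArithmeticFunction.cardFactors_apply_prime hpp]
      rw [h5]
      ring
    · have hn1 : n = 1 := by
        have : 0 < Fintype.card G := Fintype.card_pos
        omega
      subst hn1
      rw [ArithmeticFunction.cardFactors_one, mul_zero, add_zero]
      apply GH.base hG
      have : ∀ t : ℕ, PUk t 1 := by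
        intro t
        induction t with
        | zero => exact t_P2.2
        | succ t iht => exact lift t 1 iht
      exact this t

/-- the matrix -/
theorem matrix_of {κ G : Type} [Fintype κ] [DecidableEq κ] [Group G] [Fintype G] [DecidableEq G]
    (h : GH κ G) : ∃ H : Matrix (κ × G) (κ × G) ℤ, (∀ a b, H a b = 1 ∨ H a b = -1) ∧
      H * Hᵀ = ((Fintype.card κ * Fintype.card G : ℕ) : ℤ) • (1 : Matrix (κ × G) (κ × G) ℤ) ∧
      ∀ (g x y : G) (i j : κ), H (i, g * x) (j, g * y) = H (i, x) (j, y) := by
  obtain ⟨f, hf, hff⟩ := h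
  refine ⟨Matrix.of fun a b => f (a.2⁻¹ * b.2) a.1 b.1, fun a b => hf _ _ _, ?_, ?_⟩
  · ext ⟨i, x⟩ ⟨i', x'⟩
    rw [Matrix.mul_apply]
    simp only [Matrix.transpose_apply, Matrix.of_apply, Matrix.smul_apply, Matrix.one_apply,
      Fintype.sum_prod_type, smul_eq_mul, Prod.mk.injEq]
    have h1 := hff (x⁻¹ * x') i i'
    have h2 : ∀ j, ∑ y : G, f (x⁻¹ * y) i j * f (x'⁻¹ * y) i' j =
        ∑ h, f (x⁻¹ * x' * h) i j * f h i' j := by
      intro j
      rw [← Equiv.sum_comp (Equiv.mulLeft x')]
      refine Finset.sum_congr rfl fun y _ => ?_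
      simp only [Equiv.coe_mulLeft, inv_mul_cancel_left, mul_assoc]
    simp only [h2, h1]
    have h3 : x⁻¹ * x' = 1 ↔ x = x' := by
      rw [inv_mul_eq_one]
    simp only [h3]
    split_ifs <;> simp
  · intro g x y i j
    simp only [Matrix.of_apply, _root_.mul_inv_rev]
    congr 1
    group

end Pool.Agent.X18.HadG
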