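import Pool.Agent.Y341.Had.Tower
import Pool.Agent.H114R2.Design

set_option autoImplicit false

/-!
# Hadamard matrices of the orders `w - 1`, `2 (w + 1)` and `4 w`, `w = v ^ 2 ^ (j + 1)`, from a
skew-Hadamard matrix of order `v + 1` and a Hadamard matrix of order `v ^ 2 - 1`, for all `j`
-/

namespace Pool.Agent.X18.HadPow

open Finset
open Pool.Agent.H114R2 (HasHad)
open Pool.Agent.Y342.SK (IsCoreG had_two had_four' sym_core exists_core SkewC)
open Pool.Agent.W851.Had (tow)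

/-- symmetric cores of order `w ^ 2 ^ a` -/
theorem core_tower {w : ℕ} {B : Fin w → Fin w → ℤ} (h : IsCoreG 1 B) (a : ℕ) :
    ∃ B' : Fin (w ^ 2 ^ a) → Fin (w ^ 2 ^ a) → ℤ, IsCoreG 1 B' := by
  induction a with
  | zero =>
    refine h.fin ?_
    rw [Fintype.card_fin]
    simp
  | succ a ih =>
    obtain ⟨B, hB⟩ := ih
    refine (hB.sq (by norm_num)).fin ?_
    rw [Fintype.card_prod, Fintype.card_fin, pow_succ 2 a, pow_mul]
    ring

/-- Agayan's product along the tower -/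
theorem pred {w : ℕ} {B : Fin w → Fin w → ℤ} (hB : IsCoreG 1 B)
    (hodd : w % 2 = 1) (h1 : HasHad (w - 1)) (a : ℕ) : HasHad (w ^ 2 ^ a - 1) := by
  induction a with
  | zero => simpa using h1
  | succ a ih =>
    obtain ⟨B, hB⟩ := core_tower hB a
    have h3 : HasHad (2 * (w ^ 2 ^ a + 1)) := had_two hB
    rw [pow_succ 2 a, pow_mul]
    set P := w ^ 2 ^ a with hP
    have hPodd : P % 2 = 1 := by
      rw [hP, Nat.pow_mod, hodd, one_pow]
      try norm_num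
    obtain ⟨h, hh⟩ : ∃ h, P = 2 * h + 1 := ⟨P / 2, by omega⟩
    have e1 : P - 1 = 2 * h := by omega
    have e2 : P ^ 2 - 1 = 2 * (h * (P + 1)) := by
      rw [hh]
      have : (2 * h + 1) ^ 2 = 2 * (h * (2 * h + 1 + 1)) + 1 := by ring
      rw [this]
      rfl
    rw [e2]
    rw [e1] at ih
    exact Pool.Agent.Y341.Had.agayan ih h3

/-- the three orders -/
theorem three {w : ℕ} {B : Fin w → Fin w → ℤ} (hB : IsCoreG 1 B)
    (hodd : w % 2 = 1) (h1 : HasHad (w - 1)) (a : ℕ) :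
    HasHad (w ^ 2 ^ a - 1) ∧ HasHad (2 * (w ^ 2 ^ a + 1)) ∧ HasHad (4 * w ^ 2 ^ a) := by
  obtain ⟨B', hB'⟩ := core_tower hB a
  have h2 := pred hB hodd h1 a
  have hw : 0 < w ^ 2 ^ a := Nat.pos_of_ne_zero (pow_ne_zero _ (by omega))
  exact ⟨h2, had_two hB', had_four' hB' hw h2⟩

/-- symmetric designs from the three orders -/
theorem designs {w : ℕ} (hw9 : 9 ≤ w) (hw8 : w % 4 = 1)
    (h1 : HasHad (w - 1)) (h2 : HasHad (2 * (w + 1))) (h3 : HasHad (4 * w)) :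
    (∃ B, Pool.Agent.H114R2.IsSymDesign (4 * w - 1) (2 * w - 1) (w - 1) B) ∧
    (∃ B, Pool.Agent.H114R2.IsSymDesign (2 * w + 1) w ((w - 1) / 2) B) ∧
    (∃ B, Pool.Agent.H114R2.IsSymDesign (w - 2) ((w - 3) / 2) ((w - 5) / 4) B) ∧
    (∀ u, u = 2 * w ∨ u = w + 1 ∨ u = (w - 1) / 2 →
      ∃ B, Pool.Agent.H114R2.IsSymDesign (4 * u ^ 2) (2 * u ^ 2 - u) (u ^ 2 - u) B) := by
  refine ⟨Pool.Agent.H114R2.hadDesign_of_had (by omega) h3, ?_, ?_, ?_⟩
  · obtain ⟨m, hm⟩ : ∃ m, w + 1 = 2 * m := ⟨(w + 1) / 2, by omega⟩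
    have e : 2 * (w + 1) = 4 * m := by omega
    rw [e] at h2
    have := Pool.Agent.H114R2.hadDesign_of_had (m := m) (by omega) h2
    have e1 : 4 * m - 1 = 2 * w + 1 := by omega
    have e2 : 2 * m - 1 = w := by omega
    have e3 : m - 1 = (w - 1) / 2 := by omega
    rw [e1, e2, e3] at this
    exact this
  · obtain ⟨m, hm⟩ : ∃ m, w - 1 = 4 * m := ⟨(w - 1) / 4, by omega⟩
    rw [hm] at h1
    have := Pool.Agent.H114R2.hadDesign_of_had (m := m) (by omega) h1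
    have e1 : 4 * m - 1 = w - 2 := by omega
    have e2 : 2 * m - 1 = (w - 3) / 2 := by omega
    have e3 : m - 1 = (w - 5) / 4 := by omega
    rw [e1, e2, e3] at this
    exact this
  · rintro u (rfl | rfl | rfl)
    · refine Pool.Agent.H114R2.menon_of_had (by omega) ?_
      have e : 2 * (2 * w) = 4 * w := by ring
      rw [e]; exact h3
    · exact Pool.Agent.H114R2.menon_of_had (by omega) h2
    · refine Pool.Agent.H114R2.menon_of_had (by omega) ?_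
      have e : 2 * ((w - 1) / 2) = w - 1 := by omega
      rw [e]; exact h1

theorem mod4 {w : ℕ} (h4 : w % 4 = 1) (a : ℕ) : w ^ 2 ^ a % 4 = 1 := by
  rw [Nat.pow_mod, h4, one_pow]
  try norm_num

theorem sq_le_tow : ∀ n : ℕ, ∀ v : ℕ, v ≤ tow n → v ^ 2 ≤ tow (n + 2)
  | 0, v, h => by
    have h1 : tow 0 = 1 := rfl
    rw [h1] at h
    have : v ^ 2 ≤ 1 := by
      calc v ^ 2 ≤ 1 ^ 2 := Nat.pow_le_pow_left h 2
        _ = 1 := by norm_num
    refine this.trans ?_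
    exact Nat.one_le_iff_ne_zero.2 (by
      have : tow 2 = 2 ^ tow 1 := by
        unfold tow; rw [Function.iterate_succ_apply']
      rw [this]; positivity)
  | n + 1, v, h => by
    have e1 : tow (n + 1) = 2 ^ tow n := by
      unfold tow; rw [Function.iterate_succ_apply']
    have e2 : tow (n + 1 + 2) = 2 ^ tow (n + 2) := by
      unfold tow; rw [Function.iterate_succ_apply']
    have e3 : tow (n + 2) = 2 ^ tow (n + 1) := by
      unfold tow; rw [Function.iterate_succ_apply']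
    rw [e2]
    rw [e1] at h
    have h2 : v ^ 2 ≤ 2 ^ (2 * tow n) := by
      calc v ^ 2 ≤ (2 ^ tow n) ^ 2 := Nat.pow_le_pow_left h 2
        _ = 2 ^ (2 * tow n) := by rw [← pow_mul, mul_comm]
    refine h2.trans (Nat.pow_le_pow_right (by norm_num) ?_)
    rw [e3, e1]
    have h3 : tow n < 2 ^ tow n := Nat.lt_two_pow_self
    have h4 : 2 ^ (tow n + 1) ≤ 2 ^ 2 ^ tow n := Nat.pow_le_pow_right (by norm_num) h3
    have h5 : 2 * tow n ≤ 2 ^ (tow n + 1) := by rw [pow_succ]; omega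
    exact h5.trans h4

/-- main theorem -/
theorem main : ∃ C : ℕ, ∀ n v t : ℕ, v ≤ tow n → 2 ^ C ^ (n + 1) ≤ t → 2 ^ t ∣ v + 1 →
    3 ≤ v ∧ v % 4 = 3 ∧ HasHad (v ^ 2 - 1) ∧
      ∃ B : Fin (v ^ 2) → Fin (v ^ 2) → ℤ, IsCoreG 1 B := by
  obtain ⟨C₁, hC₁, h1⟩ := Pool.Agent.Y342.SK.main_skew
  obtain ⟨C₂, hC₂, h2⟩ := Pool.Agent.W851.Had.main_had
  refine ⟨C₁ + C₂ ^ 3, fun n v t hv ht hd => ?_⟩
  have hC2 : 1 ≤ C₂ ^ 3 := Nat.one_le_pow _ _ (by omega)
  have hle : 1 ≤ (C₁ + C₂ ^ 3) ^ (n + 1) := Nat.one_le_pow _ _ (by omega)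
  have ht1 : 2 ^ C₁ ^ (n + 1) ≤ t := le_trans (Nat.pow_le_pow_right (by norm_num)
    (Nat.pow_le_pow_left (by omega) _)) ht
  have ht2 : C₂ ^ (n + 2 + 1) ≤ t := by
    refine le_trans ?_ ht
    have a1 : C₂ ^ (n + 2 + 1) ≤ (C₂ ^ 3) ^ (n + 1) := by
      rw [← pow_mul]
      exact Nat.pow_le_pow_right (by omega) (by omega)
    have a2 : (C₂ ^ 3) ^ (n + 1) ≤ (C₁ + C₂ ^ 3) ^ (n + 1) := Nat.pow_le_pow_left (by omega) _
    have a3 := (Nat.lt_two_pow_self (n := (C₁ + C₂ ^ 3) ^ (n + 1))).le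
    omega
  have ht3 : 2 ≤ t := by
    have : 2 ^ 1 ≤ 2 ^ (C₁ + C₂ ^ 3) ^ (n + 1) := Nat.pow_le_pow_right (by norm_num) hle
    omega
  have hd4 : 4 ∣ v + 1 := (pow_dvd_pow 2 ht3).trans hd
  have hv4 : v % 4 = 3 := by omega
  have hv3 : 3 ≤ v := by omega
  refine ⟨hv3, hv4, ?_, ?_⟩
  · have hdv : v + 1 ∣ v ^ 2 - 1 := by
      refine ⟨v - 1, ?_⟩
      have := Nat.sq_sub_sq v 1
      simpa using this
    obtain ⟨m, hm⟩ := hd.trans hdv
    rw [hm]
    refine h2 (n + 2) m t ?_ ht2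
    have h5 : m ≤ 2 ^ t * m := Nat.le_mul_of_pos_left _ (by positivity)
    have h6 := sq_le_tow n v hv
    omega
  · obtain ⟨S, hS⟩ := Pool.Agent.Y342.SK.core_of h1 hv ht1 hd
    obtain ⟨B, hB⟩ := sym_core hS 0
    exact hB.fin (by rw [Fintype.card_fin]; norm_num)

end Pool.Agent.X18.HadPow
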