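import Pool.Agent.W851.Had.Tower
import Pool.Agent.Y818.GF.SW
import Pool.Agent.W69.HH.Paley

/-!
Primes in short intervals in progressions to small moduli, and sums of two Hadamard orders.
-/

set_option autoImplicit false

namespace Pool.Agent.X18.HadSum

open Finset Filter H343E
open Pool.Agent.H442R2.EHI (lis)

/-- Siegel-Walfisz -/
theorem sw_pi (U : ℕ) : ∃ x0 : ℕ, ∀ x : ℕ, x0 ≤ x → ∀ q a : ℕ, 1 ≤ q →
    (q : ℝ) ≤ Real.log x → a < q → a.Coprime q →
    |piAP x q a - pi1 x / (Nat.totient q : ℝ)| ≤ x / Real.log x ^ U := by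
  obtain ⟨B, x0, hBV⟩ := primes_of U (unsmoothed (U + 2))
  have h1 := (Real.isLittleO_pow_log_id_atTop (n := 2 + B)).def (show (0 : ℝ) < 1 by norm_num)
  have h2 := (tendsto_natCast_atTop_atTop (R := ℝ)).eventually h1
  have h3 := (Real.tendsto_log_atTop.comp (tendsto_natCast_atTop_atTop (R := ℝ))).eventually_ge_atTop 1
  obtain ⟨x1, h4⟩ := (h2.and h3).exists_forall_of_atTop
  refine ⟨max (max x0 x1) 2, ?_⟩
  intro x hx q a hq hqx haq hcop
  have hx0 : x0 ≤ x := (le_max_left _ _).trans ((le_max_left _ _).trans hx)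
  have hx1 : x1 ≤ x := (le_max_right _ _).trans ((le_max_left _ _).trans hx)
  have hx2 : 2 ≤ x := (le_max_right _ _).trans hx
  obtain ⟨h5, h6⟩ := h4 x hx1
  have hL : 1 ≤ Real.log x := h6
  have hL0 : 0 < Real.log x := by linarith
  have hxp : (0 : ℝ) < x := by exact_mod_cast (by omega : 0 < x)
  have h7 : Real.log x ^ (2 + B) ≤ x := by
    have h := h5
    simp only [id, Real.norm_eq_abs, one_mul] at h
    rwa [abs_of_nonneg (by positivity), abs_of_nonneg hxp.le] at h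
  have hq1 : (1 : ℝ) ≤ q := by exact_mod_cast hq
  have h8 : (q : ℝ) ^ 2 ≤ 1 * x / Real.log x ^ B := by
    rw [one_mul, le_div_iff₀ (by positivity)]
    calc (q : ℝ) ^ 2 * Real.log x ^ B ≤ (Real.log x) ^ 2 * Real.log x ^ B := by gcongr
      _ = Real.log x ^ (2 + B) := by ring
      _ ≤ x := h7
  have h9 : (q : ℝ) ≤ x / Real.log x ^ B := by
    have h : (q : ℝ) ≤ (q : ℝ) ^ 2 := by nlinarith
    rw [one_mul] at h8
    linarith
  have hfam : Fam 1 (fun d => if d = q then {a} else ∅) := by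
    refine ⟨?_, ?_⟩
    · intro d b hb
      by_cases hd : d = q
      · rw [if_pos hd, mem_singleton] at hb
        rw [hb, hd]
        exact ⟨haq, hcop⟩
      · rw [if_neg hd] at hb
        exact absurd hb (notMem_empty _)
    · intro d
      by_cases hd : d = q
      · simp only [if_pos hd, card_singleton, Nat.cast_one, le_refl]
      · simp only [if_neg hd, card_empty, Nat.cast_zero, zero_le_one]
  have h10 := hBV x hx0 1 le_rfl q h9 h8 _ hfam
  have h11 : |piAP x q a - pi1 x / (Nat.totient q : ℝ)| ≤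
      ∑ d ∈ Icc 1 q, ∑ b ∈ (if d = q then {a} else ∅ : Finset ℕ),
        |piAP x d b - pi1 x / (Nat.totient d : ℝ)| := by
    refine le_trans ?_ (single_le_sum (f := fun d => ∑ b ∈ (if d = q then {a} else ∅ : Finset ℕ),
      |piAP x d b - pi1 x / (Nat.totient d : ℝ)|)
      (fun d _ => sum_nonneg (fun _ _ => abs_nonneg _)) (mem_Icc.2 ⟨hq, le_rfl⟩))
    simp only [if_true, sum_singleton, le_refl]
  calc |piAP x q a - pi1 x / (Nat.totient q : ℝ)| ≤ 1 * x / Real.log x ^ U := h11.trans h10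
    _ = _ := by rw [one_mul]

theorem lis_diff {x y : ℕ} (hx : 2 ≤ x) (hxy : x ≤ y) :
    ((y : ℝ) - x) / Real.log y ≤ lis y - lis x := by
  unfold lis
  have h1 : Icc 2 y = Icc 2 x ∪ Ioc x y := by
    ext n; simp only [mem_union, mem_Icc, mem_Ioc]; omega
  have h2 : Disjoint (Icc 2 x) (Ioc x y) := by
    rw [Finset.disjoint_left]; intro n; simp only [mem_Icc, mem_Ioc]; omega
  rw [h1, sum_union h2, add_sub_cancel_left]
  have h3 : ∀ n ∈ Ioc x y, 1 / Real.log y ≤ 1 / Real.log n := by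
    intro n hn
    rw [mem_Ioc] at hn
    have h4 : (1 : ℝ) < n := by exact_mod_cast (by omega : 1 < n)
    exact one_div_le_one_div_of_le (Real.log_pos h4)
      (Real.log_le_log (by linarith) (by exact_mod_cast hn.2))
  calc ((y : ℝ) - x) / Real.log y = ∑ n ∈ Ioc x y, 1 / Real.log y := by
        rw [sum_const, Nat.card_Ioc, nsmul_eq_mul, Nat.cast_sub hxy]; ring
    _ ≤ _ := sum_le_sum h3

/-- primes in progressions in short intervals -/
theorem sw_short (A : ℕ) : ∃ x0 : ℕ, ∀ x y : ℕ, x0 ≤ x → 2 * y ≤ x →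
    (x : ℝ) / Real.log x ^ A ≤ y → ∀ q a : ℕ, 1 ≤ q → (q : ℝ) ≤ Real.log x / 2 → a < q →
    a.Coprime q → ∃ p : ℕ, p.Prime ∧ p ≡ a [MOD q] ∧ x - y < p ∧ p ≤ x := by
  obtain ⟨x0, h0⟩ := sw_pi (A + 3)
  obtain ⟨C, hC⟩ := Pool.Agent.H442R2.EHI.pnt_err (A + 3)
  have h3 := (Real.tendsto_log_atTop.comp (tendsto_natCast_atTop_atTop (R := ℝ))).eventually_ge_atTop
    (2 ^ (A + 3) * (2 * |C| + 2) + 2)
  obtain ⟨x1, h4⟩ := h3.exists_forall_of_atTop
  refine ⟨max (2 * x0) (max x1 16), ?_⟩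
  intro x y hx hy hxy q a hq hqx haq hcop
  have hx0 : 2 * x0 ≤ x := (le_max_left _ _).trans hx
  have hx1 : x1 ≤ x := (le_max_left _ _).trans ((le_max_right _ _).trans hx)
  have hx16 : 16 ≤ x := (le_max_right _ _).trans ((le_max_right _ _).trans hx)
  have hL : 2 ^ (A + 3) * (2 * |C| + 2) + 2 ≤ Real.log x := h4 x hx1
  set L := Real.log x with hLdef
  have hCn : 0 ≤ |C| := abs_nonneg C
  have hp2 : (0 : ℝ) < 2 ^ (A + 3) := by positivity
  have hL2 : 2 < L := by nlinarith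
  obtain ⟨w, hw⟩ : ∃ w, w = x - y := ⟨_, rfl⟩
  have hw2 : x ≤ 2 * w := by omega
  have hwx : w ≤ x := by omega
  have hw8 : 8 ≤ w := by omega
  have hwr : (8 : ℝ) ≤ w := by exact_mod_cast hw8
  have hxr : (16 : ℝ) ≤ x := by exact_mod_cast hx16
  have hw2r : (x : ℝ) ≤ 2 * w := by exact_mod_cast hw2
  have hwxr : (w : ℝ) ≤ x := by exact_mod_cast hwx
  -- log w ≥ L / 2
  have hlw : L / 2 ≤ Real.log w := by
    have h5 : (x : ℝ) ≤ w ^ 2 := by nlinarith
    have h6 := Real.log_le_log (by linarith) h5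
    rw [Real.log_pow] at h6
    push_cast at h6
    linarith
  have hlwx : Real.log w ≤ L := Real.log_le_log (by linarith) hwxr
  have hlw0 : 0 < Real.log w := by linarith
  have hφ0 : (0 : ℝ) < (Nat.totient q : ℝ) := by exact_mod_cast Nat.totient_pos.2 hq
  have hφ1 : (1 : ℝ) ≤ (Nat.totient q : ℝ) := by exact_mod_cast Nat.totient_pos.2 hq
  have hφq : (Nat.totient q : ℝ) ≤ L := by
    have : (Nat.totient q : ℝ) ≤ q := by exact_mod_cast Nat.totient_le q
    linarith
  have hsx := h0 x (by omega) q a hq (by linarith) haq hcop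
  have hsw := h0 w (by omega) q a hq (by linarith) haq hcop
  have hpx := hC x (by omega)
  have hpw := hC w (by omega)
  have hdiff := lis_diff (x := w) (y := x) (by omega) hwx
  -- errors
  have hUw : (w : ℝ) / Real.log w ^ (A + 3) ≤ 2 ^ (A + 3) * (x / L ^ (A + 3)) := by
    have h7 : (L / 2) ^ (A + 3) ≤ Real.log w ^ (A + 3) := pow_le_pow_left₀ (by linarith) hlw _
    calc (w : ℝ) / Real.log w ^ (A + 3) ≤ x / (L / 2) ^ (A + 3) := by
          apply div_le_div₀ (by linarith) hwxr (by positivity) h7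
      _ = _ := by rw [div_pow]; field_simp
  have hUx : (x : ℝ) / L ^ (A + 3) ≤ 2 ^ (A + 3) * (x / L ^ (A + 3)) := by
    have h8 : (0 : ℝ) ≤ x / L ^ (A + 3) := by positivity
    have h9 : (1 : ℝ) ≤ 2 ^ (A + 3) := one_le_pow₀ (by norm_num)
    nlinarith
  have hCx : C * x / L ^ (A + 3) ≤ |C| * (2 ^ (A + 3) * (x / L ^ (A + 3))) := by
    calc C * x / L ^ (A + 3) = C * (x / L ^ (A + 3)) := by ring
      _ ≤ |C| * (x / L ^ (A + 3)) := mul_le_mul_of_nonneg_right (le_abs_self C) (by positivity)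
      _ ≤ _ := mul_le_mul_of_nonneg_left hUx hCn
  have hCw : C * w / Real.log w ^ (A + 3) ≤ |C| * (2 ^ (A + 3) * (x / L ^ (A + 3))) := by
    calc C * w / Real.log w ^ (A + 3) = C * (w / Real.log w ^ (A + 3)) := by ring
      _ ≤ |C| * (w / Real.log w ^ (A + 3)) := mul_le_mul_of_nonneg_right (le_abs_self C) (by positivity)
      _ ≤ _ := mul_le_mul_of_nonneg_left hUw hCn
  set E := 2 ^ (A + 3) * (x / L ^ (A + 3)) with hE
  have hE0 : 0 ≤ E := by positivity
  have e1 : pi1 x / (Nat.totient q : ℝ) - E ≤ piAP x q a := by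
    have := (abs_le.1 hsx).1; linarith
  have e2 : piAP w q a ≤ pi1 w / (Nat.totient q : ℝ) + E := by
    have := (abs_le.1 hsw).2; linarith
  have e3 : lis x - |C| * E ≤ pi1 x := by
    have := (abs_le.1 hpx).1; unfold pi1; linarith
  have e4 : pi1 w ≤ lis w + |C| * E := by
    have := (abs_le.1 hpw).2; unfold pi1; linarith
  have e5 : ((x : ℝ) - w) = y := by
    rw [hw, Nat.cast_sub (by omega)]; ring
  have e6 : (y : ℝ) / L - 2 * |C| * E ≤ pi1 x - pi1 w := by
    rw [e5] at hdiff; linarith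
  have e7 : (y : ℝ) / L - 2 * |C| * E - 2 * L * E ≤ (Nat.totient q : ℝ) * (piAP x q a - piAP w q a) := by
    have h10 : (pi1 x - pi1 w) / (Nat.totient q : ℝ) - 2 * E ≤ piAP x q a - piAP w q a := by
      rw [sub_div]; linarith
    have h11 := mul_le_mul_of_nonneg_left h10 hφ0.le
    have h12 : (Nat.totient q : ℝ) * ((pi1 x - pi1 w) / (Nat.totient q : ℝ) - 2 * E) =
        (pi1 x - pi1 w) - 2 * (Nat.totient q : ℝ) * E := by field_simp
    rw [h12] at h11
    have h13 : 2 * (Nat.totient q : ℝ) * E ≤ 2 * L * E := by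
      apply mul_le_mul_of_nonneg_right _ hE0; linarith
    linarith
  -- main comparison
  have hLp : 0 < L := by linarith
  have e8 : 0 < (y : ℝ) / L - 2 * |C| * E - 2 * L * E := by
    have h14 : (x : ℝ) / L ^ A / L ≤ (y : ℝ) / L := div_le_div_of_nonneg_right hxy hLp.le
    have h15 : (x : ℝ) / L ^ A / L = (x / L ^ (A + 3)) * L ^ 2 := by
      field_simp
      ring
    have h16 : 2 * |C| * E + 2 * L * E ≤ (x / L ^ (A + 3)) * (2 ^ (A + 3) * (2 * |C| + 2) * L) := by
      rw [hE]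
      have hx3 : (0 : ℝ) ≤ x / L ^ (A + 3) := by positivity
      have hid : (x / L ^ (A + 3)) * (2 ^ (A + 3) * (2 * |C| + 2) * L) -
          (2 * |C| * (2 ^ (A + 3) * (x / L ^ (A + 3))) + 2 * L * (2 ^ (A + 3) * (x / L ^ (A + 3)))) =
          (x / L ^ (A + 3)) * (2 ^ (A + 3) * (2 * |C|)) * (L - 1) := by ring
      have hnn : 0 ≤ (x / L ^ (A + 3)) * (2 ^ (A + 3) * (2 * |C|)) * (L - 1) :=
        mul_nonneg (mul_nonneg hx3 (mul_nonneg hp2.le (by linarith))) (by linarith)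
      linarith
    have hx3 : (0 : ℝ) < x / L ^ (A + 3) := by positivity
    have h17 : 2 ^ (A + 3) * (2 * |C| + 2) * L < L ^ 2 := by
      have h19 : 2 ^ (A + 3) * (2 * |C| + 2) < L := by linarith
      calc 2 ^ (A + 3) * (2 * |C| + 2) * L < L * L := mul_lt_mul_of_pos_right h19 hLp
        _ = L ^ 2 := by ring
    have h18 := mul_lt_mul_of_pos_left h17 hx3
    linarith
  have e9 : piAP w q a < piAP x q a := by
    by_contra hcon
    push Not at hcon
    have : (Nat.totient q : ℝ) * (piAP x q a - piAP w q a) ≤ 0 := by nlinarith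
    linarith
  unfold piAP at e9
  have e10 : ((Icc 1 w).filter (fun p => p.Prime ∧ p ≡ a [MOD q])).card <
      ((Icc 1 x).filter (fun p => p.Prime ∧ p ≡ a [MOD q])).card := by exact_mod_cast e9
  obtain ⟨p, hp1, hp2'⟩ := Finset.exists_mem_notMem_of_card_lt_card e10
  rw [mem_filter, mem_Icc] at hp1
  rw [mem_filter, mem_Icc] at hp2'
  refine ⟨p, hp1.2.1, hp1.2.2, ?_, hp1.1.2⟩
  rw [← hw]
  by_contra hcon
  push Not at hcon
  exact hp2' ⟨⟨hp1.1.1, hcon⟩, hp1.2⟩

end Pool.Agent.X18.HadSum
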