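import Pool.Agent.X18.HadSum

/-!
Half of a Hadamard matrix in every large order divisible by four.
-/

set_option autoImplicit false

namespace Pool.Agent.X18.HadSum

open Finset Filter
open Pool.Agent.H108R3.Had (HasHad)
open Pool.Agent.W851.Had (tow tow_zero tow_succ tow_pos)

theorem tow_lt (k : ℕ) : tow k < tow (k + 1) := by
  rw [tow_succ]; exact Nat.lt_two_pow_self

theorem tow_mono : Monotone tow := monotone_nat_of_le_succ fun k => (tow_lt k).le

theorem le_tow (n : ℕ) : n ≤ tow n := by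
  induction n with
  | zero => exact Nat.zero_le _
  | succ n ih => have := tow_lt n; omega

theorem tow_lower (j : ℕ) : 2 ^ 2 ^ j ≤ tow (j + 1) := by
  induction j with
  | zero => rw [tow_succ, tow_zero]; norm_num
  | succ j ih =>
    rw [tow_succ (j + 1)]
    apply Nat.pow_le_pow_right (by norm_num)
    calc 2 ^ (j + 1) ≤ 2 ^ 2 ^ j := Nat.pow_le_pow_right (by norm_num) Nat.lt_two_pow_self
      _ ≤ _ := ih

theorem grow (C : ℕ) (hC : 2 ≤ C) : ∃ j0 : ℕ, 2 ≤ j0 ∧ ∀ j : ℕ, j0 ≤ j → 2 ^ (C ^ (j + 4)) ≤ tow j := by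
  -- first `C ^ (j + 5) ≤ tow j`
  have h1 : ∀ m : ℕ, 2 * C + 10 ≤ m → C ^ (2 * m + 6) ≤ tow (2 * m + 1) := by
    intro m hm
    refine le_trans ?_ (tow_lower (2 * m))
    calc C ^ (2 * m + 6) ≤ (2 ^ C) ^ (2 * m + 6) := Nat.pow_le_pow_left Nat.lt_two_pow_self.le _
      _ = 2 ^ (C * (2 * m + 6)) := by rw [pow_mul]
      _ ≤ 2 ^ 2 ^ (2 * m) := by
          apply Nat.pow_le_pow_right (by norm_num)
          have h2 : m + 1 ≤ 2 ^ m := Nat.lt_two_pow_self
          calc C * (2 * m + 6) ≤ (m + 1) * (m + 1) := by nlinarith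
            _ ≤ 2 ^ m * 2 ^ m := Nat.mul_le_mul h2 h2
            _ = 2 ^ (2 * m) := by rw [← pow_add]; congr 1; ring
  have h3 : ∀ j : ℕ, 2 * (2 * C + 10) + 1 ≤ j → C ^ (j + 5) ≤ tow j := by
    intro j hj
    induction j, hj using Nat.le_induction with
    | base => exact h1 _ le_rfl
    | succ j hj ih =>
      rw [tow_succ]
      have h4 : j ≤ tow j := le_tow j
      have h5 : tow j ^ 2 ≤ 2 ^ tow j := by
        have : 4 ≤ tow j := by omega
        -- x ^ 2 ≤ 2 ^ x for x ≥ 4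
        have key : ∀ x : ℕ, 4 ≤ x → x ^ 2 ≤ 2 ^ x := by
          intro x hx
          induction x, hx using Nat.le_induction with
          | base => norm_num
          | succ x hx ihx => rw [pow_succ 2 x]; nlinarith
        exact key _ this
      calc C ^ (j + 1 + 5) = C * C ^ (j + 5) := by ring
        _ ≤ tow j * tow j := Nat.mul_le_mul (by omega) ih
        _ = tow j ^ 2 := by ring
        _ ≤ _ := h5
  refine ⟨2 * (2 * C + 10) + 2, by omega, fun j hj => ?_⟩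
  obtain ⟨i, rfl⟩ : ∃ i, j = i + 1 := ⟨j - 1, by omega⟩
  rw [tow_succ]
  apply Nat.pow_le_pow_right (by norm_num)
  exact h3 i (by omega)

/-- the level of a large number -/
theorem level (C : ℕ) (hC : 2 ≤ C) : ∃ n0 : ℕ, ∀ n : ℕ, n0 ≤ n → ∃ k : ℕ, n ≤ tow k ∧
    (∀ k', n ≤ tow k' → k ≤ k') ∧ ((8 * 2 ^ (C ^ (k + 1)) : ℕ) : ℝ) ≤ 2 * Real.log n := by
  obtain ⟨j0, hj0, hg⟩ := grow C hC
  refine ⟨tow (j0 + 2) + 1, fun n hn => ?_⟩
  have hex : ∃ k, n ≤ tow k := ⟨n, le_tow n⟩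
  classical
  refine ⟨Nat.find hex, Nat.find_spec hex, fun k' hk' => Nat.find_min' hex hk', ?_⟩
  obtain ⟨k, hk⟩ : ∃ k, k = Nat.find hex := ⟨_, rfl⟩
  rw [← hk]
  have h1 : n ≤ tow k := by rw [hk]; exact Nat.find_spec hex
  have h2 : j0 + 3 ≤ k := by
    by_contra hcon
    have h3 : tow k ≤ tow (j0 + 2) := tow_mono (by omega)
    omega
  obtain ⟨i, rfl⟩ : ∃ i, k = i + 2 := ⟨k - 2, by omega⟩
  have h4 : ¬ n ≤ tow (i + 1) := Nat.find_min hex (by omega)
  rw [tow_succ] at h4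
  push Not at h4
  have h5 : 2 ^ (C ^ (i + 4)) ≤ tow i := hg i (by omega)
  have h6 : (tow i : ℝ) * Real.log 2 ≤ Real.log n := by
    rw [← Real.log_pow]
    exact Real.log_le_log (by positivity) (by exact_mod_cast h4.le)
  have h7 : (1 : ℝ) / 2 ≤ Real.log 2 := by have := Real.log_two_gt_d9; linarith
  have h8 : (tow i : ℝ) ≤ 2 * Real.log n := by
    have : (0 : ℝ) ≤ tow i := Nat.cast_nonneg _
    nlinarith
  refine le_trans ?_ h8
  have h9 : 8 * 2 ^ (C ^ (i + 2 + 1)) ≤ tow i := by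
    refine le_trans ?_ h5
    have h10 : 8 * 2 ^ (C ^ (i + 2 + 1)) = 2 ^ (C ^ (i + 3) + 3) := by
      rw [pow_add]; ring
    rw [h10]
    apply Nat.pow_le_pow_right (by norm_num)
    have h11 : 2 ^ (i + 3) ≤ C ^ (i + 3) := Nat.pow_le_pow_left hC _
    have h12 : 2 ^ 3 ≤ 2 ^ (i + 3) := Nat.pow_le_pow_right (by norm_num) (by omega)
    calc C ^ (i + 3) + 3 ≤ 2 * C ^ (i + 3) := by omega
      _ ≤ C * C ^ (i + 3) := Nat.mul_le_mul_right _ hC
      _ = C ^ (i + 4) := by ring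
  exact_mod_cast h9

/-- two square matrices side by side -/
def sd {a b : ℕ} (hab : a ≤ b) (A : Matrix (Fin a) (Fin a) ℤ) (B : Matrix (Fin b) (Fin b) ℤ) (s : ℤ) :
    Matrix (Fin a) (Fin (a + b)) ℤ :=
  Matrix.of fun i j => Fin.addCases (fun j => A i j) (fun j => s * B (Fin.castLE hab i) j) j

/-- two Hadamard matrices side by side, with both signs -/
theorem side2 {a b : ℕ} (ha : HasHad a) (hb : HasHad b) (hab : a ≤ b) :
    ∃ P Q : Matrix (Fin a) (Fin (a + b)) ℤ, (∀ i j, P i j = 1 ∨ P i j = -1) ∧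
      (∀ i j, Q i j = 1 ∨ Q i j = -1) ∧
      P * P.transpose = ((a + b : ℕ) : ℤ) • (1 : Matrix (Fin a) (Fin a) ℤ) ∧
      Q * Q.transpose = ((a + b : ℕ) : ℤ) • (1 : Matrix (Fin a) (Fin a) ℤ) ∧
      P * Q.transpose = ((a : ℤ) - b) • (1 : Matrix (Fin a) (Fin a) ℤ) := by
  obtain ⟨A, hA, hAA⟩ := ha
  obtain ⟨B, hB, hBB⟩ := hb
  have key : ∀ s t : ℤ, sd hab A B s * (sd hab A B t).transpose =
      ((a : ℤ) + s * t * b) • (1 : Matrix (Fin a) (Fin a) ℤ) := by
    intro s t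
    ext i j
    rw [Matrix.mul_apply, Fin.sum_univ_add]
    simp only [Matrix.transpose_apply, sd, Matrix.of_apply, Fin.addCases_left, Fin.addCases_right]
    have h1 := congrFun (congrFun hAA i) j
    have h2 := congrFun (congrFun hBB (Fin.castLE hab i)) (Fin.castLE hab j)
    rw [Matrix.mul_apply] at h1 h2
    simp only [Matrix.transpose_apply] at h1 h2
    have h3 : ∑ x, s * B (Fin.castLE hab i) x * (t * B (Fin.castLE hab j) x) =
        s * t * ∑ x, B (Fin.castLE hab i) x * B (Fin.castLE hab j) x := by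
      rw [Finset.mul_sum]
      exact Finset.sum_congr rfl fun x _ => by ring
    rw [h1, h3, h2]
    by_cases hij : i = j
    · subst hij
      simp
    · have hij' : Fin.castLE hab i ≠ Fin.castLE hab j := by
        intro h; exact hij (Fin.castLE_injective hab h)
      simp [Matrix.one_apply_ne hij, Matrix.one_apply_ne hij']
  refine ⟨sd hab A B 1, sd hab A B (-1), ?_, ?_, ?_, ?_, ?_⟩
  · intro i j
    refine Fin.addCases (fun j => ?_) (fun j => ?_) j
    · simp only [sd, Matrix.of_apply, Fin.addCases_left]; exact hA _ _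
    · simp only [sd, Matrix.of_apply, Fin.addCases_right, one_mul]; exact hB _ _
  · intro i j
    refine Fin.addCases (fun j => ?_) (fun j => ?_) j
    · simp only [sd, Matrix.of_apply, Fin.addCases_left]; exact hA _ _
    · simp only [sd, Matrix.of_apply, Fin.addCases_right]
      rcases hB (Fin.castLE hab i) j with h | h <;> rw [h] <;> simp
  · rw [key 1 1]; push_cast; congr 1; ring
  · rw [key (-1) (-1)]; push_cast; congr 1; ring
  · rw [key 1 (-1)]; congr 1; ring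

/-- sum of two Hadamard orders of nearly the same size -/
theorem half (A : ℕ) (hA : 1 ≤ A) : ∃ n0 : ℕ, ∀ n : ℕ, n0 ≤ n → 4 ∣ n → ∃ a b : ℕ, a + b = n ∧ a ≤ b ∧
    HasHad a ∧ HasHad b ∧ (b : ℝ) - a ≤ n / Real.log n ^ A := by
  obtain ⟨C, hC, hhad⟩ := Pool.Agent.W851.Had.main_had
  obtain ⟨n1, hn1⟩ := level C hC
  obtain ⟨x0, hx0⟩ := sw_short (A + 2)
  have h3 := (Real.tendsto_log_atTop.comp (tendsto_natCast_atTop_atTop (R := ℝ))).eventually_ge_atTop
    (2 ^ (A + 5) : ℝ)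
  have h1 := (Real.isLittleO_pow_log_id_atTop (n := A)).def (show (0 : ℝ) < 1 / 8 by norm_num)
  have h2 := (tendsto_natCast_atTop_atTop (R := ℝ)).eventually h1
  obtain ⟨n2, hn2⟩ := (h2.and h3).exists_forall_of_atTop
  refine ⟨max (max n1 (2 * x0)) (max n2 16), fun n hn h4 => ?_⟩
  have hnn1 : n1 ≤ n := (le_max_left _ _).trans ((le_max_left _ _).trans hn)
  have hnx0 : 2 * x0 ≤ n := (le_max_right _ _).trans ((le_max_left _ _).trans hn)
  have hnn2 : n2 ≤ n := (le_max_left _ _).trans ((le_max_right _ _).trans hn)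
  have hn16 : 16 ≤ n := (le_max_right _ _).trans ((le_max_right _ _).trans hn)
  obtain ⟨k, hk1, -, hk3⟩ := hn1 n hnn1
  obtain ⟨hlo, hlog⟩ := hn2 n hnn2
  simp only [Function.comp_apply] at hlog
  have hnr : (16 : ℝ) ≤ n := by exact_mod_cast hn16
  obtain ⟨L, hLd⟩ : ∃ L, L = Real.log n := ⟨_, rfl⟩
  rw [← hLd] at hk3 hlog ⊢
  have hp5 : (32 : ℝ) ≤ 2 ^ (A + 5) := by
    calc (32 : ℝ) = 2 ^ 5 := by norm_num
      _ ≤ 2 ^ (A + 5) := pow_le_pow_right₀ (by norm_num) (by omega)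
  have hL32 : 32 ≤ L := hp5.trans hlog
  have hLA : L ^ A ≤ n / 8 := by
    have h := hlo
    simp only [id, Real.norm_eq_abs] at h
    rw [← hLd, abs_of_nonneg (by positivity), abs_of_nonneg (by positivity)] at h
    linarith
  have hLA0 : (0 : ℝ) < L ^ A := by positivity
  -- the modulus
  obtain ⟨T, hT⟩ : ∃ T, T = C ^ (k + 1) := ⟨_, rfl⟩
  rw [← hT] at hk3
  have hT2 : 2 ≤ T := by
    rw [hT]
    calc 2 ≤ C := hC
      _ ≤ C ^ (k + 1) := Nat.le_self_pow (by omega) _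
  have h2T : 4 ≤ 2 ^ T := by
    calc 4 = 2 ^ 2 := by norm_num
      _ ≤ 2 ^ T := Nat.pow_le_pow_right (by norm_num) hT2
  -- the window
  obtain ⟨x, hx⟩ : ∃ x, n = 2 * x := ⟨n / 2, by omega⟩
  obtain ⟨y, hy⟩ : ∃ y : ℕ, y = ⌊(n : ℝ) / (2 * L ^ A)⌋₊ := ⟨_, rfl⟩
  have hy1 : (y : ℝ) ≤ n / (2 * L ^ A) := by rw [hy]; exact Nat.floor_le (by positivity)
  have hy2 : (n : ℝ) / (2 * L ^ A) < y + 1 := by rw [hy]; exact Nat.lt_floor_add_one _
  have hxr : (n : ℝ) = 2 * x := by exact_mod_cast hx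
  have hx8 : (8 : ℝ) ≤ x := by linarith
  have hlx : L / 2 ≤ Real.log x := by
    have h5 : (n : ℝ) ≤ x ^ 2 := by nlinarith
    have h6 := Real.log_le_log (by linarith) h5
    rw [Real.log_pow, ← hLd] at h6
    push_cast at h6
    linarith
  have hLA1 : 32 ≤ L ^ A := by
    calc (32 : ℝ) ≤ L := hL32
      _ = L ^ 1 := (pow_one L).symm
      _ ≤ L ^ A := pow_le_pow_right₀ (by linarith) hA
  have h2y : 2 * y ≤ x := by
    have h7 : (n : ℝ) / (2 * L ^ A) ≤ n / 64 :=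
      div_le_div_of_nonneg_left (by linarith) (by norm_num) (by linarith)
    have h8 : (2 : ℝ) * y ≤ x := by linarith
    exact_mod_cast h8
  have hwin : (x : ℝ) / Real.log x ^ (A + 2) ≤ y := by
    have h9 : (x : ℝ) / Real.log x ^ (A + 2) ≤ x / (L / 2) ^ (A + 2) :=
      div_le_div_of_nonneg_left (by linarith) (by positivity) (pow_le_pow_left₀ (by linarith) hlx _)
    have h10 : (x : ℝ) / (L / 2) ^ (A + 2) = (x / L ^ A) * (2 ^ (A + 2) / L ^ 2) := by
      rw [div_pow, pow_add L]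
      field_simp
    have h11 : (2 : ℝ) ^ (A + 2) / L ^ 2 ≤ 1 / 2 := by
      rw [div_le_iff₀ (by positivity)]
      have h12 : (2 : ℝ) ^ (A + 5) = 8 * 2 ^ (A + 2) := by ring
      nlinarith
    have h13 : (n : ℝ) / (2 * L ^ A) = x / L ^ A := by rw [hxr]; field_simp
    rw [h13] at hy2
    have h14 : (0 : ℝ) ≤ x / L ^ A := by positivity
    have h15 : (4 : ℝ) ≤ x / L ^ A := by
      rw [le_div_iff₀ hLA0]; linarith
    have h16 : (x : ℝ) / L ^ A * (2 ^ (A + 2) / L ^ 2) ≤ x / L ^ A * (1 / 2) :=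
      mul_le_mul_of_nonneg_left h11 h14
    linarith
  have hqx : ((2 ^ T : ℕ) : ℝ) ≤ Real.log x / 2 := by
    push_cast at hk3 ⊢
    linarith
  have hcop : ((n - 1) % 2 ^ T).Coprime (2 ^ T) := by
    rw [Nat.Coprime, ← Nat.gcd_rec, Nat.gcd_comm]
    apply Nat.Coprime.pow_right
    rw [Nat.coprime_two_right]
    rw [Nat.odd_iff]
    omega
  obtain ⟨p, hp, hpm, hp1, hp2⟩ := hx0 x y (by omega) h2y hwin (2 ^ T) ((n - 1) % 2 ^ T) (by omega)
    hqx (Nat.mod_lt _ (by omega)) hcop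
  have hpm' : p ≡ n - 1 [MOD 2 ^ T] := hpm.trans (Nat.mod_modEq _ _)
  have h4T : 4 ∣ 2 ^ T := by
    calc 4 = 2 ^ 2 := by norm_num
      _ ∣ 2 ^ T := Nat.pow_dvd_pow 2 hT2
  have hp4 : p % 4 = 3 := by
    have h17 : p ≡ n - 1 [MOD 4] := hpm'.of_dvd h4T
    have h18 : p % 4 = (n - 1) % 4 := h17
    omega
  have hpx : p + 1 ≤ x := by omega
  have hb : 2 ^ T ∣ n - (p + 1) := by
    have h19 : 2 ^ T ∣ (n - 1) - p := (Nat.modEq_iff_dvd' (by omega)).1 hpm'
    have h20 : n - (p + 1) = n - 1 - p := by omega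
    rw [h20]; exact h19
  obtain ⟨c, hc⟩ := hb
  have : Fact p.Prime := ⟨hp⟩
  refine ⟨p + 1, n - (p + 1), by omega, by omega, Pool.Agent.W69.HH.paley hp4, ?_, ?_⟩
  · rw [hc]
    apply hhad k c T _ (by rw [hT])
    have h21 : c ≤ 2 ^ T * c := Nat.le_mul_of_pos_left _ (by omega)
    omega
  · rw [Nat.cast_sub (by omega)]
    have h22 : (x : ℝ) - y ≤ p := by
      have : x ≤ p + y := by omega
      have : (x : ℝ) ≤ p + y := by exact_mod_cast this
      linarith
    have h23 : (n : ℝ) / L ^ A = 2 * (n / (2 * L ^ A)) := by field_simp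
    push_cast
    rw [h23]
    linarith

end Pool.Agent.X18.HadSum
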