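import Pool.Agent.X18.HadSum2
import Pool.Agent.W69.MH.Top

/-!
Every large multiple of four is the sum of two Hadamard orders, one of which is tiny.
-/

set_option autoImplicit false

namespace Pool.Agent.X18.HadSum

open Finset Filter
open Pool.Agent.H108R3.Had (HasHad)
open Pool.Agent.W851.Had (tow tow_zero tow_succ tow_pos)

theorem gen : Pool.Agent.W69.MH.St_GEN := by
  have hSUM := Pool.Agent.W933.MHSum.sum_
  have hFL := Pool.Agent.W333.MH.fl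
  have hDIFF := Pool.Agent.W505.MH.diff hFL hSUM
  have hA0 := Pool.Agent.W505.MH.a0 hFL hSUM
  have hCLS := Pool.Agent.W193.MH.Cls.cls hSUM
  have hB0 := Pool.Agent.H262R3.Lk.b0 Pool.Agent.W505.MH.bt hSUM
  have hB2 := Pool.Agent.W440.MH.b2 hSUM
  have hALG := Pool.Agent.H262R3.Lk.alg hSUM
  have hLIN := Pool.Agent.W215.MH.lin hSUM hDIFF hA0 hB0 hB2 hALG Pool.Agent.W215.MH.eul hCLS
    Pool.Agent.W701.MH.abs_
  have hTAIL := Pool.Agent.W803.MH.tail Pool.Agent.W505.MH.bt hSUM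
  exact Pool.Agent.W806.MH.gen (Pool.Agent.W928.MH.pr hLIN hTAIL Pool.Agent.W803.MH.real_)

/-- Linnik's theorem for powers of two -/
theorem linnik_two : ∃ D : ℕ, 1 ≤ D ∧ ∀ T u : ℕ, 2 ≤ T → Odd u →
    ∃ p : ℕ, p.Prime ∧ p ≡ u [MOD 2 ^ T] ∧ p + 1 ≤ 2 ^ (D * T) := by
  obtain ⟨K, hK, hG⟩ := gen
  obtain ⟨z0, hz0⟩ := hG 0
  obtain ⟨e, he⟩ : ∃ e, z0 ≤ 2 ^ e := ⟨z0, Nat.lt_two_pow_self.le⟩
  refine ⟨(e + 16) * K + 1, by omega, fun T u hT hu => ?_⟩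
  have h1 := hz0 (2 ^ (e + 16 * T)) (he.trans (Nat.pow_le_pow_right (by norm_num) (by omega)))
    (2 ^ T) T 1 u (by ring) hT odd_one (by simp) (by
      rw [← pow_mul]
      exact Nat.pow_le_pow_right (by norm_num) (by omega)) (by
      apply Nat.Coprime.pow_right
      rwa [Nat.coprime_two_right])
  obtain ⟨p, hp, -, hp2, hp3⟩ := h1.2.1
  refine ⟨p, hp, hp3, ?_⟩
  have h2 : p ≤ 2 ^ ((e + 16 * T) * K) := by rw [pow_mul]; exact hp2
  have h3 : (e + 16 * T) * K + 1 ≤ ((e + 16) * K + 1) * T := by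
    have h4 : e + 16 * T ≤ (e + 16) * T := by nlinarith
    have h5 := Nat.mul_le_mul_right K h4
    nlinarith
  calc p + 1 ≤ 2 ^ ((e + 16 * T) * K) + 2 ^ ((e + 16 * T) * K) :=
        Nat.add_le_add h2 Nat.one_le_two_pow
    _ = 2 ^ ((e + 16 * T) * K + 1) := by rw [pow_succ]; ring
    _ ≤ _ := Nat.pow_le_pow_right (by norm_num) h3

theorem two_orders : ∃ C N : ℕ, ∀ n k : ℕ, N ≤ n → 4 ∣ n → n ≤ tow k → ∃ a b : ℕ, 0 < a ∧ 0 < b ∧
    a + b = n ∧ HasHad a ∧ HasHad b ∧ a ≤ 2 ^ (C ^ (k + 1)) := by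
  obtain ⟨C, hC, hhad⟩ := Pool.Agent.W851.Had.main_had
  obtain ⟨D, hD, hlin⟩ := linnik_two
  obtain ⟨n1, hn1⟩ := level (D * C) (by nlinarith)
  refine ⟨D * C, max n1 16, fun n k hn h4 hk => ?_⟩
  have hnn1 : n1 ≤ n := (le_max_left _ _).trans hn
  have hn16 : 16 ≤ n := (le_max_right _ _).trans hn
  obtain ⟨i, hi1, hi2, hi3⟩ := hn1 n hnn1
  have hik : i ≤ k := hi2 k hk
  obtain ⟨T, hT⟩ : ∃ T, T = C ^ (i + 1) := ⟨_, rfl⟩
  have hT2 : 2 ≤ T := by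
    rw [hT]
    calc 2 ≤ C := hC
      _ ≤ C ^ (i + 1) := Nat.le_self_pow (by omega) _
  have h2T : 4 ≤ 2 ^ T := by
    calc 4 = 2 ^ 2 := by norm_num
      _ ≤ 2 ^ T := Nat.pow_le_pow_right (by norm_num) hT2
  obtain ⟨p, hp, hpm, hpb⟩ := hlin T (n - 1) hT2 (by rw [Nat.odd_iff]; omega)
  have hDT : D * T ≤ (D * C) ^ (i + 1) := by
    rw [hT, mul_pow]
    exact Nat.mul_le_mul_right _ (Nat.le_self_pow (by omega) _)
  have hpb2 : p + 1 ≤ 2 ^ ((D * C) ^ (i + 1)) := hpb.trans (Nat.pow_le_pow_right (by norm_num) hDT)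
  -- smaller than n
  have hlt : 2 ^ ((D * C) ^ (i + 1)) < n := by
    have h5 : Real.log n ≤ n := by
      have h6 := Real.log_le_sub_one_of_pos (show (0 : ℝ) < n by exact_mod_cast (by omega : 0 < n))
      linarith
    have h7 : ((8 * 2 ^ ((D * C) ^ (i + 1)) : ℕ) : ℝ) ≤ 2 * n := hi3.trans (by linarith)
    have h8 : 8 * 2 ^ ((D * C) ^ (i + 1)) ≤ 2 * n := by exact_mod_cast h7
    omega
  have h4T : 4 ∣ 2 ^ T := by
    calc 4 = 2 ^ 2 := by norm_num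
      _ ∣ 2 ^ T := Nat.pow_dvd_pow 2 hT2
  have hp4 : p % 4 = 3 := by
    have h17 : p ≡ n - 1 [MOD 4] := hpm.of_dvd h4T
    have h18 : p % 4 = (n - 1) % 4 := h17
    omega
  have hb : 2 ^ T ∣ n - (p + 1) := by
    have h19 : 2 ^ T ∣ (n - 1) - p := (Nat.modEq_iff_dvd' (by omega)).1 hpm
    have h20 : n - (p + 1) = n - 1 - p := by omega
    rw [h20]; exact h19
  obtain ⟨c, hc⟩ := hb
  have : Fact p.Prime := ⟨hp⟩
  refine ⟨p + 1, n - (p + 1), by omega, by omega, by omega, Pool.Agent.W69.HH.paley hp4, ?_, ?_⟩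
  · rw [hc]
    apply hhad i c T _ (by rw [hT])
    have h21 : c ≤ 2 ^ T * c := Nat.le_mul_of_pos_left _ (by omega)
    omega
  · refine hpb2.trans (Nat.pow_le_pow_right (by norm_num) (Nat.pow_le_pow_right ?_ (by omega)))
    have : 0 < D * C := by positivity
    omega

end Pool.Agent.X18.HadSum
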