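import Pool.Agent.X18.HadSum2

/-!
Every multiple of four is a difference of two Hadamard orders in many ways.
-/

set_option autoImplicit false

namespace Pool.Agent.X18.HadSum

open Finset Filter H343E
open Pool.Agent.H442R2.EHI (lis)
open Pool.Agent.H108R3.Had (HasHad)
open Pool.Agent.W851.Had (tow tow_zero tow_succ tow_pos)

/-- lower bound for the number of primes in a progression -/
theorem ap_lower : ∃ y0 : ℕ, ∀ y : ℕ, y0 ≤ y → ∀ q a : ℕ, 1 ≤ q → (q : ℝ) ≤ Real.log y → a < q →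
    a.Coprime q → (y : ℝ) / (4 * q * Real.log y) ≤ piAP y q a := by
  obtain ⟨x0, h0⟩ := sw_pi 3
  obtain ⟨C, hC⟩ := Pool.Agent.H442R2.EHI.pnt_err 3
  have h3 := (Real.tendsto_log_atTop.comp (tendsto_natCast_atTop_atTop (R := ℝ))).eventually_ge_atTop
    (4 * |C| + 8)
  obtain ⟨x1, h4⟩ := h3.exists_forall_of_atTop
  refine ⟨max x0 (max x1 16), fun y hy q a hq hqy haq hcop => ?_⟩
  have hy0 : x0 ≤ y := (le_max_left _ _).trans hy
  have hy1 : x1 ≤ y := (le_max_left _ _).trans ((le_max_right _ _).trans hy)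
  have hy16 : 16 ≤ y := (le_max_right _ _).trans ((le_max_right _ _).trans hy)
  have hL : 4 * |C| + 8 ≤ Real.log y := h4 y hy1
  set L := Real.log y with hLd
  have hCn : 0 ≤ |C| := abs_nonneg C
  have hL8 : 8 ≤ L := by linarith
  have hLp : 0 < L := by linarith
  have hyr : (16 : ℝ) ≤ y := by exact_mod_cast hy16
  have hs := (abs_le.1 (h0 y hy0 q a hq hqy haq hcop)).1
  have hp := (abs_le.1 (hC y (by omega))).1
  have hl := lis_diff (x := 2) (y := y) le_rfl (by omega)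
  have hl2 : 0 ≤ lis 2 := by
    unfold lis
    exact sum_nonneg fun n _ => by positivity
  have hφ0 : (0 : ℝ) < (Nat.totient q : ℝ) := by exact_mod_cast Nat.totient_pos.2 hq
  have hφq : (Nat.totient q : ℝ) ≤ q := by exact_mod_cast Nat.totient_le q
  have hq0 : (0 : ℝ) < q := by exact_mod_cast hq
  -- π(y) ≥ y / (2 L)
  have e1 : (y : ℝ) / (2 * L) ≤ pi1 y := by
    have e2 : C * y / L ^ 3 ≤ |C| * (y / L ^ 3) := by
      calc C * y / L ^ 3 = C * (y / L ^ 3) := by ring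
        _ ≤ _ := mul_le_mul_of_nonneg_right (le_abs_self C) (by positivity)
    have e3 : |C| * ((y : ℝ) / L ^ 3) ≤ y / (4 * L) := by
      rw [div_eq_mul_one_div (y : ℝ) (L ^ 3), div_eq_mul_one_div (y : ℝ) (4 * L)]
      have e4 : |C| * (1 / L ^ 3) ≤ 1 / (4 * L) := by
        rw [mul_one_div, div_le_div_iff₀ (by positivity) (by positivity)]
        have : 4 * |C| ≤ L := by linarith
        nlinarith [mul_le_mul_of_nonneg_right this hLp.le, sq_nonneg L, mul_pos hLp hLp]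
      nlinarith
    have e5 : (y : ℝ) / L - 2 / L ≤ lis y := by
      have : ((y : ℝ) - (2 : ℕ)) / L ≤ lis y - lis 2 := hl
      rw [sub_div] at this
      push_cast at this
      linarith
    have e6 : (2 : ℝ) / L ≤ y / (4 * L) := by
      rw [div_le_div_iff₀ hLp (by positivity)]
      nlinarith
    have e7 : (y : ℝ) / L = y / (4 * L) + y / (4 * L) + y / (2 * L) := by field_simp; ring
    unfold pi1
    linarith
  have e8 : (y : ℝ) / (2 * q * L) ≤ pi1 y / (Nat.totient q : ℝ) := by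
    calc (y : ℝ) / (2 * q * L) = y / (2 * L) / q := by field_simp
      _ ≤ y / (2 * L) / (Nat.totient q : ℝ) := div_le_div_of_nonneg_left (by positivity) hφ0 hφq
      _ ≤ _ := div_le_div_of_nonneg_right e1 hφ0.le
  have e9 : (y : ℝ) / L ^ 3 ≤ y / (4 * q * L) := by
    apply div_le_div_of_nonneg_left (by linarith) (by positivity)
    calc 4 * (q : ℝ) * L ≤ 4 * L * L := by nlinarith
      _ ≤ L * L * L := by nlinarith [mul_pos hLp hLp]
      _ = L ^ 3 := by ring
  have e10 : (y : ℝ) / (2 * q * L) = y / (4 * q * L) + y / (4 * q * L) := by field_simp; ring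
  linarith

theorem twins : ∃ C x0 : ℕ, ∀ x k h : ℕ, x0 ≤ x → x ≤ tow k → 4 ∣ h → h ≤ x →
    ∃ S : Finset ℕ, (x : ℝ) / (2 ^ (C ^ (k + 1)) * Real.log x) ≤ S.card ∧
      ∀ n ∈ S, 0 < n ∧ n ≤ x ∧ HasHad n ∧ HasHad (n + h) := by
  obtain ⟨C, hC, hhad⟩ := Pool.Agent.W851.Had.main_had
  obtain ⟨n1, hn1⟩ := level C hC
  obtain ⟨y0, hy0⟩ := ap_lower
  refine ⟨C * 4, max n1 (max (y0 + 1) 16), fun x k h hx hk h4 hhx => ?_⟩
  have hx1 : n1 ≤ x := (le_max_left _ _).trans hx
  have hx2 : y0 + 1 ≤ x := (le_max_left _ _).trans ((le_max_right _ _).trans hx)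
  have hx16 : 16 ≤ x := (le_max_right _ _).trans ((le_max_right _ _).trans hx)
  obtain ⟨i, hi1, hi2, hi3⟩ := hn1 x hx1
  have hik : i ≤ k := hi2 k hk
  obtain ⟨T, hT⟩ : ∃ T, T = C ^ (i + 1) := ⟨_, rfl⟩
  rw [← hT] at hi3
  have hT2 : 2 ≤ T := by
    rw [hT]
    calc 2 ≤ C := hC
      _ ≤ C ^ (i + 1) := Nat.le_self_pow (by omega) _
  have h2T : 4 ≤ 2 ^ T := by
    calc 4 = 2 ^ 2 := by norm_num
      _ ≤ 2 ^ T := Nat.pow_le_pow_right (by norm_num) hT2
  have h4T : 4 ∣ 2 ^ T := by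
    calc 4 = 2 ^ 2 := by norm_num
      _ ∣ 2 ^ T := Nat.pow_dvd_pow 2 hT2
  have hxr : (16 : ℝ) ≤ x := by exact_mod_cast hx16
  -- y = x - 1
  obtain ⟨y, rfl⟩ : ∃ y, x = y + 1 := ⟨x - 1, by omega⟩
  have hyr : (15 : ℝ) ≤ y := by push_cast at hxr; linarith
  have hlogy : Real.log ((y + 1 : ℕ) : ℝ) / 2 ≤ Real.log y := by
    have h5 : ((y + 1 : ℕ) : ℝ) ≤ (y : ℝ) ^ 2 := by push_cast; nlinarith
    have h6 := Real.log_le_log (by positivity) h5
    rw [Real.log_pow] at h6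
    push_cast at h6 ⊢
    linarith
  have hqy : ((2 ^ T : ℕ) : ℝ) ≤ Real.log y := by
    push_cast at hi3 hlogy ⊢
    have : (0 : ℝ) < 2 ^ T := by positivity
    linarith
  -- the residue class of -1 - h
  obtain ⟨r, hr⟩ : ∃ r, r = (2 ^ T * (h + 1) - 1 - h) % 2 ^ T := ⟨_, rfl⟩
  have hbig : h + 1 ≤ 2 ^ T * (h + 1) := Nat.le_mul_of_pos_left _ (by omega)
  obtain ⟨w, hw⟩ : ∃ w, w = 2 ^ T * (h + 1) - 1 - h := ⟨_, rfl⟩
  have hw4 : w % 4 = 3 := by
    obtain ⟨c, hc⟩ : 4 ∣ 2 ^ T * (h + 1) := h4T.mul_right _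
    omega
  have hcop : r.Coprime (2 ^ T) := by
    rw [hr, ← hw, Nat.Coprime, ← Nat.gcd_rec, Nat.gcd_comm]
    apply Nat.Coprime.pow_right
    rw [Nat.coprime_two_right, Nat.odd_iff]
    omega
  have hcount := hy0 y (by omega) (2 ^ T) r (by omega) hqy (by rw [hr]; exact Nat.mod_lt _ (by omega)) hcop
  refine ⟨((Icc 1 y).filter (fun p => p.Prime ∧ p ≡ r [MOD 2 ^ T])).image (fun p => p + 1), ?_, ?_⟩
  · rw [card_image_of_injective _ (fun a b hab => by simpa using hab)]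
    unfold piAP at hcount
    refine le_trans ?_ hcount
    have h8 : Real.log y ≤ Real.log ((y + 1 : ℕ) : ℝ) :=
      Real.log_le_log (by linarith) (by push_cast; linarith)
    have hly : 0 < Real.log y := Real.log_pos (by linarith)
    have h9 : (8 : ℝ) * 2 ^ T ≤ 2 ^ ((C * 4) ^ (k + 1)) := by
      have h10 : T + 3 ≤ (C * 4) ^ (k + 1) := by
        calc T + 3 ≤ T * 4 := by omega
          _ ≤ C ^ (k + 1) * 4 ^ (k + 1) := by
              rw [hT]
              exact Nat.mul_le_mul (Nat.pow_le_pow_right (by omega) (by omega))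
                (Nat.le_self_pow (by omega) _)
          _ = _ := by rw [mul_pow]
      calc (8 : ℝ) * 2 ^ T = 2 ^ (T + 3) := by rw [pow_add]; ring
        _ ≤ _ := pow_le_pow_right₀ (by norm_num) h10
    have hly2 : (((y + 1 : ℕ)) : ℝ) ≤ 2 * y := by push_cast; linarith
    calc (((y + 1 : ℕ)) : ℝ) / (2 ^ ((C * 4) ^ (k + 1)) * Real.log ((y + 1 : ℕ) : ℝ))
        ≤ (2 * y) / (8 * 2 ^ T * Real.log y) := by
          apply div_le_div₀ (by positivity) hly2 (by positivity)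
          exact mul_le_mul h9 h8 hly.le (by positivity)
      _ = y / (4 * ((2 ^ T : ℕ) : ℝ) * Real.log y) := by
          push_cast
          field_simp
          ring
  · intro n hn
    rw [mem_image] at hn
    obtain ⟨p, hp, rfl⟩ := hn
    rw [mem_filter, mem_Icc] at hp
    obtain ⟨⟨hp1, hp2⟩, hpp, hpm⟩ := hp
    have hpm' : p ≡ w [MOD 2 ^ T] := by
      refine hpm.trans ?_
      rw [hr, ← hw]
      exact Nat.mod_modEq _ _
    have hp4 : p % 4 = 3 := by
      have h17 : p ≡ w [MOD 4] := hpm'.of_dvd h4T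
      have h18 : p % 4 = w % 4 := h17
      omega
    have hdvd : 2 ^ T ∣ p + 1 + h := by
      have h19 : p + (1 + h) ≡ w + (1 + h) [MOD 2 ^ T] := hpm'.add_right _
      have h20 : w + (1 + h) = 2 ^ T * (h + 1) := by omega
      rw [h20] at h19
      have h21 : p + (1 + h) ≡ 0 [MOD 2 ^ T] := h19.trans (Nat.modEq_zero_iff_dvd.2 (dvd_mul_right _ _))
      have h22 := Nat.modEq_zero_iff_dvd.1 h21
      rwa [← add_assoc] at h22
    have : Fact p.Prime := ⟨hpp⟩
    refine ⟨by omega, by omega, Pool.Agent.W69.HH.paley hp4, ?_⟩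
    obtain ⟨c, hc⟩ := hdvd
    rw [hc]
    apply hhad i c T _ (by rw [hT])
    -- c ≤ tow i
    have h23 : 4 * c ≤ 2 ^ T * c := Nat.mul_le_mul_right _ h2T
    omega

end Pool.Agent.X18.HadSum
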