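import Pool.Agent.X18.HadSum3
import Pool.Agent.X18.HadTwin
import Pool.Agent.H114R2.Design

/-!
Variants of `two_orders` and `twins` in which the orders are at least eight, and the designs.
-/

set_option autoImplicit false

namespace Pool.Agent.X18.HadSum

open Finset Filter H343E
open Pool.Agent.H108R3.Had (HasHad)
open Pool.Agent.W851.Had (tow tow_zero tow_succ tow_pos)

/-- a residue modulo `2 ^ (T + 1)` that is not `3` -/
theorem lift_res (T w : ℕ) (hT : 2 ≤ T) (hw : w % 4 = 3) : ∃ w' : ℕ, w' ≡ w [MOD 2 ^ T] ∧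
    w' % 4 = 3 ∧ w' % 2 ^ (T + 1) ≠ 3 := by
  have h4T : 4 ∣ 2 ^ T := by
    calc 4 = 2 ^ 2 := by norm_num
      _ ∣ 2 ^ T := Nat.pow_dvd_pow 2 hT
  have h8 : 2 ^ (T + 1) = 2 * 2 ^ T := by ring
  have h4 : 4 ≤ 2 ^ T := Nat.le_of_dvd (by positivity) h4T
  by_cases h : w % 2 ^ (T + 1) = 3
  · refine ⟨w + 2 ^ T, ?_, ?_, ?_⟩
    · exact (Nat.add_modEq_right (n := 2 ^ T) (a := w))
    · obtain ⟨c, hc⟩ := h4T; omega
    · rw [Nat.add_mod, h, h8, Nat.mod_eq_of_lt (show 2 ^ T < 2 * 2 ^ T by omega)]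
      rcases Nat.lt_or_ge (3 + 2 ^ T) (2 * 2 ^ T) with h1 | h1
      · rw [Nat.mod_eq_of_lt h1]; omega
      · exfalso; omega
  · exact ⟨w, Nat.ModEq.refl _, hw, h⟩

theorem two_orders2 : ∃ C N : ℕ, ∀ n k : ℕ, N ≤ n → 4 ∣ n → n ≤ tow k → ∃ a b : ℕ, 8 ≤ a ∧ 8 ≤ b ∧
    4 ∣ a ∧ 4 ∣ b ∧ a + b = n ∧ HasHad a ∧ HasHad b ∧ a ≤ 2 ^ (C ^ (k + 1)) := by
  obtain ⟨C, hC, hhad⟩ := Pool.Agent.W851.Had.main_had
  obtain ⟨D, hD, hlin⟩ := linnik_two
  obtain ⟨n1, hn1⟩ := level (2 * D * C) (by nlinarith)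
  refine ⟨2 * D * C, max n1 64, fun n k hn h4 hk => ?_⟩
  have hnn1 : n1 ≤ n := (le_max_left _ _).trans hn
  have hn16 : 64 ≤ n := (le_max_right _ _).trans hn
  obtain ⟨i, hi1, hi2, hi3⟩ := hn1 n hnn1
  have hik : i ≤ k := hi2 k hk
  obtain ⟨T, hT⟩ : ∃ T, T = C ^ (i + 1) := ⟨_, rfl⟩
  have hT2 : 2 ≤ T := by
    rw [hT]
    calc 2 ≤ C := hC
      _ ≤ C ^ (i + 1) := Nat.le_self_pow (by omega) _
  have h2T : 4 ≤ 2 ^ T := by
    calc 4 = 2 ^ 2 := by norm_num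
      _ ≤ 2 ^ T := Nat.pow_le_pow_right (by norm_num) hT2
  obtain ⟨w, hw1, hw2, hw3⟩ := lift_res T (n - 1) hT2 (by omega)
  obtain ⟨p, hp, hpm, hpb⟩ := hlin (T + 1) w (by omega) (by rw [Nat.odd_iff]; omega)
  have hp3 : p ≠ 3 := by
    intro h
    apply hw3
    rw [h] at hpm
    have h5 : 3 % 2 ^ (T + 1) = w % 2 ^ (T + 1) := hpm
    rw [← h5]
    exact Nat.mod_eq_of_lt (by rw [pow_succ]; omega)
  have hpm2 : p ≡ n - 1 [MOD 2 ^ T] := (hpm.of_dvd (Nat.pow_dvd_pow 2 (by omega))).trans hw1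
  have hDT : D * (T + 1) ≤ (2 * D * C) ^ (i + 1) := by
    calc D * (T + 1) ≤ D * (2 * T) := Nat.mul_le_mul_left _ (by omega)
      _ = (2 * D) * T := by ring
      _ ≤ (2 * D) ^ (i + 1) * C ^ (i + 1) := by
        rw [hT]; exact Nat.mul_le_mul_right _ (Nat.le_self_pow (by omega) _)
      _ = _ := by rw [mul_pow (2 * D)]
  have hpb2 : p + 1 ≤ 2 ^ ((2 * D * C) ^ (i + 1)) := hpb.trans (Nat.pow_le_pow_right (by norm_num) hDT)
  have hlt : 4 * 2 ^ ((2 * D * C) ^ (i + 1)) ≤ n := by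
    have h5 : Real.log n ≤ n := by
      have h6 := Real.log_le_sub_one_of_pos (show (0 : ℝ) < n by exact_mod_cast (by omega : 0 < n))
      linarith
    have h7 : ((8 * 2 ^ ((2 * D * C) ^ (i + 1)) : ℕ) : ℝ) ≤ 2 * n := hi3.trans (by linarith)
    have h8 : 8 * 2 ^ ((2 * D * C) ^ (i + 1)) ≤ 2 * n := by exact_mod_cast h7
    omega
  have h4T : 4 ∣ 2 ^ T := by
    calc 4 = 2 ^ 2 := by norm_num
      _ ∣ 2 ^ T := Nat.pow_dvd_pow 2 hT2
  have hp4 : p % 4 = 3 := by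
    have h17 : p ≡ n - 1 [MOD 4] := hpm2.of_dvd h4T
    have h18 : p % 4 = (n - 1) % 4 := h17
    omega
  have hb : 2 ^ T ∣ n - (p + 1) := by
    have h19 : 2 ^ T ∣ (n - 1) - p := (Nat.modEq_iff_dvd' (by omega)).1 hpm2
    have h20 : n - (p + 1) = n - 1 - p := by omega
    rw [h20]; exact h19
  have hb4 : 4 ∣ n - (p + 1) := h4T.trans hb
  obtain ⟨c, hc⟩ := hb
  have : Fact p.Prime := ⟨hp⟩
  refine ⟨p + 1, n - (p + 1), by omega, by omega, by omega, hb4, by omega,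
    Pool.Agent.W69.HH.paley hp4, ?_, ?_⟩
  · rw [hc]
    apply hhad i c T _ (by rw [hT])
    have h21 : c ≤ 2 ^ T * c := Nat.le_mul_of_pos_left _ (by omega)
    omega
  · refine hpb2.trans (Nat.pow_le_pow_right (by norm_num) (Nat.pow_le_pow_right ?_ (by omega)))
    have : 0 < 2 * D * C := by positivity
    omega

theorem twins2 : ∃ C x0 : ℕ, ∀ x k h : ℕ, x0 ≤ x → x ≤ tow k → 4 ∣ h → h ≤ x →
    ∃ S : Finset ℕ, (x : ℝ) / (2 ^ (C ^ (k + 1)) * Real.log x) ≤ S.card ∧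
      ∀ n ∈ S, 8 ≤ n ∧ 4 ∣ n ∧ n ≤ x ∧ HasHad n ∧ HasHad (n + h) := by
  obtain ⟨C, hC, hhad⟩ := Pool.Agent.W851.Had.main_had
  obtain ⟨n1, hn1⟩ := level C hC
  obtain ⟨y0, hy0⟩ := ap_lower
  refine ⟨C * 4, max n1 (max (y0 + 1) 16), fun x k h hx hk h4 hhx => ?_⟩
  have hx1 : n1 ≤ x := (le_max_left _ _).trans hx
  have hx2 : y0 + 1 ≤ x := (le_max_left _ _).trans ((le_max_right _ _).trans hx)
  have hx16 : 16 ≤ x := (le_max_right _ _).trans ((le_max_right _ _).trans hx)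
  obtain ⟨i, hi1, hi2, hi3⟩ := hn1 x hx1
  have hik : i ≤ k := hi2 k hk
  obtain ⟨T, hT⟩ : ∃ T, T = C ^ (i + 1) := ⟨_, rfl⟩
  rw [← hT] at hi3
  have hT2 : 2 ≤ T := by
    rw [hT]
    calc 2 ≤ C := hC
      _ ≤ C ^ (i + 1) := Nat.le_self_pow (by omega) _
  have h2T : 4 ≤ 2 ^ T := by
    calc 4 = 2 ^ 2 := by norm_num
      _ ≤ 2 ^ T := Nat.pow_le_pow_right (by norm_num) hT2
  have h4T : 4 ∣ 2 ^ T := by
    calc 4 = 2 ^ 2 := by norm_num
      _ ∣ 2 ^ T := Nat.pow_dvd_pow 2 hT2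
  have h8T : 2 ^ (T + 1) = 2 * 2 ^ T := by ring
  have hxr : (16 : ℝ) ≤ x := by exact_mod_cast hx16
  -- y = x - 1
  obtain ⟨y, rfl⟩ : ∃ y, x = y + 1 := ⟨x - 1, by omega⟩
  have hyr : (15 : ℝ) ≤ y := by push_cast at hxr; linarith
  have hlogy : Real.log ((y + 1 : ℕ) : ℝ) / 2 ≤ Real.log y := by
    have h5 : ((y + 1 : ℕ) : ℝ) ≤ (y : ℝ) ^ 2 := by push_cast; nlinarith
    have h6 := Real.log_le_log (by positivity) h5
    rw [Real.log_pow] at h6
    push_cast at h6 ⊢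
    linarith
  have hqy : ((2 ^ (T + 1) : ℕ) : ℝ) ≤ Real.log y := by
    rw [h8T]
    push_cast at hi3 hlogy ⊢
    have : (0 : ℝ) < 2 ^ T := by positivity
    linarith
  -- the residue class
  have hbig : h + 1 ≤ 2 ^ T * (h + 1) := Nat.le_mul_of_pos_left _ (by omega)
  obtain ⟨w, hw⟩ : ∃ w, w = 2 ^ T * (h + 1) - 1 - h := ⟨_, rfl⟩
  have hw4 : w % 4 = 3 := by
    obtain ⟨c, hc⟩ : 4 ∣ 2 ^ T * (h + 1) := h4T.mul_right _
    omega
  obtain ⟨w', hw1, hw2, hw3⟩ := lift_res T w hT2 hw4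
  obtain ⟨r, hr⟩ : ∃ r, r = w' % 2 ^ (T + 1) := ⟨_, rfl⟩
  have hcop : r.Coprime (2 ^ (T + 1)) := by
    rw [hr, Nat.Coprime, ← Nat.gcd_rec, Nat.gcd_comm]
    apply Nat.Coprime.pow_right
    rw [Nat.coprime_two_right, Nat.odd_iff]
    omega
  have hcount := hy0 y (by omega) (2 ^ (T + 1)) r (by omega) hqy
    (by rw [hr]; exact Nat.mod_lt _ (by omega)) hcop
  refine ⟨((Icc 1 y).filter (fun p => p.Prime ∧ p ≡ r [MOD 2 ^ (T + 1)])).image (fun p => p + 1), ?_, ?_⟩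
  · rw [card_image_of_injective _ (fun a b hab => by simpa using hab)]
    unfold piAP at hcount
    refine le_trans ?_ hcount
    have h8 : Real.log y ≤ Real.log ((y + 1 : ℕ) : ℝ) :=
      Real.log_le_log (by linarith) (by push_cast; linarith)
    have hly : 0 < Real.log y := Real.log_pos (by linarith)
    have h9 : (16 : ℝ) * 2 ^ T ≤ 2 ^ ((C * 4) ^ (k + 1)) := by
      have h10 : T + 4 ≤ (C * 4) ^ (k + 1) := by
        calc T + 4 ≤ T * 4 := by omega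
          _ ≤ C ^ (k + 1) * 4 ^ (k + 1) := by
              rw [hT]
              exact Nat.mul_le_mul (Nat.pow_le_pow_right (by omega) (by omega))
                (Nat.le_self_pow (by omega) _)
          _ = _ := by rw [mul_pow]
      calc (16 : ℝ) * 2 ^ T = 2 ^ (T + 4) := by rw [pow_add]; ring
        _ ≤ _ := pow_le_pow_right₀ (by norm_num) h10
    have hly2 : (((y + 1 : ℕ)) : ℝ) ≤ 2 * y := by push_cast; linarith
    calc (((y + 1 : ℕ)) : ℝ) / (2 ^ ((C * 4) ^ (k + 1)) * Real.log ((y + 1 : ℕ) : ℝ))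
        ≤ (2 * y) / (16 * 2 ^ T * Real.log y) := by
          apply div_le_div₀ (by positivity) hly2 (by positivity)
          exact mul_le_mul h9 h8 hly.le (by positivity)
      _ = y / (4 * ((2 ^ (T + 1) : ℕ) : ℝ) * Real.log y) := by
          rw [h8T]
          push_cast
          field_simp
          ring
  · intro n hn
    rw [mem_image] at hn
    obtain ⟨p, hp, rfl⟩ := hn
    rw [mem_filter, mem_Icc] at hp
    obtain ⟨⟨hp1, hp2⟩, hpp, hpm⟩ := hp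
    have hpm1 : p ≡ w' [MOD 2 ^ (T + 1)] := by
      refine hpm.trans ?_
      rw [hr]
      exact Nat.mod_modEq _ _
    have hp3 : p ≠ 3 := by
      intro h
      apply hw3
      rw [h] at hpm1
      have h5 : 3 % 2 ^ (T + 1) = w' % 2 ^ (T + 1) := hpm1
      rw [← h5]
      exact Nat.mod_eq_of_lt (by rw [pow_succ]; omega)
    have hpm' : p ≡ w [MOD 2 ^ T] := (hpm1.of_dvd (Nat.pow_dvd_pow 2 (by omega))).trans hw1
    have hp4 : p % 4 = 3 := by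
      have h17 : p ≡ w [MOD 4] := hpm'.of_dvd h4T
      have h18 : p % 4 = w % 4 := h17
      omega
    have hdvd : 2 ^ T ∣ p + 1 + h := by
      have h19 : p + (1 + h) ≡ w + (1 + h) [MOD 2 ^ T] := hpm'.add_right _
      have h20 : w + (1 + h) = 2 ^ T * (h + 1) := by omega
      rw [h20] at h19
      have h21 : p + (1 + h) ≡ 0 [MOD 2 ^ T] := h19.trans (Nat.modEq_zero_iff_dvd.2 (dvd_mul_right _ _))
      have h22 := Nat.modEq_zero_iff_dvd.1 h21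
      rwa [← add_assoc] at h22
    have : Fact p.Prime := ⟨hpp⟩
    refine ⟨by omega, by omega, by omega, Pool.Agent.W69.HH.paley hp4, ?_⟩
    obtain ⟨c, hc⟩ := hdvd
    rw [hc]
    apply hhad i c T _ (by rw [hT])
    have h23 : 4 * c ≤ 2 ^ T * c := Nat.mul_le_mul_right _ h2T
    omega

/-- the symmetric designs of a Hadamard matrix of order `2 u` -/
theorem both_designs {u : ℕ} (hu : 4 ≤ u) (h2 : 2 ∣ u) (h : HasHad (2 * u)) :
    (∃ B, Pool.Agent.H114R2.IsSymDesign (4 * u ^ 2) (2 * u ^ 2 - u) (u ^ 2 - u) B) ∧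
    ∃ B, Pool.Agent.H114R2.IsSymDesign (2 * u - 1) (u - 1) (u / 2 - 1) B := by
  refine ⟨Pool.Agent.H114R2.menon_of_had (by omega) h, ?_⟩
  obtain ⟨m, rfl⟩ := h2
  have h1 : 2 * (2 * m) = 4 * m := by ring
  rw [h1] at h ⊢
  have := Pool.Agent.H114R2.hadDesign_of_had (by omega) h
  have h3 : 2 * m / 2 - 1 = m - 1 := by omega
  rw [h3]
  exact this

end Pool.Agent.X18.HadSum
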