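import Pool.Agent.X18.HadSum2

/-!
Nearly complete families of blocks with the parameters of a Hadamard design.
-/

set_option autoImplicit false

namespace Pool.Agent.X18.HalfDes

open Finset Filter
open Pool.Agent.H108R3.Had (HasHad)

/-- the block of a row -/
def blk {v : ℕ} (x : Fin (v + 1) → ℤ) : Finset (Fin v) := univ.filter fun c => x c.castSucc = 1

theorem card_blk {v : ℕ} (x : Fin (v + 1) → ℤ) (hx : ∀ c, x c = 1 ∨ x c = -1)
    (hl : x (Fin.last v) = 1) (hs : ∑ c, x c = 0) : 2 * (blk x).card + 1 = v := by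
  have h1 : ∑ c, (1 + x c) = (v : ℤ) + 1 := by
    rw [sum_add_distrib, hs]; simp
  rw [Fin.sum_univ_castSucc, hl] at h1
  have h2 : ∑ c : Fin v, (1 + x c.castSucc) = 2 * ((blk x).card : ℤ) := by
    rw [blk, card_filter]
    push_cast
    rw [mul_sum]
    refine sum_congr rfl fun c _ => ?_
    rcases hx c.castSucc with h | h <;> rw [h] <;> norm_num
  rw [h2] at h1
  omega

theorem card_inter {v : ℕ} (x y : Fin (v + 1) → ℤ) (hx : ∀ c, x c = 1 ∨ x c = -1)
    (hy : ∀ c, y c = 1 ∨ y c = -1)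
    (hlx : x (Fin.last v) = 1) (hly : y (Fin.last v) = 1) (hsx : ∑ c, x c = 0) (hsy : ∑ c, y c = 0)
    (hxy : ∑ c, x c * y c = 0) : 4 * (blk x ∩ blk y).card + 3 = v := by
  have h1 : ∑ c, (1 + x c) * (1 + y c) = (v : ℤ) + 1 := by
    have : ∀ c, (1 + x c) * (1 + y c) = 1 + x c + y c + x c * y c := fun c => by ring
    simp_rw [this]
    rw [sum_add_distrib, sum_add_distrib, sum_add_distrib, hsx, hsy, hxy]; simp
  rw [Fin.sum_univ_castSucc, hlx, hly] at h1
  have h2 : ∑ c : Fin v, (1 + x c.castSucc) * (1 + y c.castSucc) = 4 * ((blk x ∩ blk y).card : ℤ) := by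
    rw [blk, blk, ← filter_and, card_filter]
    push_cast
    rw [mul_sum]
    refine sum_congr rfl fun c _ => ?_
    rcases hx c.castSucc with h | h <;> rcases hy c.castSucc with h' | h' <;> rw [h, h'] <;> norm_num
  rw [h2] at h1
  omega

theorem blk_inj {v : ℕ} (x y : Fin (v + 1) → ℤ) (hx : ∀ c, x c = 1 ∨ x c = -1)
    (hy : ∀ c, y c = 1 ∨ y c = -1)
    (hlx : x (Fin.last v) = 1) (hly : y (Fin.last v) = 1) (h : blk x = blk y) : x = y := by
  funext c
  refine Fin.lastCases (by rw [hlx, hly]) (fun c => ?_) c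
  have h1 : c ∈ blk x ↔ c ∈ blk y := by rw [h]
  simp only [blk, mem_filter, mem_univ, true_and] at h1
  rcases hx c.castSucc with h2 | h2 <;> rcases hy c.castSucc with h3 | h3
  · rw [h2, h3]
  · rw [h2] at h1
    rw [h3] at h1
    norm_num at h1
  · rw [h2] at h1
    rw [h3] at h1
    norm_num at h1
  · rw [h2, h3]

theorem of_rows {v m : ℕ} (P Q : Matrix (Fin (m + 1)) (Fin (v + 1)) ℤ)
    (hP : ∀ i j, P i j = 1 ∨ P i j = -1) (hQ : ∀ i j, Q i j = 1 ∨ Q i j = -1)
    (hPP : P * P.transpose = ((v + 1 : ℕ) : ℤ) • (1 : Matrix (Fin (m + 1)) (Fin (m + 1)) ℤ))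
    (hQQ : Q * Q.transpose = ((v + 1 : ℕ) : ℤ) • (1 : Matrix (Fin (m + 1)) (Fin (m + 1)) ℤ))
    (e : ℤ) (hPQ : P * Q.transpose = e • (1 : Matrix (Fin (m + 1)) (Fin (m + 1)) ℤ))
    (he : |e| < ((v + 1 : ℕ) : ℤ)) :
    ∃ B : Bool → Fin m → Finset (Fin v), (∀ b i, 2 * (B b i).card + 1 = v) ∧
      (∀ b b' i j, i ≠ j → 4 * (B b i ∩ B b' j).card + 3 = v) ∧ ∀ i, B true i ≠ B false i := by
  -- all inner products
  obtain ⟨X, hX⟩ : ∃ X : Bool → Matrix (Fin (m + 1)) (Fin (v + 1)) ℤ, X = fun b => if b then P else Q :=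
    ⟨_, rfl⟩
  have hX1 : ∀ b i j, X b i j = 1 ∨ X b i j = -1 := by
    intro b i j; rw [hX]; cases b
    · exact hQ i j
    · exact hP i j
  have entry : ∀ (A B : Matrix (Fin (m + 1)) (Fin (v + 1)) ℤ) (d : ℤ) (i j : Fin (m + 1)),
      A * B.transpose = d • (1 : Matrix (Fin (m + 1)) (Fin (m + 1)) ℤ) →
      ∑ c, A i c * B j c = if i = j then d else 0 := by
    intro A B d i j h
    have := congrFun (congrFun h i) j
    rw [Matrix.mul_apply] at this
    simp only [Matrix.transpose_apply] at this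
    rw [this]
    by_cases hij : i = j
    · subst hij; simp
    · simp [Matrix.one_apply_ne hij, hij]
  have hX2 : ∀ b b' i j, i ≠ j → ∑ c, X b i c * X b' j c = 0 := by
    intro b b' i j hij
    rw [hX]
    cases b <;> cases b' <;> simp only [if_true, if_false, Bool.false_eq_true]
    · rw [entry Q Q _ i j hQQ, if_neg hij]
    · have := entry P Q _ j i hPQ
      rw [if_neg (Ne.symm hij)] at this
      rw [← this]
      exact sum_congr rfl fun c _ => by ring
    · rw [entry P Q _ i j hPQ, if_neg hij]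
    · rw [entry P P _ i j hPP, if_neg hij]
  -- signs
  have hsq : ∀ (z : ℤ), z = 1 ∨ z = -1 → z * z = 1 := by
    rintro z (h | h) <;> rw [h] <;> norm_num
  have hmul : ∀ (y z : ℤ), (y = 1 ∨ y = -1) → (z = 1 ∨ z = -1) → (y * z = 1 ∨ y * z = -1) := by
    rintro y z (h | h) (h' | h') <;> rw [h, h'] <;> norm_num
  obtain ⟨R, hR⟩ : ∃ R : Bool → Fin m → Fin (v + 1) → ℤ, R = fun b i c =>
      (X b i.succ (Fin.last v) * P 0 (Fin.last v)) * (X b i.succ c * P 0 c) := ⟨_, rfl⟩
  have hR1 : ∀ b i c, R b i c = 1 ∨ R b i c = -1 := by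
    intro b i c; rw [hR]
    exact hmul _ _ (hmul _ _ (hX1 _ _ _) (hP _ _)) (hmul _ _ (hX1 _ _ _) (hP _ _))
  have hR2 : ∀ b i, R b i (Fin.last v) = 1 := by
    intro b i; rw [hR]
    exact hsq _ (hmul _ _ (hX1 _ _ _) (hP _ _))
  have hPX : P = X true := by rw [hX]; rfl
  have hR3 : ∀ b i, ∑ c, R b i c = 0 := by
    intro b i; rw [hR]
    simp only
    rw [← mul_sum]
    have := hX2 b true i.succ 0 (Fin.succ_ne_zero i)
    rw [← hPX] at this
    rw [this, mul_zero]
  have hR4 : ∀ b b' i j, i ≠ j → ∑ c, R b i c * R b' j c = 0 := by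
    intro b b' i j hij; rw [hR]
    simp only
    have h1 : ∀ c, X b i.succ (Fin.last v) * P 0 (Fin.last v) * (X b i.succ c * P 0 c) *
        (X b' j.succ (Fin.last v) * P 0 (Fin.last v) * (X b' j.succ c * P 0 c)) =
        (X b i.succ (Fin.last v) * P 0 (Fin.last v) * (X b' j.succ (Fin.last v) * P 0 (Fin.last v))) *
        (X b i.succ c * X b' j.succ c) := by
      intro c
      have := hsq _ (hP 0 c)
      linear_combination (X b i.succ (Fin.last v) * P 0 (Fin.last v) *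
        (X b' j.succ (Fin.last v) * P 0 (Fin.last v))) * (X b i.succ c * X b' j.succ c) * this
    simp_rw [h1]
    rw [← mul_sum, hX2 b b' i.succ j.succ (by simpa using hij), mul_zero]
  refine ⟨fun b i => blk (R b i), fun b i => card_blk _ (hR1 b i) (hR2 b i) (hR3 b i),
    fun b b' i j hij => card_inter _ _ (hR1 b i) (hR1 b' j) (hR2 b i) (hR2 b' j) (hR3 b i) (hR3 b' j)
      (hR4 b b' i j hij), fun i h => ?_⟩
  have h1 := blk_inj _ _ (hR1 true i) (hR1 false i) (hR2 true i) (hR2 false i) h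
  have h2 : ∑ c, R true i c * R false i c = ((v + 1 : ℕ) : ℤ) := by
    rw [h1]
    have : ∀ c, R false i c * R false i c = 1 := fun c => hsq _ (hR1 false i c)
    simp_rw [this]
    simp
  have h3 : ∑ c, R true i c * R false i c = (X true i.succ (Fin.last v) * P 0 (Fin.last v) *
      (X false i.succ (Fin.last v) * P 0 (Fin.last v))) * e := by
    have h4 : ∑ c, X true i.succ c * X false i.succ c = e := by
      have := entry P Q _ i.succ i.succ hPQ
      rw [if_pos rfl] at this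
      rw [← this, hX]
      rfl
    rw [← h4, mul_sum, hR]
    refine sum_congr rfl fun c _ => ?_
    have := hsq _ (hP 0 c)
    linear_combination (X true i.succ (Fin.last v) * P 0 (Fin.last v) *
        (X false i.succ (Fin.last v) * P 0 (Fin.last v))) * (X true i.succ c * X false i.succ c) * this
  rw [h2] at h3
  have h5 := hmul _ _ (hmul _ _ (hX1 true i.succ (Fin.last v)) (hP 0 (Fin.last v)))
    (hmul _ _ (hX1 false i.succ (Fin.last v)) (hP 0 (Fin.last v)))
  have h6 := abs_lt.1 he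
  rcases h5 with h5 | h5 <;> rw [h5] at h3 <;> omega

theorem main (A : ℕ) : ∃ v₀ : ℕ, ∀ v : ℕ, v₀ ≤ v → v % 4 = 3 →
    ∃ (m : ℕ) (B : Bool → Fin m → Finset (Fin v)), 2 * m ≤ v ∧
      (v : ℝ) - v / Real.log v ^ A ≤ 2 * m ∧ (∀ b i, 2 * (B b i).card + 1 = v) ∧
      (∀ b b' i j, i ≠ j → 4 * (B b i ∩ B b' j).card + 3 = v) ∧ ∀ i, B true i ≠ B false i := by
  obtain ⟨n₀, h⟩ := Pool.Agent.X18.HadSum.half (A + 1) (by omega)
  have h3 := (Real.tendsto_log_atTop.comp (tendsto_natCast_atTop_atTop (R := ℝ))).eventually_ge_atTop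
    (16 : ℝ)
  have h1 := (Real.isLittleO_pow_log_id_atTop (n := A)).def (show (0 : ℝ) < 1 / 8 by norm_num)
  have h2 := (tendsto_natCast_atTop_atTop (R := ℝ)).eventually h1
  obtain ⟨n2, hn2⟩ := (h2.and h3).exists_forall_of_atTop
  refine ⟨max n₀ (max n2 16), fun v hv h4 => ?_⟩
  have hv0 : n₀ ≤ v := (le_max_left _ _).trans hv
  have hv2 : n2 ≤ v := (le_max_left _ _).trans ((le_max_right _ _).trans hv)
  have hv16 : 16 ≤ v := (le_max_right _ _).trans ((le_max_right _ _).trans hv)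
  obtain ⟨a, b, hab, hle, ha, hb, hd⟩ := h (v + 1) (by omega) (by omega)
  obtain ⟨hlo, hlog⟩ := hn2 v hv2
  simp only [Function.comp_apply] at hlog
  obtain ⟨L, hL⟩ : ∃ L, L = Real.log v := ⟨_, rfl⟩
  rw [← hL] at hlog
  have hvr : (16 : ℝ) ≤ v := by exact_mod_cast hv16
  have hLA : L ^ A ≤ v / 8 := by
    have h := hlo
    simp only [id, Real.norm_eq_abs] at h
    rw [← hL, abs_of_nonneg (by positivity), abs_of_nonneg (by positivity)] at h
    linarith
  have hLA0 : (0 : ℝ) < L ^ A := by positivity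
  have hlog1 : L ≤ Real.log ((v + 1 : ℕ) : ℝ) := by
    rw [hL]
    exact Real.log_le_log (by linarith) (by push_cast; linarith)
  have hd2 : ((v + 1 : ℕ) : ℝ) / Real.log ((v + 1 : ℕ) : ℝ) ^ (A + 1) ≤ v / (8 * L ^ A) := by
    calc ((v + 1 : ℕ) : ℝ) / Real.log ((v + 1 : ℕ) : ℝ) ^ (A + 1)
        ≤ ((v + 1 : ℕ) : ℝ) / L ^ (A + 1) :=
          div_le_div_of_nonneg_left (by positivity) (by positivity) (pow_le_pow_left₀ (by linarith) hlog1 _)
      _ ≤ (2 * v) / (16 * L ^ A) := by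
          apply div_le_div₀ (by positivity)
          · push_cast; linarith
          · positivity
          · rw [pow_succ, mul_comm]; exact mul_le_mul_of_nonneg_left hlog hLA0.le
      _ = v / (8 * L ^ A) := by field_simp; ring
  have hone : (1 : ℝ) ≤ v / (8 * L ^ A) := by
    rw [le_div_iff₀ (by positivity)]
    linarith
  have hsmall : (v : ℝ) / (8 * L ^ A) ≤ v / L ^ A / 8 := by
    rw [div_div, mul_comm]
  have hvL : (0 : ℝ) ≤ v / L ^ A := by positivity
  have hbig : (v : ℝ) / L ^ A ≤ v / 16 ∨ A = 0 := by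
    rcases Nat.eq_zero_or_pos A with h0 | h0
    · right; exact h0
    · left
      apply div_le_div_of_nonneg_left (by linarith) (by norm_num)
      calc (16 : ℝ) ≤ L := hlog
        _ = L ^ 1 := (pow_one L).symm
        _ ≤ L ^ A := pow_le_pow_right₀ (by linarith) h0
  have habr : (a : ℝ) + b = v + 1 := by exact_mod_cast hab
  have hapos : 0 < a := by
    rcases Nat.eq_zero_or_pos a with h0 | h0
    · exfalso
      rw [h0] at habr hd
      push_cast at habr hd
      have h5 : (v : ℝ) / (8 * L ^ A) ≤ v / 8 := by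
        apply div_le_div_of_nonneg_left (by linarith) (by norm_num)
        have : (1 : ℝ) ≤ L ^ A := one_le_pow₀ (by linarith)
        linarith
      push_cast at hd2
      linarith
    · exact h0
  obtain ⟨m, rfl⟩ : ∃ m, a = m + 1 := ⟨a - 1, by omega⟩
  obtain ⟨P, Q, hP, hQ, hPP, hQQ, hPQ⟩ : ∃ P Q : Matrix (Fin (m + 1)) (Fin (v + 1)) ℤ,
      (∀ i j, P i j = 1 ∨ P i j = -1) ∧ (∀ i j, Q i j = 1 ∨ Q i j = -1) ∧
      P * P.transpose = ((v + 1 : ℕ) : ℤ) • (1 : Matrix (Fin (m + 1)) (Fin (m + 1)) ℤ) ∧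
      Q * Q.transpose = ((v + 1 : ℕ) : ℤ) • (1 : Matrix (Fin (m + 1)) (Fin (m + 1)) ℤ) ∧
      P * Q.transpose = (((m + 1 : ℕ) : ℤ) - b) • (1 : Matrix (Fin (m + 1)) (Fin (m + 1)) ℤ) := by
    rw [← hab]
    exact Pool.Agent.X18.HadSum.side2 ha hb hle
  obtain ⟨B, hB1, hB2, hB3⟩ := of_rows P Q hP hQ hPP hQQ _ hPQ (by
    rw [abs_lt]
    constructor <;> push_cast <;> omega)
  refine ⟨m, B, by omega, ?_, hB1, hB2, hB3⟩
  rw [← hL]
  have h7 := hd.trans hd2
  push_cast at h7 habr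
  linarith

end Pool.Agent.X18.HalfDes
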