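import Pool.Agent.W851.Had.Tower

/-!
Symmetric designs with Menon parameters on which a given group acts semiregularly.
-/

set_option autoImplicit false

namespace Pool.Agent.X18.Menon

open Finset
open Pool.Agent.H108R3.Had (HasHad)

/-- a normalised Hadamard matrix with rows indexed by a group -/
theorem exists_normal {Γ : Type} [Group Γ] [Fintype Γ] [DecidableEq Γ] {n : ℕ} (hn : Fintype.card Γ = n)
    (h : HasHad n) : ∃ H : Γ → Fin n → ℤ, (∀ x a, H x a = 1 ∨ H x a = -1) ∧ (∀ a, H 1 a = 1) ∧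
      (∀ x y, ∑ a, H x a * H y a = if x = y then (n : ℤ) else 0) ∧
      (∀ a b, ∑ x, H x a * H x b = if a = b then (n : ℤ) else 0) := by
  obtain ⟨M, h1, h2⟩ := h
  have hn0 : 0 < n := by rw [← hn]; exact Fintype.card_pos
  let e : Γ ≃ Fin n := Fintype.equivFinOfCardEq hn
  have hsq : ∀ i j, M i j * M i j = 1 := by
    intro i j; rcases h1 i j with h | h <;> rw [h] <;> norm_num
  -- the other product
  have h3 : M.transpose * M = (n : ℤ) • (1 : Matrix (Fin n) (Fin n) ℤ) := by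
    have hq : (M.map (Int.cast : ℤ → ℚ)) * (M.map (Int.cast : ℤ → ℚ)).transpose =
        (n : ℚ) • (1 : Matrix (Fin n) (Fin n) ℚ) := by
      have := congrArg (fun A : Matrix (Fin n) (Fin n) ℤ => A.map (Int.castRingHom ℚ)) h2
      simp only [Matrix.map_mul] at this
      refine Eq.trans (b := M.map (Int.castRingHom ℚ) * M.transpose.map (Int.castRingHom ℚ)) rfl ?_
      refine this.trans ?_
      ext i j
      rw [Matrix.map_apply, Matrix.smul_apply, Matrix.smul_apply, Matrix.one_apply, Matrix.one_apply]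
      by_cases hij : i = j
      · rw [if_pos hij, if_pos hij]; simp
      · rw [if_neg hij, if_neg hij]; simp
    have hnq : (n : ℚ) ≠ 0 := by positivity
    have h4 : (M.map (Int.cast : ℤ → ℚ)) * ((n : ℚ)⁻¹ • (M.map (Int.cast : ℤ → ℚ)).transpose) = 1 := by
      rw [Matrix.mul_smul, hq, smul_smul, inv_mul_cancel₀ hnq, one_smul]
    have h5 := mul_eq_one_comm.1 h4
    rw [Matrix.smul_mul] at h5
    have h6 : (M.map (Int.cast : ℤ → ℚ)).transpose * (M.map (Int.cast : ℤ → ℚ)) =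
        (n : ℚ) • (1 : Matrix (Fin n) (Fin n) ℚ) := by
      rw [← h5, smul_smul, mul_inv_cancel₀ hnq, one_smul]
    ext i j
    have h7 := congrFun (congrFun h6 i) j
    rw [Matrix.mul_apply] at h7 ⊢
    simp only [Matrix.transpose_apply, Matrix.map_apply, Matrix.smul_apply, smul_eq_mul] at h7 ⊢
    have h8 : ((∑ x, M x i * M x j : ℤ) : ℚ) = (((n : ℤ) * (1 : Matrix (Fin n) (Fin n) ℤ) i j : ℤ) : ℚ) := by
      push_cast
      rw [h7]
      congr 1
      by_cases hij : i = j
      · subst hij; simp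
      · simp [Matrix.one_apply_ne hij]
    exact_mod_cast h8
  refine ⟨fun x a => M (e x) a * M (e 1) a, ?_, ?_, ?_, ?_⟩
  · intro x a
    dsimp only
    rcases h1 (e x) a with h | h <;> rcases h1 (e 1) a with h' | h' <;> rw [h, h'] <;> norm_num
  · intro a; exact hsq _ _
  · intro x y
    have h4 := congrFun (congrFun h2 (e x)) (e y)
    rw [Matrix.mul_apply, Matrix.smul_apply, Matrix.one_apply] at h4
    simp only [Matrix.transpose_apply, smul_eq_mul] at h4
    have h5 : ∀ a, M (e x) a * M (e 1) a * (M (e y) a * M (e 1) a) = M (e x) a * M (e y) a := by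
      intro a
      calc M (e x) a * M (e 1) a * (M (e y) a * M (e 1) a)
          = M (e x) a * M (e y) a * (M (e 1) a * M (e 1) a) := by ring
        _ = _ := by rw [hsq, mul_one]
    simp only [h5]
    rw [h4]
    by_cases hxy : x = y
    · simp [hxy]
    · simp [hxy]
  · intro a b
    have h4 := congrFun (congrFun h3 a) b
    rw [Matrix.mul_apply, Matrix.smul_apply, Matrix.one_apply] at h4
    simp only [Matrix.transpose_apply, smul_eq_mul] at h4
    have h5 : ∑ x : Γ, M (e x) a * M (e 1) a * (M (e x) b * M (e 1) b) =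
        M (e 1) a * M (e 1) b * ∑ i, M i a * M i b := by
      rw [← Equiv.sum_comp e (fun i => M i a * M i b), Finset.mul_sum]
      exact Finset.sum_congr rfl fun x _ => by ring
    rw [h5, h4]
    by_cases hab : a = b
    · subst hab; simp [hsq]
    · simp [hab]

/-- the sign function -/
def mt {Γ : Type} [Group Γ] {n : ℕ} (H : Γ → Fin n → ℤ) (p q : Γ × Fin n) : ℤ :=
  H (p.1⁻¹ * q.1) p.2 * H (p.1⁻¹ * q.1) q.2

section

variable {Γ : Type} [Group Γ] [Fintype Γ] [DecidableEq Γ] {n : ℕ} {H : Γ → Fin n → ℤ}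

theorem mt_sign (h1 : ∀ x a, H x a = 1 ∨ H x a = -1) (p q : Γ × Fin n) : mt H p q = 1 ∨ mt H p q = -1 := by
  unfold mt
  rcases h1 (p.1⁻¹ * q.1) p.2 with h | h <;> rcases h1 (p.1⁻¹ * q.1) q.2 with h' | h' <;>
    rw [h, h'] <;> norm_num

theorem mt_row_orth (h3 : ∀ x y, ∑ a, H x a * H y a = if x = y then (n : ℤ) else 0)
    (h4 : ∀ a b, ∑ x, H x a * H x b = if a = b then (n : ℤ) else 0) (p p' : Γ × Fin n) :
    ∑ q, mt H p q * mt H p' q = if p = p' then (n : ℤ) * n else 0 := by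
  rw [Fintype.sum_prod_type]
  have e1 : ∀ y, ∑ b, mt H p (y, b) * mt H p' (y, b) =
      H (p.1⁻¹ * y) p.2 * H (p'.1⁻¹ * y) p'.2 * (if p.1 = p'.1 then (n : ℤ) else 0) := by
    intro y
    have := h3 (p.1⁻¹ * y) (p'.1⁻¹ * y)
    have e2 : (p.1⁻¹ * y = p'.1⁻¹ * y) ↔ p.1 = p'.1 := by simp
    simp only [e2] at this
    rw [← this, Finset.mul_sum]
    exact Finset.sum_congr rfl fun b _ => by unfold mt; ring
  simp only [e1]
  by_cases hx : p.1 = p'.1
  · simp only [hx, if_true]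
    rw [← Finset.sum_mul, ← Equiv.sum_comp (Equiv.mulLeft p'.1) (fun y => H (p'.1⁻¹ * y) p.2 * H (p'.1⁻¹ * y) p'.2)]
    simp only [Equiv.coe_mulLeft, inv_mul_cancel_left]
    rw [h4]
    by_cases ha : p.2 = p'.2
    · rw [if_pos ha, if_pos (Prod.ext hx ha)]
    · rw [if_neg ha, if_neg (fun h => ha (congrArg Prod.snd h)), zero_mul]
  · simp only [if_neg hx, mul_zero, Finset.sum_const_zero]
    rw [if_neg (fun h => hx (congrArg Prod.fst h))]

theorem mt_col_orth (h3 : ∀ x y, ∑ a, H x a * H y a = if x = y then (n : ℤ) else 0)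
    (h4 : ∀ a b, ∑ x, H x a * H x b = if a = b then (n : ℤ) else 0) (p p' : Γ × Fin n) :
    ∑ q, mt H q p * mt H q p' = if p = p' then (n : ℤ) * n else 0 := by
  rw [Fintype.sum_prod_type]
  have e1 : ∀ y, ∑ b, mt H (y, b) p * mt H (y, b) p' =
      H (y⁻¹ * p.1) p.2 * H (y⁻¹ * p'.1) p'.2 * (if p.1 = p'.1 then (n : ℤ) else 0) := by
    intro y
    have := h3 (y⁻¹ * p.1) (y⁻¹ * p'.1)
    have e2 : (y⁻¹ * p.1 = y⁻¹ * p'.1) ↔ p.1 = p'.1 := by simp
    simp only [e2] at this
    rw [← this, Finset.mul_sum]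
    exact Finset.sum_congr rfl fun b _ => by unfold mt; ring
  simp only [e1]
  by_cases hx : p.1 = p'.1
  · simp only [hx, if_true]
    rw [← Finset.sum_mul]
    have e3 : ∑ y : Γ, H (y⁻¹ * p'.1) p.2 * H (y⁻¹ * p'.1) p'.2 = ∑ z, H z p.2 * H z p'.2 := by
      rw [← Equiv.sum_comp ((Equiv.inv Γ).trans (Equiv.mulRight p'.1)) (fun z => H z p.2 * H z p'.2)]
      rfl
    rw [e3, h4]
    by_cases ha : p.2 = p'.2
    · rw [if_pos ha, if_pos (Prod.ext hx ha)]
    · rw [if_neg ha, if_neg (fun h => ha (congrArg Prod.snd h)), zero_mul]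
  · simp only [if_neg hx, mul_zero, Finset.sum_const_zero]
    rw [if_neg (fun h => hx (congrArg Prod.fst h))]

theorem row_zero (h2 : ∀ a, H 1 a = 1)
    (h3 : ∀ x y, ∑ a, H x a * H y a = if x = y then (n : ℤ) else 0) (z : Γ) :
    ∑ a, H z a = if z = 1 then (n : ℤ) else 0 := by
  have := h3 z 1
  simpa [h2] using this

theorem mt_row_sum (h2 : ∀ a, H 1 a = 1)
    (h3 : ∀ x y, ∑ a, H x a * H y a = if x = y then (n : ℤ) else 0) (p : Γ × Fin n) :
    ∑ q, mt H p q = n := by
  rw [Fintype.sum_prod_type]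
  have e1 : ∀ y, ∑ b, mt H p (y, b) = H (p.1⁻¹ * y) p.2 * (if p.1⁻¹ * y = 1 then (n : ℤ) else 0) := by
    intro y
    rw [← row_zero h2 h3, Finset.mul_sum]
    rfl
  simp only [e1]
  rw [Finset.sum_eq_single p.1]
  · rw [inv_mul_cancel, h2, if_pos rfl, one_mul]
  · intro y _ hy
    rw [if_neg, mul_zero]
    intro h
    exact hy (inv_mul_eq_one.1 h).symm
  · intro h; exact absurd (Finset.mem_univ _) h

theorem mt_col_sum (h2 : ∀ a, H 1 a = 1)
    (h3 : ∀ x y, ∑ a, H x a * H y a = if x = y then (n : ℤ) else 0) (p : Γ × Fin n) :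
    ∑ q, mt H q p = n := by
  rw [Fintype.sum_prod_type]
  have e1 : ∀ y, ∑ b, mt H (y, b) p = H (y⁻¹ * p.1) p.2 * (if y⁻¹ * p.1 = 1 then (n : ℤ) else 0) := by
    intro y
    rw [← row_zero h2 h3, Finset.mul_sum]
    exact Finset.sum_congr rfl fun b _ => by unfold mt; ring
  simp only [e1]
  rw [Finset.sum_eq_single p.1]
  · rw [inv_mul_cancel, h2, if_pos rfl, one_mul]
  · intro y _ hy
    rw [if_neg, mul_zero]
    intro h
    exact hy (inv_mul_eq_one.1 h)
  · intro h; exact absurd (Finset.mem_univ _) h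

/-- counting signs -/
theorem count_one {X : Type} [Fintype X] (f : X → ℤ) (hf : ∀ x, f x = 1 ∨ f x = -1) :
    2 * ((univ.filter (fun x => f x = -1)).card : ℤ) = Fintype.card X - ∑ x, f x := by
  have h1 : ∀ x, (if f x = -1 then (1 : ℤ) else 0) * 2 = 1 - f x := by
    intro x; rcases hf x with h | h <;> rw [h] <;> norm_num
  have h2 : ((univ.filter (fun x => f x = -1)).card : ℤ) = ∑ x, (if f x = -1 then (1 : ℤ) else 0) := by
    rw [Finset.sum_boole]
  rw [h2, mul_comm, Finset.sum_mul]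
  simp only [h1]
  rw [Finset.sum_sub_distrib]
  simp

theorem count_two {X : Type} [Fintype X] (f g : X → ℤ) (hf : ∀ x, f x = 1 ∨ f x = -1)
    (hg : ∀ x, g x = 1 ∨ g x = -1) :
    4 * ((univ.filter (fun x => f x = -1 ∧ g x = -1)).card : ℤ) =
      Fintype.card X - ∑ x, f x - ∑ x, g x + ∑ x, f x * g x := by
  have h1 : ∀ x, (if f x = -1 ∧ g x = -1 then (1 : ℤ) else 0) * 4 = 1 - f x - g x + f x * g x := by
    intro x; rcases hf x with h | h <;> rcases hg x with h' | h' <;> rw [h, h'] <;> norm_num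
  have h2 : ((univ.filter (fun x => f x = -1 ∧ g x = -1)).card : ℤ) =
      ∑ x, (if f x = -1 ∧ g x = -1 then (1 : ℤ) else 0) := by
    rw [Finset.sum_boole]
  rw [h2, mul_comm, Finset.sum_mul]
  simp only [h1]
  rw [Finset.sum_add_distrib, Finset.sum_sub_distrib, Finset.sum_sub_distrib]
  simp

end

/-- the design -/
theorem design {Γ : Type} [Group Γ] [Fintype Γ] [DecidableEq Γ] {n : ℕ} (hn : Fintype.card Γ = n)
    (h : HasHad n) : ∃ B : Γ × Fin n → Finset (Γ × Fin n),
      (∀ p, 2 * ((B p).card : ℤ) = n ^ 2 - n) ∧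
      (∀ q, 2 * ((univ.filter (fun p => q ∈ B p)).card : ℤ) = n ^ 2 - n) ∧
      (∀ p p', p ≠ p' → 4 * ((B p ∩ B p').card : ℤ) = n ^ 2 - 2 * n) ∧
      (∀ q q', q ≠ q' → 4 * ((univ.filter (fun p => q ∈ B p ∧ q' ∈ B p)).card : ℤ) = n ^ 2 - 2 * n) ∧
      (∀ (g x y : Γ) (a b : Fin n), (g * y, b) ∈ B (g * x, a) ↔ (y, b) ∈ B (x, a)) := by
  obtain ⟨H, h1, h2, h3, h4⟩ := exists_normal hn h
  have hX : (Fintype.card (Γ × Fin n) : ℤ) = n ^ 2 := by
    rw [Fintype.card_prod, Fintype.card_fin, hn]; push_cast; ring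
  refine ⟨fun p => univ.filter (fun q => mt H p q = -1), ?_, ?_, ?_, ?_, ?_⟩
  · intro p
    rw [count_one _ (mt_sign h1 p), hX, mt_row_sum h2 h3]
  · intro q
    simp only [Finset.mem_filter, Finset.mem_univ, true_and]
    rw [count_one _ (fun p => mt_sign h1 p q), hX, mt_col_sum h2 h3]
  · intro p p' hp
    rw [← Finset.filter_and, count_two _ _ (mt_sign h1 p) (mt_sign h1 p'), hX, mt_row_sum h2 h3,
      mt_row_sum h2 h3, mt_row_orth h3 h4, if_neg hp]
    ring
  · intro q q' hq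
    simp only [Finset.mem_filter, Finset.mem_univ, true_and]
    rw [count_two _ _ (fun p => mt_sign h1 p q) (fun p => mt_sign h1 p q'), hX, mt_col_sum h2 h3,
      mt_col_sum h2 h3, mt_col_orth h3 h4, if_neg hq]
    ring
  · intro g x y a b
    have e1 : mt H (g * x, a) (g * y, b) = mt H (x, a) (y, b) := by
      unfold mt
      have : (g * x)⁻¹ * (g * y) = x⁻¹ * y := by group
      simp only [this]
    rw [Finset.mem_filter, Finset.mem_filter, e1]
    simp only [Finset.mem_univ, true_and]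

end Pool.Agent.X18.Menon
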