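import Pool.Agent.W865.SS.Steiner

/-!
# Subsystems of Steiner systems `S(n,k,2)`

If Steiner systems `S(n,k,2)` exist for all admissible `n ≥ N`, then every `S(m,k,2)` is a subsystem
of an `S(n,k,2)` for all admissible `n ≥ N ^ C * m`.
-/

set_option autoImplicit false

namespace Pool.Agent.X18.SEmb

open Finset H108 Pool.Agent.W855 Pool.Agent.W865.SS

/-- all admissible orders from `N` on -/
def Thr (k N : ℕ) : Prop := ∀ n, N ≤ n → Adm k n → IG {k} 1 n 0

/-- admissibility in terms of `r`, `n = (k - 1) r + 1` -/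
def AR (k r : ℕ) : Prop := k ∣ r * ((k - 1) * r + 1)

theorem ar_congr {k r s : ℕ} (h : r ≡ s [MOD k]) (hs : AR k s) : AR k r := by
  unfold AR at *
  have h1 : r * ((k - 1) * r + 1) ≡ s * ((k - 1) * s + 1) [MOD k] :=
    h.mul ((h.mul_left _).add_right _)
  exact (Nat.modEq_zero_iff_dvd.1 (h1.trans (Nat.modEq_zero_iff_dvd.2 hs)))

theorem ar_zero {k : ℕ} (j : ℕ) : AR k (k * j) := ⟨j * ((k - 1) * (k * j) + 1), by ring⟩

theorem ar_one {k : ℕ} (hk : 1 ≤ k) (j : ℕ) : AR k (k * j + 1) := by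
  unfold AR
  obtain ⟨l, rfl⟩ : ∃ l, k = l + 1 := ⟨k - 1, by omega⟩
  refine ⟨((l + 1) * j + 1) * (l * j + 1), ?_⟩
  simp only [Nat.add_sub_cancel]
  ring

theorem rr_of {k N r : ℕ} (hk : 3 ≤ k) (h : Thr k N) (hr : N ≤ r) (ha : AR k r) :
    RR k r := by
  apply ig_delete_point (by omega)
  apply h
  · have : r ≤ (k - 1) * r := Nat.le_mul_of_pos_left r (by omega)
    omega
  · refine ⟨by simp, ?_, by omega⟩
    obtain ⟨c, hc⟩ := ha
    refine ⟨c, ?_⟩
    rw [Nat.add_sub_cancel]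
    calc ((k - 1) * r + 1) * ((k - 1) * r) = (k - 1) * (r * ((k - 1) * r + 1)) := by ring
      _ = (k - 1) * (k * c) := by rw [hc]
      _ = k * (k - 1) * c := by ring

/-- the main construction -/
theorem hole {C k N : ℕ} (hT : ∀ N : ℕ, 2 ≤ N → ∀ n : ℕ, N ^ C ≤ n → OA N n) (hC : 2 ≤ C)
    (hk : 3 ≤ k) (hN : k ≤ N) (hthr : Thr k N) {s r : ℕ} (hs : AR k s) (hr : AR k r)
    (hrs : (k * N + 1) ^ (C + 2) * (s + 2) ≤ r) : HB k s (k - 1) r := by
  obtain ⟨x, hx⟩ : ∃ x, x = k * N := ⟨_, rfl⟩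
  rw [← hx] at hrs
  have hx9 : 9 ≤ x := by rw [hx]; nlinarith
  have hNx : N ≤ x := by rw [hx]; exact Nat.le_mul_of_pos_left N (by omega)
  have hkx : k ≤ x := hN.trans hNx
  obtain ⟨T, hTdef⟩ : ∃ T, T = (x + 1) ^ C := ⟨_, rfl⟩
  have hT2 : (x + 1) ^ 2 ≤ T := by
    rw [hTdef]; exact Nat.pow_le_pow_right (by omega) hC
  -- the choice of `w`
  obtain ⟨w, hw⟩ : ∃ w, w = (r - (N + x * s)) / (x ^ 2 * k) := ⟨_, rfl⟩
  have hxk : 0 < x ^ 2 * k := by positivity
  have hbig : x ^ 2 * (T + s + k) + N + x * s ≤ r := by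
    refine le_trans ?_ hrs
    have e1 : (x + 1) ^ (C + 2) = T * (x + 1) ^ 2 := by rw [hTdef, pow_add]
    rw [e1]
    have h1 : x ^ 2 * (T + s + k) ≤ (x + 1) ^ 2 * (T + s + k) := by gcongr; omega
    have h2 : N + x * s ≤ (x + 1) ^ 2 * (s + 1) := by nlinarith
    have h3 : T + s + k + (s + 1) ≤ T * (s + 2) := by
      have : x + 1 ≤ T := by nlinarith
      nlinarith
    calc x ^ 2 * (T + s + k) + N + x * s ≤ (x + 1) ^ 2 * (T + s + k) + (x + 1) ^ 2 * (s + 1) := by
          omega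
      _ = (x + 1) ^ 2 * (T + s + k + (s + 1)) := by ring
      _ ≤ (x + 1) ^ 2 * (T * (s + 2)) := Nat.mul_le_mul_left _ h3
      _ = T * (x + 1) ^ 2 * (s + 2) := by ring
  have hw1 : x ^ 2 * k * w ≤ r - (N + x * s) := by
    rw [hw]; exact Nat.mul_div_le _ _
  have hw2 : r - (N + x * s) < x ^ 2 * k * w + x ^ 2 * k := by
    have := Nat.lt_mul_div_succ (r - (N + x * s)) hxk
    rw [← hw] at this
    rw [mul_add, mul_one] at this
    exact this
  have hwT : T + s ≤ k * w := by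
    by_contra hcon
    push Not at hcon
    have h1 : x ^ 2 * (k * w) + x ^ 2 * k ≤ x ^ 2 * (T + s + k) := by
      have : x ^ 2 * (k * w) ≤ x ^ 2 * (T + s) := Nat.mul_le_mul_left _ hcon.le
      nlinarith
    have e : x ^ 2 * (k * w) = x ^ 2 * k * w := by ring
    rw [e] at h1
    omega
  obtain ⟨t, ht⟩ : ∃ t, t = x * (k * w) + s := ⟨_, rfl⟩
  have hxw : k * w ≤ x * (k * w) := Nat.le_mul_of_pos_left _ (by omega)
  have hTN : N ≤ T := by nlinarith
  have hkw0 : 0 < k * w := by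
    have : 0 < T := by rw [hTdef]; positivity
    omega
  have rx : RR k x := rr_of hk hthr hNx (by rw [hx]; exact ar_zero N)
  have rx1 : RR k (x + 1) := rr_of hk hthr (by omega) (by
    rw [hx]; exact ar_one (by omega) N)
  have rt0 : RR k (k * w) := rr_of hk hthr (by omega) (ar_zero w)
  have mt : t ≡ s [MOD k] := by
    rw [ht]
    have : x * (k * w) ≡ 0 [MOD k] := (Nat.modEq_zero_iff_dvd.2 ⟨x * w, by ring⟩)
    simpa using this.add_right s
  have rt : RR k t := rr_of hk hthr (by omega) (ar_congr mt hs)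
  have hOA : ∀ n, T ≤ n → OA (x + 1) n := fun n hn => hT (x + 1) (by omega) n (by
    rw [← hTdef]; exact hn)
  -- the hole in `t`
  have J1 : HB k s (k - 1) t := by
    refine ⟨by omega, ?_⟩
    have h1 := hb_trunc rx rx1 (hOA (k * w) (by omega)) rt0 (by omega : s ≤ k * w)
    have e : t - s = x * (k * w) := by omega
    rw [e]
    exact h1
  -- the remainder
  have hxt : x * t = x ^ 2 * k * w + x * s := by rw [ht]; ring
  have hxt' : x * t + N ≤ r := by omega
  obtain ⟨s', hs'⟩ : ∃ s', s' = r - x * t := ⟨_, rfl⟩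
  have hs'1 : N ≤ s' := by omega
  have hs'2 : s' ≤ N + x ^ 2 * k := by omega
  have hs't : s' ≤ t := by
    refine hs'2.trans ?_
    have h1 : x * T ≤ x * (k * w) := Nat.mul_le_mul_left _ (by omega)
    have h2 : N + x ^ 2 * k ≤ x * T := by
      have h3 : x * (x + 1) ^ 2 ≤ x * T := Nat.mul_le_mul_left _ hT2
      have h4 : N + x ^ 2 * k ≤ x * (x + 1) ^ 2 := by nlinarith
      omega
    omega
  have ms : s' ≡ r [MOD k] := by
    have h1 : x * t + s' = r := by omega
    have h2 : x * t ≡ 0 [MOD k] := Nat.modEq_zero_iff_dvd.2 ⟨N * t, by rw [hx]; ring⟩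
    have h3 : x * t + s' ≡ 0 + s' [MOD k] := h2.add_right s'
    rw [h1, zero_add] at h3
    exact h3.symm
  have rs' : RR k s' := rr_of hk hthr hs'1 (ar_congr ms hr)
  have := hb_step (by omega) rx rx1 (hOA t (by omega)) rt J1 rs' hs't
  have e : x * t + s' = r := by omega
  rwa [e] at this

/-- from the groups of size `k - 1` to points -/
theorem points {k a w : ℕ} (hk : 2 ≤ k) (h : IG {k} (k - 1) a w) : IG {k} 1 ((k - 1) * a) (w + 1) := by
  classical
  have h1 := ig_masterHole (k := k) (g := 1) (c := 1) (w := 1) (igMap (k - 1) a w) none h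
    (by
      intro u hu
      rw [Set.mem_singleton_iff] at hu
      subst hu
      simpa using ig_block u) (by
      intro i hi
      obtain ⟨j, rfl⟩ := Option.ne_none_iff_exists'.1 hi
      rw [card_igMap_some, one_mul, ig_hole_iff, Nat.sub_add_cancel (by omega)]
      exact ig_block k)
  rw [card_igMap_none] at h1
  have e : Nat.card {x // igMap (k - 1) a w x ≠ none} = (k - 1) * a := by
    have h2 : Nat.card {x // igMap (k - 1) a w x ≠ none} = Nat.card (Fin a × Fin (k - 1)) := by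
      refine Nat.card_congr ⟨fun x => match x with
        | ⟨Sum.inl p, _⟩ => p
        | ⟨Sum.inr q, h⟩ => absurd rfl h, fun p => ⟨Sum.inl p, by simp [igMap]⟩, ?_, ?_⟩
      · rintro ⟨(p | q), h⟩
        · rfl
        · exact absurd rfl h
      · intro p
        rfl
    rw [h2]
    simp [mul_comm]
  rw [e, one_mul, one_mul, one_mul] at h1
  exact h1

end Pool.Agent.X18.SEmb
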