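import Pool.Agent.X18.SteinerEmb

/-!
# Subsystems of Steiner systems `S(n,k,2)`: filling the hole
-/

set_option autoImplicit false

namespace Pool.Agent.X18.SEmb

open Finset H108 Pool.Agent.W855 Pool.Agent.W865.SS

/-- `B` is a Steiner system `S(n,q,2)` -/
def IsS (n q : ℕ) (B : Finset (Finset (Fin n))) : Prop :=
  (∀ b ∈ B, b.card = q) ∧ ∀ T : Finset (Fin n), T.card = 2 → ∃! b, b ∈ B ∧ T ⊆ b

/-- the points -/
def pf (a m : ℕ) : (Fin a × Fin 1) ⊕ Fin m → Fin (m + a) :=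
  Sum.elim (fun p => Fin.natAdd m p.1) (Fin.castAdd a)

theorem pf_inj (a m : ℕ) : Function.Injective (pf a m) := by
  rintro (⟨i, i'⟩ | x) (⟨j, j'⟩ | y) h
  · simp only [pf, Sum.elim_inl, Fin.ext_iff, Fin.val_natAdd] at h
    have : i = j := Fin.ext (by omega)
    subst this
    have : i' = j' := Subsingleton.elim _ _
    rw [this]
  · simp only [pf, Sum.elim_inl, Sum.elim_inr, Fin.ext_iff, Fin.val_natAdd, Fin.val_castAdd] at h
    have := y.2
    omega
  · simp only [pf, Sum.elim_inl, Sum.elim_inr, Fin.ext_iff, Fin.val_natAdd, Fin.val_castAdd] at h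
    have := x.2
    omega
  · simp only [pf, Sum.elim_inr, Fin.ext_iff, Fin.val_castAdd] at h
    rw [Fin.ext h]

theorem pf_surj (a m : ℕ) : Function.Surjective (pf a m) := by
  intro x
  induction x using Fin.addCases with
  | left i => exact ⟨Sum.inr i, rfl⟩
  | right j => exact ⟨Sum.inl (j, 0), rfl⟩

theorem fill_sub {k a m : ℕ} (h : IG {k} 1 a m) {B₀ : Finset (Finset (Fin m))} (h0 : IsS m k B₀) :
    ∃ B : Finset (Finset (Fin (m + a))), IsS (m + a) k B ∧
      ∀ b ∈ B₀, b.map (Fin.castAddEmb a) ∈ B := by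
  classical
  obtain ⟨Bh, hB1, hB2⟩ := h
  obtain ⟨h01, h02⟩ := h0
  let f : (Fin a × Fin 1) ⊕ Fin m ↪ Fin (m + a) := ⟨pf a m, pf_inj a m⟩
  have hf : ∀ z, f z = pf a m z := fun z => rfl
  have hfr : ∀ z : Fin m, f (Sum.inr z) = Fin.castAddEmb a z := fun z => rfl
  let B : Finset (Finset (Fin (m + a))) :=
    univ.filter (fun b => (∃ c ∈ Bh, b = c.map f) ∨ ∃ c ∈ B₀, b = c.map (Fin.castAddEmb a))
  have hB : ∀ b, b ∈ B ↔ (∃ c ∈ Bh, b = c.map f) ∨ ∃ c ∈ B₀, b = c.map (Fin.castAddEmb a) := by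
    intro b
    simp [B]
  refine ⟨B, ⟨?_, ?_⟩, fun b hb => (hB _).2 (Or.inr ⟨b, hb, rfl⟩)⟩
  · intro b hb
    rcases (hB b).1 hb with ⟨c, hc, rfl⟩ | ⟨c, hc, rfl⟩
    · rw [card_map]
      simpa using (hB1 c hc).1
    · rw [card_map]
      exact h01 c hc
  · intro T hTc
    obtain ⟨x, y, hxy, rfl⟩ := card_eq_two.1 hTc
    obtain ⟨x, rfl⟩ := pf_surj a m x
    obtain ⟨y, rfl⟩ := pf_surj a m y
    have hxy' : x ≠ y := fun h => hxy (by rw [h])
    have hsub : ∀ b : Finset (Fin (m + a)), {pf a m x, pf a m y} ⊆ b ↔ f x ∈ b ∧ f y ∈ b := by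
      intro b
      rw [insert_subset_iff, singleton_subset_iff, hf, hf]
    simp only [hsub]
    by_cases hπ : igMap 1 a m x = igMap 1 a m y
    · -- both points in the hole
      obtain ⟨x', rfl⟩ : ∃ x', x = Sum.inr x' := by
        rcases x with ⟨i, i'⟩ | x
        · exfalso
          rcases y with ⟨j, j'⟩ | y
          · simp only [igMap, Sum.elim_inl, Option.some.injEq] at hπ
            apply hxy'
            rw [hπ, Subsingleton.elim i' j']
          · simp [igMap] at hπ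
        · exact ⟨x, rfl⟩
      obtain ⟨y', rfl⟩ : ∃ y', y = Sum.inr y' := by
        rcases y with ⟨i, i'⟩ | y
        · simp [igMap] at hπ
        · exact ⟨y, rfl⟩
      have hne : x' ≠ y' := fun h => hxy' (by rw [h])
      obtain ⟨b, ⟨hb1, hb2⟩, hb3⟩ := h02 {x', y'} (card_pair hne)
      have hbx : x' ∈ b := hb2 (by simp)
      have hby : y' ∈ b := hb2 (by simp)
      refine ⟨b.map (Fin.castAddEmb a), ⟨(hB _).2 (Or.inr ⟨b, hb1, rfl⟩), ?_, ?_⟩, ?_⟩
      · rw [hfr]; exact mem_map_of_mem _ hbx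
      · rw [hfr]; exact mem_map_of_mem _ hby
      · rintro d ⟨hd, hdx, hdy⟩
        rcases (hB d).1 hd with ⟨c, hc, rfl⟩ | ⟨c, hc, rfl⟩
        · exfalso
          rw [mem_map'] at hdx hdy
          exact hxy' ((hB1 c hc).2 (by exact_mod_cast hdx) (by exact_mod_cast hdy) hπ)
        · rw [hfr, mem_map'] at hdx hdy
          rw [hb3 c ⟨hc, by
            intro z hz
            rcases mem_insert.1 hz with rfl | hz
            · exact hdx
            · rw [mem_singleton.1 hz]; exact hdy⟩]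
    · obtain ⟨b, ⟨hb1, hb2, hb3⟩, hb4⟩ := hB2 x y hπ
      refine ⟨b.map f, ⟨(hB _).2 (Or.inl ⟨b, hb1, rfl⟩), mem_map_of_mem _ hb2,
        mem_map_of_mem _ hb3⟩, ?_⟩
      rintro d ⟨hd, hdx, hdy⟩
      rcases (hB d).1 hd with ⟨c, hc, rfl⟩ | ⟨c, hc, rfl⟩
      · rw [mem_map'] at hdx hdy
        rw [hb4 c ⟨hc, hdx, hdy⟩]
      · exfalso
        apply hπ
        obtain ⟨x', -, hx'⟩ := mem_map.1 hdx
        obtain ⟨y', -, hy'⟩ := mem_map.1 hdy
        rw [← hfr] at hx' hy'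
        rw [← f.injective hx', ← f.injective hy']
        rfl

/-- every system on `m` points is a subsystem -/
def Emb (k m n : ℕ) : Prop := ∀ B₀ : Finset (Finset (Fin m)), IsS m k B₀ →
  ∃ (h : m ≤ n) (B : Finset (Finset (Fin n))), IsS n k B ∧ ∀ b ∈ B₀, b.map (Fin.castLEEmb h) ∈ B

theorem emb_of_ig {k a m n : ℕ} (h : IG {k} 1 a m) (hn : n = m + a) : Emb k m n := by
  subst hn
  intro B₀ h0
  obtain ⟨B, hB1, hB2⟩ := fill_sub h h0
  exact ⟨Nat.le_add_right m a, B, hB1, hB2⟩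

/-- the general theorem -/
theorem emb_of_thr : ∃ C : ℕ, ∀ k N : ℕ, 3 ≤ k → k ≤ N → Thr k N → ∀ m n : ℕ, 1 ≤ m →
    N ^ C * m ≤ n → Adm k n → Emb k m n := by
  obtain ⟨C, hC, hT⟩ := td_gen
  refine ⟨3 * (C + 2) + 2, ?_⟩
  intro k N hk hkN hthr m n hm hn hadm B₀ h0
  have hN3 : 3 ≤ N := hk.trans hkN
  have h1 : (k - 1) ∣ (m - 1) := necessary_one (by omega) h0.1 h0.2
  have h2 := necessary_zero h0.1 h0.2
  have h3 : k * (k - 1) ∣ m * (m - 1) := by
    rw [← two_mul_choose', ← two_mul_choose']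
    exact mul_dvd_mul_left 2 h2
  obtain ⟨s, hs⟩ := h1
  have hm' : m = (k - 1) * s + 1 := by omega
  obtain ⟨hn1, hn2, hn3⟩ := hadm
  obtain ⟨r, hr⟩ := hn1
  have hn' : n = (k - 1) * r + 1 := by omega
  have hk1 : 0 < k - 1 := by omega
  have har : ∀ (v u : ℕ), v = (k - 1) * u + 1 → k * (k - 1) ∣ v * (v - 1) → AR k u := by
    intro v u hv hd
    rw [hv, Nat.add_sub_cancel] at hd
    have e : ((k - 1) * u + 1) * ((k - 1) * u) = (k - 1) * (u * ((k - 1) * u + 1)) := by ring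
    rw [e, mul_comm k (k - 1)] at hd
    exact Nat.dvd_of_mul_dvd_mul_left hk1 hd
  have hsA : AR k s := har m s hm' h3
  have hrA : AR k r := har n r hn' hn2
  have hrs : (k * N + 1) ^ (C + 2) * (s + 2) ≤ r := by
    have e1 : k * N + 1 ≤ N ^ 3 := by nlinarith [Nat.mul_le_mul hkN (le_refl N)]
    have e2 : (k * N + 1) ^ (C + 2) ≤ N ^ (3 * (C + 2)) := by
      rw [pow_mul]
      exact Nat.pow_le_pow_left e1 _
    obtain ⟨P, hP⟩ : ∃ P, P = N ^ (3 * (C + 2)) := ⟨_, rfl⟩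
    have e3 : N ^ (3 * (C + 2) + 2) = P * N ^ 2 := by rw [hP, pow_add]
    rw [e3, hm', hn'] at hn
    rw [← hP] at e2
    refine (Nat.mul_le_mul_right _ e2).trans ?_
    have hP1 : 1 ≤ P := by rw [hP]; exact Nat.one_le_pow _ _ (by omega)
    by_contra hcon
    push Not at hcon
    have h5 : (k - 1) * (r + 1) ≤ (k - 1) * (P * (s + 2)) := Nat.mul_le_mul_left _ hcon
    have h6 : (k - 1) * r + 1 ≤ (k - 1) * (r + 1) := by nlinarith
    have h7 : (k - 1) * (P * (s + 2)) < P * N ^ 2 * ((k - 1) * s + 1) := by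
      have h8 : (k - 1) * (s + 2) < N ^ 2 * ((k - 1) * s + 1) := by
        obtain ⟨l, rfl⟩ : ∃ l, k = l + 1 := ⟨k - 1, by omega⟩
        rw [Nat.add_sub_cancel]
        have h9 : l + 1 ≤ N := hkN
        have h10 : N * 3 ≤ N ^ 2 := by nlinarith
        nlinarith [Nat.zero_le (l * s)]
      calc (k - 1) * (P * (s + 2)) = P * ((k - 1) * (s + 2)) := by ring
        _ < P * (N ^ 2 * ((k - 1) * s + 1)) := Nat.mul_lt_mul_of_pos_left h8 (by omega)
        _ = _ := by ring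
    omega
  obtain ⟨hsr, hJ⟩ := hole hT hC hk hkN hthr hsA hrA hrs
  have h4 := points (by omega) hJ
  have e1 : (k - 1) * s + 1 = m := hm'.symm
  rw [e1] at h4
  refine emb_of_ig h4 ?_ B₀ h0
  rw [hn', hm']
  have : (k - 1) * s + (k - 1) * (r - s) = (k - 1) * r := by
    rw [← mul_add]; congr 1; omega
  omega

end Pool.Agent.X18.SEmb
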